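import Pool.Agent.DM.BDY

/-!
# DP: bound for the `g` part of the `F` rows

`dRow` with `z = 0` is `- hs r (w^(r%2) A_b Cn_j g_b)`; the coefficients of `g_b` are at most
`2 b p b^(m+1)` (reciprocals of positive integers), absorbed for `M` large. Pattern `DM/BDY`.
-/

namespace Pool.Agent.DP

open Finset Pool.Agent.ZC Pool.Agent.SI Pool.Agent.DM

private theorem bdp_inv_sub (c : ℝ) (hc : c ≠ 0) :
    (PowerSeries.C c - PowerSeries.X)⁻¹ = PowerSeries.mk fun r => (c⁻¹) ^ (r + 1) := by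
  rw [PowerSeries.inv_eq_iff_mul_eq_one (by simpa using hc)]
  ext r
  rw [mul_sub, map_sub, mul_comm, PowerSeries.coeff_C_mul, PowerSeries.coeff_mk]
  rcases r with _ | r
  · simp [hc]
  · rw [PowerSeries.coeff_succ_mul_X, PowerSeries.coeff_mk, PowerSeries.coeff_one,
      if_neg (Nat.succ_ne_zero r), pow_succ' c⁻¹ (r + 1), ← mul_assoc, mul_inv_cancel₀ hc]
    ring

private theorem bdp_inv_add (c : ℝ) (hc : c ≠ 0) :
    (PowerSeries.C c + PowerSeries.X)⁻¹ =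
      PowerSeries.mk fun r => (-1) ^ r * (c⁻¹) ^ (r + 1) := by
  rw [PowerSeries.inv_eq_iff_mul_eq_one (by simpa using hc)]
  ext r
  rw [mul_add, map_add, mul_comm, PowerSeries.coeff_C_mul, PowerSeries.coeff_mk]
  rcases r with _ | r
  · simp [hc]
  · rw [PowerSeries.coeff_succ_mul_X, PowerSeries.coeff_mk, PowerSeries.coeff_one,
      if_neg (Nat.succ_ne_zero r), pow_succ' c⁻¹ (r + 1), pow_succ' (-1 : ℝ) r]
    have : c * (-1 * (-1) ^ r * (c⁻¹ * c⁻¹ ^ (r + 1))) = -((c * c⁻¹) * ((-1) ^ r * c⁻¹ ^ (r + 1))) := by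
      ring
    rw [this, mul_inv_cancel₀ hc]
    ring

private theorem bdp_term (b k r : ℕ) (hb : 1 ≤ b) (hk : 1 ≤ k) :
    (((k : ℝ) / b)⁻¹) ^ (r + 1) ≤ (b : ℝ) ^ (r + 1) := by
  refine pow_le_pow_left₀ (by positivity) ?_ _
  rw [inv_div]
  have hk1 : (1 : ℝ) ≤ k := by exact_mod_cast hk
  have hb1 : (0 : ℝ) ≤ b := by positivity
  exact div_le_self hb1 hk1

/-- coefficients of `g_b` -/
theorem bdp_gs (p b l r : ℕ) (hb : 1 ≤ b) (hl : l < p) :
    |PowerSeries.coeff r (gs ℝ p b l)| ≤ 2 * b * p * (b : ℝ) ^ (r + 1) := by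
  have hb0 : (0 : ℝ) < b := by exact_mod_cast hb
  unfold gs
  rw [map_add, map_sum, map_sum]
  have e1 : ∀ k ∈ Icc 1 (b * l), |PowerSeries.coeff r
      (PowerSeries.C ((k : ℝ) / b) - PowerSeries.X)⁻¹| ≤ (b : ℝ) ^ (r + 1) := by
    intro k hk
    have hk1 := (Finset.mem_Icc.1 hk).1
    have hk0 : (0 : ℝ) < k := by exact_mod_cast hk1
    rw [bdp_inv_sub _ (div_pos hk0 hb0).ne', PowerSeries.coeff_mk, abs_of_nonneg (by positivity)]
    exact bdp_term b k r hb hk1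
  have e2 : ∀ k ∈ Icc 1 (b * (2 * p - 1 - l)), |PowerSeries.coeff r
      (PowerSeries.C ((k : ℝ) / b) + PowerSeries.X)⁻¹| ≤ (b : ℝ) ^ (r + 1) := by
    intro k hk
    have hk1 := (Finset.mem_Icc.1 hk).1
    have hk0 : (0 : ℝ) < k := by exact_mod_cast hk1
    rw [bdp_inv_add _ (div_pos hk0 hb0).ne', PowerSeries.coeff_mk, abs_mul, abs_pow, abs_neg,
      abs_one, one_pow, one_mul, abs_of_nonneg (by positivity)]
    exact bdp_term b k r hb hk1
  refine (abs_add_le _ _).trans ?_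
  have f1 := (abs_sum_le_sum_abs (fun k : ℕ => PowerSeries.coeff r
      (PowerSeries.C ((k : ℝ) / b) - PowerSeries.X)⁻¹) (Icc 1 (b * l))).trans
        (sum_le_sum e1)
  have f2 := (abs_sum_le_sum_abs (fun k : ℕ => PowerSeries.coeff r
      (PowerSeries.C ((k : ℝ) / b) + PowerSeries.X)⁻¹) (Icc 1 (b * (2 * p - 1 - l)))).trans
        (sum_le_sum e2)
  rw [sum_const, Nat.card_Icc, nsmul_eq_mul] at f1 f2
  refine (add_le_add f1 f2).trans ?_
  rw [← add_mul]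
  refine mul_le_mul_of_nonneg_right ?_ (by positivity)
  have h1 : (b * l + 1 - 1) + (b * (2 * p - 1 - l) + 1 - 1) ≤ 2 * b * p := by
    have h2 : b * l + b * (2 * p - 1 - l) = b * (2 * p - 1) := by
      rw [← mul_add]
      congr 1
      omega
    have h3 : b * (2 * p - 1) ≤ b * (2 * p) := Nat.mul_le_mul_left _ (Nat.sub_le _ _)
    have h4 : b * (2 * p) = 2 * b * p := by ring
    omega
  exact_mod_cast h1

private theorem bdp_eval_nonneg {f : PowerSeries ℝ} {g : Polynomial ℝ} (h : BDom f g) :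
    0 ≤ g.eval 1 := by
  rw [Polynomial.eval_eq_sum_range]
  exact sum_nonneg fun i _ => by rw [one_pow, mul_one]; exact h.nonneg i

/-- product of a dominated series and a series with bounded coefficients -/
private theorem bdp_mul {f h : PowerSeries ℝ} {g : Polynomial ℝ} (hg : BDom f g) (m : ℕ) (W : ℝ)
    (hW : ∀ i ≤ m, |PowerSeries.coeff i h| ≤ W) :
    |PowerSeries.coeff m (f * h)| ≤ g.eval 1 * W := by
  have hW0 : 0 ≤ W := (abs_nonneg _).trans (hW 0 (Nat.zero_le _))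
  rw [PowerSeries.coeff_mul]
  have h1 : |∑ x ∈ antidiagonal m, PowerSeries.coeff x.1 f * PowerSeries.coeff x.2 h| ≤
      ∑ x ∈ antidiagonal m, g.coeff x.1 * W := by
    refine (abs_sum_le_sum_abs _ _).trans (sum_le_sum fun x hx => ?_)
    rw [abs_mul]
    have h3 := mem_antidiagonal.1 hx
    exact mul_le_mul (hg _) (hW _ (by omega)) (abs_nonneg _) (hg.nonneg _)
  refine h1.trans ?_
  rw [← sum_mul]
  refine mul_le_mul_of_nonneg_right ?_ hW0
  have h2 : ∑ x ∈ antidiagonal m, g.coeff x.1 = ∑ i ∈ range (m + 1), g.coeff i := by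
    rw [Finset.Nat.sum_antidiagonal_eq_sum_range_succ_mk]
  rw [h2, Polynomial.eval_eq_sum_range]
  simp only [one_pow, mul_one]
  rcases le_total (m + 1) (g.natDegree + 1) with h3 | h3
  · exact sum_le_sum_of_subset_of_nonneg (range_mono h3) fun i _ _ => hg.nonneg i
  · refine le_of_eq ?_
    symm
    refine sum_subset (range_mono h3) fun i _ hi => ?_
    rw [mem_range, not_lt] at hi
    exact Polynomial.coeff_eq_zero_of_natDegree_lt (by omega)

private theorem bdp_hs (r m : ℕ) (f : PowerSeries ℝ) {W : ℝ}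
    (h : |PowerSeries.coeff (m + r) f| ≤ W) :
    |PowerSeries.coeff m (hs ℝ r f)| ≤ 2 ^ (m + r) * W := by
  rw [hs, PowerSeries.coeff_mk, abs_mul, abs_of_nonneg (Nat.cast_nonneg _)]
  refine mul_le_mul ?_ h (abs_nonneg _) (by positivity)
  exact_mod_cast Nat.choose_le_two_pow (m + r) r

/-- for fixed `C`, `C p ≤ 2^p` for `p` large -/
private theorem bdp_lin (C : ℝ) : ∃ M1 : ℕ, ∀ p ≥ M1, C * p ≤ 2 ^ p := by
  have h1 : Filter.Tendsto (fun n : ℕ => (n : ℝ) ^ 1 / 2 ^ n) Filter.atTop (nhds 0) :=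
    tendsto_pow_const_div_const_pow_of_one_lt 1 (by norm_num)
  have hC : 0 < |C| + 1 := by positivity
  have h2 := (h1.eventually (gt_mem_nhds (show (0 : ℝ) < 1 / (|C| + 1) by positivity)))
  obtain ⟨M1, hM1⟩ := Filter.eventually_atTop.1 h2
  refine ⟨M1, fun p hp => ?_⟩
  have h3 := hM1 p hp
  rw [pow_one, div_lt_div_iff₀ (by positivity) hC, one_mul] at h3
  have h4 : C ≤ |C| := le_abs_self C
  have h5 : (0 : ℝ) ≤ p := Nat.cast_nonneg _
  nlinarith

theorem dp_bd_g (B H a S T : ℕ) (hB : 1 ≤ B) (hBH : B ≤ H) (ha : 1 ≤ a) :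
    ∃ M0 : ℕ, ∀ M ≥ M0, ∀ β < B, ∀ r ≤ S, ∀ j < (4 * H - 2 * (2 * β + 1)) * ((a + S + 1) * M),
      ∀ l < (a + S + 1) * M, ∀ m < a,
      |PowerSeries.coeff m (dRow ℝ M ((a + S + 1) * M) T 0 l β r j)| ≤
        (1000 * (H : ℝ) * (a + S + 1)) ^ (5 * (4 * H * ((a + S + 1) * M))) := by
  obtain ⟨M1, hM1⟩ := bdp_lin (2 * (2 * B + 1 : ℝ) * (2 * B + 1 : ℝ) ^ (a + S + 1))
  refine ⟨max 1 M1, fun M hM β hβ r hr j hj l hlp m hm => ?_⟩
  have hH : 1 ≤ H := hB.trans hBH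
  have hMpos : 1 ≤ M := (le_max_left _ _).trans hM
  have hMM1 : M1 ≤ M := (le_max_right _ _).trans hM
  set p := (a + S + 1) * M with hp
  set n := 4 * H * p with hn
  set A := 4 * H * (a + S + 1) with hA
  have hp1 : a + S + 1 ≤ p := by rw [hp]; nlinarith
  have hMp : M ≤ p := by rw [hp]; nlinarith
  have hn4 : 4 * p ≤ n := by rw [hn]; nlinarith
  have hA1 : 1 ≤ A := by rw [hA]; nlinarith
  have hnA : 4 * H * p ≤ A * M := by rw [hA, hp]; exact le_of_eq (by ring)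
  have hAR : (1 : ℝ) ≤ A := by exact_mod_cast hA1
  have hj' : j ≤ 4 * H * p := by
    have h2 : (4 * H - 2 * (2 * β + 1)) * p ≤ 4 * H * p :=
      Nat.mul_le_mul_right p (Nat.sub_le _ _)
    omega
  obtain ⟨g1, hg1, hb1⟩ := VBD_dom_An A M H p hA1 hH (by omega) (by omega) hnA l hlp β (by omega)
  obtain ⟨g2, hg2, hb2⟩ := VBD_dom_Cn A M H p hA1 hH (by omega) (by omega) hnA l hlp j hj'
  rw [← hn] at hb1 hb2
  have h4 := (BDom.lin (2 * (p : ℝ) - 1 - 2 * (l : ℝ))).pow (r % 2)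
  set g4 := (Polynomial.C |2 * (p : ℝ) - 1 - 2 * (l : ℝ)| +
    Polynomial.C (2 : ℝ) * Polynomial.X) ^ (r % 2) with hg4
  have hg1' := bdp_eval_nonneg hg1
  have hg2' := bdp_eval_nonneg hg2
  have hg4' := bdp_eval_nonneg h4
  have hpR : (1 : ℝ) ≤ p := by exact_mod_cast (by omega : 1 ≤ p)
  have hlR : (l : ℝ) + 1 ≤ p := by exact_mod_cast hlp
  have hl0 : (0 : ℝ) ≤ l := Nat.cast_nonneg _
  -- the factor `w`
  have hb4 : g4.eval 1 ≤ 2 ^ n := by
    rw [hg4]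
    simp only [Polynomial.eval_pow, Polynomial.eval_add, Polynomial.eval_C, Polynomial.eval_mul,
      Polynomial.eval_X, mul_one]
    rw [abs_of_nonneg (by linarith)]
    have h5 : (2 * (p : ℝ) - 1 - 2 * (l : ℝ) + 2) ≤ 2 ^ n := by
      have h6 : (2 * (p : ℝ) - 1 - 2 * (l : ℝ) + 2) ≤ n := by
        have : (4 * (p : ℝ)) ≤ n := by exact_mod_cast hn4
        linarith
      have h7 : (n : ℝ) ≤ 2 ^ n := by exact_mod_cast (Nat.lt_two_pow_self (n := n)).le
      exact h6.trans h7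
    have h8 : 1 ≤ 2 * (p : ℝ) - 1 - 2 * (l : ℝ) + 2 := by linarith
    calc (2 * (p : ℝ) - 1 - 2 * (l : ℝ) + 2) ^ (r % 2)
        ≤ (2 * (p : ℝ) - 1 - 2 * (l : ℝ) + 2) ^ 1 := pow_le_pow_right₀ h8 (by omega)
      _ ≤ 2 ^ n := by rw [pow_one]; exact h5
  -- the series `g_b`
  set W : ℝ := 2 * (2 * B + 1 : ℝ) * (2 * B + 1 : ℝ) ^ (a + S + 1) * p with hW
  have hW0 : 0 ≤ W := by positivity
  have hW2 : W ≤ 2 ^ n := by
    have h5 := hM1 p (hMM1.trans hMp)
    refine h5.trans (pow_le_pow_right₀ (by norm_num) (by omega))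
  have hbB : ((2 * β + 1 : ℕ) : ℝ) ≤ 2 * B + 1 := by
    push_cast
    have : (β : ℝ) ≤ B := by exact_mod_cast hβ.le
    linarith
  have hb0 : (0 : ℝ) ≤ ((2 * β + 1 : ℕ) : ℝ) := Nat.cast_nonneg _
  have hgs : ∀ i ≤ m + r, |PowerSeries.coeff i (Gs ℝ p (2 * β + 1) l (oddS T) 0)| ≤ W := by
    intro i hi
    have e0 : Gs ℝ p (2 * β + 1) l (oddS T) 0 = - gs ℝ p (2 * β + 1) l := by
      unfold Gs
      rw [sum_eq_zero, zero_sub]
      intro i _
      simp
    rw [e0, map_neg, abs_neg]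
    refine (bdp_gs p (2 * β + 1) l i (by omega) hlp).trans ?_
    have h5 : ((2 * β + 1 : ℕ) : ℝ) ^ (i + 1) ≤ (2 * B + 1 : ℝ) ^ (a + S + 1) := by
      refine (pow_le_pow_left₀ hb0 hbB _).trans (pow_le_pow_right₀ ?_ (by omega))
      have : (0 : ℝ) ≤ B := Nat.cast_nonneg _
      linarith
    calc 2 * ((2 * β + 1 : ℕ) : ℝ) * p * ((2 * β + 1 : ℕ) : ℝ) ^ (i + 1)
        ≤ 2 * (2 * B + 1 : ℝ) * p * (2 * B + 1 : ℝ) ^ (a + S + 1) := by gcongr
      _ = W := by rw [hW]; ring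
  have hexp : Real.exp M * Real.exp M ≤ (8 : ℝ) ^ n := by
    rw [← Real.exp_add]
    have h1 : Real.exp ((M : ℝ) + M) ≤ Real.exp (2 * n) := by
      apply Real.exp_le_exp.2
      have : (M : ℝ) ≤ n := by exact_mod_cast (by omega : M ≤ n)
      linarith
    have h2 : Real.exp (2 * (n : ℝ)) = (Real.exp 1 ^ 2) ^ n := by
      rw [← pow_mul, ← Real.exp_nat_mul]
      congr 1
      push_cast
      ring
    have h3 : Real.exp 1 ^ 2 ≤ 8 := by
      have := Real.exp_one_lt_d9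
      have h4 := Real.exp_pos 1
      nlinarith
    rw [h2] at h1
    exact h1.trans (pow_le_pow_left₀ (by positivity) h3 n)
  have hev : ev ℝ p l (fB ℝ M p β j) =
      ev ℝ p l (An ℝ M p (2 * β + 1)) * ev ℝ p l (Cn ℝ M j) := by
    simp only [fB, ev, map_mul]
  have hcoef : |PowerSeries.coeff (m + r) (hl ℝ p l ^ (r % 2) * ev ℝ p l (fB ℝ M p β j) *
      Gs ℝ p (2 * β + 1) l (oddS T) 0)| ≤
      2 ^ n * ((16 * (A : ℝ) ^ 2) ^ n * Real.exp M * ((10 * (A : ℝ) ^ 2) ^ n * Real.exp M)) *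
        2 ^ n := by
    rw [hev]
    refine (bdp_mul (h4.mul (hg1.mul hg2)) (m + r) W hgs).trans ?_
    rw [Polynomial.eval_mul, Polynomial.eval_mul]
    refine mul_le_mul ?_ hW2 hW0 (by positivity)
    refine mul_le_mul hb4 ?_ (mul_nonneg hg1' hg2') (by positivity)
    exact mul_le_mul hb1 hb2 hg2' (by positivity)
  have hfin := bdp_hs r m _ hcoef
  refine (le_of_eq ?_).trans (hfin.trans ?_)
  · rfl
  have h2mr : (2 : ℝ) ^ (m + r) ≤ 2 ^ n := pow_le_pow_right₀ (by norm_num) (by omega)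
  have hAx : (A : ℝ) = 4 * ((H : ℝ) * (a + S + 1)) := by rw [hA]; push_cast; ring
  have hHR : (1 : ℝ) ≤ H := by exact_mod_cast hH
  have haR : (1 : ℝ) ≤ a := by exact_mod_cast ha
  have hSR : (0 : ℝ) ≤ S := Nat.cast_nonneg _
  set x : ℝ := (H : ℝ) * (a + S + 1) with hx
  have hx1 : 1 ≤ x := by rw [hx]; nlinarith
  calc 2 ^ (m + r) * (2 ^ n * ((16 * (A : ℝ) ^ 2) ^ n * Real.exp M *
        ((10 * (A : ℝ) ^ 2) ^ n * Real.exp M)) * 2 ^ n)
      = 2 ^ (m + r) * (2 ^ n * ((16 * (A : ℝ) ^ 2) ^ n * (10 * (A : ℝ) ^ 2) ^ n *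
          (Real.exp M * Real.exp M)) * 2 ^ n) := by ring
    _ ≤ 2 ^ n * (2 ^ n * ((16 * (A : ℝ) ^ 2) ^ n * (10 * (A : ℝ) ^ 2) ^ n * 8 ^ n) * 2 ^ n) := by
        gcongr
    _ = (2 * 2 * (16 * (A : ℝ) ^ 2) * (10 * (A : ℝ) ^ 2) * 8 * 2) ^ n := by
        simp only [mul_pow]; ring
    _ ≤ ((1000 * (H : ℝ) * (a + S + 1)) ^ 5) ^ n := by
        apply pow_le_pow_left₀ (by positivity)
        have e1 : (1000 * (H : ℝ) * (a + S + 1)) ^ 5 = 1000000000000000 * x * x ^ 4 := by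
          rw [hx]; ring
        have e2 : 2 * 2 * (16 * (A : ℝ) ^ 2) * (10 * (A : ℝ) ^ 2) * 8 * 2 = 2621440 * x ^ 4 := by
          rw [hAx]; ring
        rw [e1, e2]
        apply mul_le_mul_of_nonneg_right _ (by positivity)
        linarith
    _ = _ := by rw [← pow_mul]

end Pool.Agent.DP
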