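import Pool.Agent.DP.ONEP

/-!
# DP: `M → ∞`

Logarithm of `dp_one` (`ONEP`) divided by `((a+S+1) M)^2`: pattern `DM/COR`; the absolute constant
does not depend on `P`, `W`.
-/

namespace Pool.Agent.DP

open Finset Pool.Agent.ZC Pool.Agent.SI Module

private theorem CORP_tri (K : ℕ) : ((K * (K - 1) / 2 : ℕ) : ℝ) = ((K : ℝ) ^ 2 - K) / 2 := by
  rw [← Nat.choose_two_right, Nat.cast_choose_two]
  ring

/-- logarithm of the determinant inequality -/
private theorem CORP_log (D0 A H K F M W W2 e : ℕ) (Λ Q : ℝ) (hD : 1 ≤ D0) (hA : 1 ≤ A)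
    (hM : 1 ≤ M) (hΛ : 1 ≤ Λ) (hQ : 1 ≤ Q) (hF : F = W2 * M) (hW2 : 1 ≤ W2)
    (hin : 1 ≤ (((D0 * Nat.lcmUpto M ^ A : ℕ) : ℝ) * (Λ * Q ^
        (e * (4 * H * (A * M))))) ^ (W * M) *
        (((F.factorial : ℕ) : ℝ) * Λ ^ F) * (4 / 5 : ℝ) ^ ((K * M) * (K * M - 1) / 2)) :
    ((K : ℝ) ^ 2 / 2 * (-Real.log (4 / 5)) - W * (A * Real.log 256 +
        4 * e * H * A * Real.log Q)) * (M : ℝ) ^ 2 ≤
      (W * (Real.log D0 + Real.log Λ) + W2 * Real.log W2 + W2 * Real.log Λ +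
        K / 2 * (-Real.log (4 / 5))) * M + W2 * (M * Real.log M) := by
  have hD' : (1 : ℝ) ≤ D0 := by exact_mod_cast hD
  have hA' : (1 : ℝ) ≤ A := by exact_mod_cast hA
  have hM' : (1 : ℝ) ≤ M := by exact_mod_cast hM
  have hW2' : (1 : ℝ) ≤ W2 := by exact_mod_cast hW2
  have hl0 : 0 < Nat.lcmUpto M := Nat.lcmUpto_pos _
  have hl1 : (1 : ℝ) ≤ (Nat.lcmUpto M : ℝ) := by exact_mod_cast hl0
  have hl2 : (0 : ℝ) < (Nat.lcmUpto M : ℝ) := by linarith
  have hDp : (0 : ℝ) < D0 := by linarith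
  have hΛ0 : 0 < Λ := by linarith
  have hQ0 : 0 < Q := by linarith
  have hF1 : 1 ≤ F := by rw [hF]; exact Nat.mul_pos (by omega) (by omega)
  have hF' : (1 : ℝ) ≤ F := by exact_mod_cast hF1
  have hFf : (0 : ℝ) < ((F.factorial : ℕ) : ℝ) := by exact_mod_cast F.factorial_pos
  have h0 := Real.log_le_log one_pos hin
  have e1 : Real.log ((D0 * Nat.lcmUpto M ^ A : ℕ) : ℝ) =
      Real.log D0 + A * Real.log (Nat.lcmUpto M : ℝ) := by
    push_cast
    rw [Real.log_mul hDp.ne' (pow_pos hl2 _).ne', Real.log_pow]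
  have hDD : (0 : ℝ) < ((D0 * Nat.lcmUpto M ^ A : ℕ) : ℝ) := by
    push_cast
    exact mul_pos hDp (pow_pos hl2 _)
  have e2 : Real.log ((((D0 * Nat.lcmUpto M ^ A : ℕ) : ℝ) * (Λ * Q ^
        (e * (4 * H * (A * M))))) ^ (W * M)) = ((W * M : ℕ) : ℝ) * (Real.log D0 +
        A * Real.log (Nat.lcmUpto M : ℝ) + (Real.log Λ +
          ((e * (4 * H * (A * M)) : ℕ) : ℝ) * Real.log Q)) := by
    rw [Real.log_pow, Real.log_mul hDD.ne' (by positivity),
      Real.log_mul (by positivity) (by positivity), Real.log_pow, e1]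
  have e3 : Real.log (((F.factorial : ℕ) : ℝ) * Λ ^ F) =
      Real.log ((F.factorial : ℕ) : ℝ) + F * Real.log Λ := by
    rw [Real.log_mul hFf.ne' (by positivity), Real.log_pow]
  have hp1 : (0 : ℝ) < (((D0 * Nat.lcmUpto M ^ A : ℕ) : ℝ) * (Λ * Q ^
        (e * (4 * H * (A * M))))) ^ (W * M) :=
    pow_pos (mul_pos hDD (by positivity)) _
  have hp2 : (0 : ℝ) < ((F.factorial : ℕ) : ℝ) * Λ ^ F := mul_pos hFf (by positivity)
  rw [Real.log_one, Real.log_mul (mul_pos hp1 hp2).ne' (by positivity),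
    Real.log_mul hp1.ne' hp2.ne', e2, e3, Real.log_pow, CORP_tri] at h0
  have hFr : (F : ℝ) = W2 * M := by rw [hF]; push_cast; ring
  have hfac : Real.log ((F.factorial : ℕ) : ℝ) ≤ W2 * M * (Real.log W2 + Real.log M) := by
    have h1 : (F.factorial : ℝ) ≤ (F : ℝ) ^ F := by exact_mod_cast Nat.factorial_le_pow F
    have h2 := Real.log_le_log hFf h1
    rw [Real.log_pow] at h2
    have hW2p : (0 : ℝ) < W2 := by linarith
    have hMp : (0 : ℝ) < M := by linarith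
    rw [← Real.log_mul hW2p.ne' hMp.ne', ← hFr]
    exact h2
  have hdl : Real.log (Nat.lcmUpto M : ℝ) ≤ M * Real.log 256 := by
    have h1 := Real.log_le_log hl2 (lcmUpto_le M)
    rw [Real.log_pow] at h1
    exact h1
  have h1 : (W : ℝ) * M * (A * Real.log (Nat.lcmUpto M : ℝ)) ≤
      (W : ℝ) * M * (A * (M * Real.log 256)) := by
    refine mul_le_mul_of_nonneg_left ?_ (by positivity)
    exact mul_le_mul_of_nonneg_left hdl (by positivity)
  rw [hFr] at h0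
  push_cast at h0
  linarith

private theorem CORP_num {H A : ℝ} (hH : 1 ≤ H) (hHA : H ≤ A) :
    Real.log (1000 * H * A) ≤ 7 + 2 * Real.log A := by
  have hA : 0 < A := by linarith
  have hH0 : 0 < H := by linarith
  have h1 : 1000 * H * A ≤ 1000 * A ^ 2 := by nlinarith
  have h2 := Real.log_le_log (mul_pos (by linarith) hA) h1
  rw [Real.log_mul (x := 1000) (by norm_num) (pow_pos hA 2).ne', Real.log_pow] at h2
  have h3 : Real.log 1000 ≤ 7 := by
    rw [Real.log_le_iff_le_exp (by norm_num)]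
    have h4 : Real.exp 7 = Real.exp 1 ^ 7 := by
      rw [← Real.exp_nat_mul]; norm_num
    rw [h4]
    have h5 := Real.exp_one_gt_d9
    have h6 : (2.7182818283 : ℝ) ^ 7 ≤ Real.exp 1 ^ 7 := pow_le_pow_left₀ (by norm_num) h5.le 7
    refine le_trans ?_ h6
    norm_num
  push_cast at h2
  linarith

private theorem CORP_final {f0 H A X θ l256 lT la : ℝ} (hH : 1 ≤ H) (hA0 : 0 < A) (hX : 0 ≤ X)
    (hla : 0 ≤ la) (hθ : 1 / 5 ≤ θ) (hl : l256 ≤ 6) (hlT : lT ≤ 7 + 2 * la)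
    (h : (A * f0) ^ 2 / 2 * θ - (4 * H * X * A) * (A * l256 + 20 * H * A * lT) ≤ 0) :
    f0 ^ 2 ≤ 6000 * X * H ^ 2 * (1 + la) := by
  have h1 : (A * f0) ^ 2 / 2 * (1 / 5) ≤ (A * f0) ^ 2 / 2 * θ :=
    mul_le_mul_of_nonneg_left hθ (by positivity)
  have h2 : A ^ 2 * (f0 ^ 2 / 10) ≤ A ^ 2 * (4 * H * X * (l256 + 20 * H * lT)) := by
    have e1 : A ^ 2 * (f0 ^ 2 / 10) = (A * f0) ^ 2 / 2 * (1 / 5) := by ring
    have e2 : A ^ 2 * (4 * H * X * (l256 + 20 * H * lT)) =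
      (4 * H * X * A) * (A * l256 + 20 * H * A * lT) := by ring
    rw [e1, e2]
    linarith
  have h3 := le_of_mul_le_mul_left h2 (by positivity)
  have h4 : l256 + 20 * H * lT ≤ 146 * H * (1 + la) := by
    have e1 : 20 * H * lT ≤ 20 * H * (7 + 2 * la) := mul_le_mul_of_nonneg_left hlT (by positivity)
    have e2 : 0 ≤ H * la := by positivity
    nlinarith
  have h5 : 4 * H * X * (l256 + 20 * H * lT) ≤ 4 * H * X * (146 * H * (1 + la)) :=
    mul_le_mul_of_nonneg_left h4 (by positivity)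
  have h6 : 0 ≤ X * H ^ 2 * (1 + la) := by positivity
  nlinarith

theorem dp_core : ∃ C : ℝ, 0 < C ∧ ∀ (B H a S s0 f0 : ℕ) (P W : Submodule ℚ ℝ)
    [Module.Finite ℚ P] [Module.Finite ℚ W], 1 ≤ B → B ≤ H → P ≤ W → P ≠ ⊥ →
    4 * B ^ 2 * Module.finrank ℚ P * (S + 1) + 2 * Module.finrank ℚ W * a + 8 * H ≤
      8 * H * B * Module.finrank ℚ P * (S + 1 - s0) + a →
    8 * H * Module.finrank ℚ P + 16 * H + 1 ≤ a → 2 * f0 ≤ a →
    (∀ n ∈ oddS (a + S), s0 < n → ∀ v ∈ P, zr n * v ∈ W) →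
    (f0 : ℝ) ^ 2 ≤ C * ((B : ℝ) * Module.finrank ℚ P * (S + 1) + 1) * (H : ℝ) ^ 2 *
      (1 + Real.log (a + S + 1)) := by
  refine ⟨6000, by norm_num, ?_⟩
  intro B H a S s0 f0 P W _ _ hB hBH hPW hPb hI1 hI2 hf0 hmul
  have hP : 1 ≤ finrank ℚ P := by
    rw [Nat.one_le_iff_ne_zero, Ne, Submodule.finrank_eq_zero]
    exact hPb
  obtain ⟨D0, hD0, Λ, hΛ, M0, hM0⟩ := dp_one P W hPW B H a S s0 f0 hB hBH hP hI1 hI2 hf0 hmul
  have hH1 : 1 ≤ H := hB.trans hBH
  have ha1 : 1 ≤ a := by omega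
  have hH' : (1 : ℝ) ≤ H := by exact_mod_cast hH1
  have hHa : (H : ℝ) ≤ a := by exact_mod_cast (by omega : H ≤ a)
  have hS0 : (0 : ℝ) ≤ S := by positivity
  have hB0 : (0 : ℝ) ≤ B := by positivity
  have hQ : 1 ≤ 1000 * (H : ℝ) * ((a : ℝ) + S + 1) := by nlinarith
  generalize finrank ℚ P = x at *
  generalize finrank ℚ W = y at *
  have hX := limit_arg _ _ _ (max M0 1) (fun M hM => by
    have hM1 : 1 ≤ M := (le_max_right _ _).trans hM
    have h1 := hM0 M ((le_max_left _ _).trans hM)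
    refine CORP_log D0 (a + S + 1) H ((a + S + 1) * f0)
      ((y + x * (a + S + 1)) * (((a + S + 1) * M) * a)) M
      (4 * H * (x * (B * (S + 1)) + 1) * (a + S + 1)) ((y + x * (a + S + 1)) * ((a + S + 1) * a)) 5
      Λ (1000 * (H : ℝ) * ((a : ℝ) + S + 1)) hD0 (by omega) hM1 hΛ hQ
      (by ring) ?_ ?_
    · refine Nat.mul_pos ?_ (Nat.mul_pos (by omega) (by omega))
      have h2 : 0 < x * (a + S + 1) := Nat.mul_pos (by omega) (by omega)
      omega
    · have e1 : (a + S + 1) * f0 * M = ((a + S + 1) * M) * f0 := by ring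
      have e2 : 4 * H * (x * (B * (S + 1)) + 1) * (a + S + 1) * M =
        4 * H * (x * (B * (S + 1)) + 1) * ((a + S + 1) * M) := by ring
      rw [e1, e2]
      push_cast at h1 ⊢
      exact h1)
  have hfin := CORP_final (θ := -Real.log (4 / 5)) (l256 := Real.log 256) (f0 := f0) (H := H)
    (X := (B : ℝ) * x * (S + 1) + 1)
    (lT := Real.log (1000 * (H : ℝ) * ((a : ℝ) + S + 1))) (A := (a : ℝ) + S + 1)
    (la := Real.log ((a : ℝ) + S + 1))
    hH' (by positivity) (by positivity) (Real.log_nonneg (by linarith)) ?_ ?_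
    (CORP_num hH' (by linarith)) ?_
  · exact hfin
  · have := Real.log_le_sub_one_of_pos (show (0 : ℝ) < 4 / 5 by norm_num)
    linarith
  · have e1 : Real.log 256 = 8 * Real.log 2 := by
      rw [show (256 : ℝ) = 2 ^ 8 by norm_num, Real.log_pow]; norm_num
    rw [e1]
    have := Real.log_two_lt_d9
    linarith
  · push_cast at hX
    have e3 : ((a : ℝ) + S + 1) * f0 = ((a : ℝ) + S + 1) * f0 := rfl
    refine le_trans (le_of_eq ?_) hX
    ring

end Pool.Agent.DP
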