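import Pool.Agent.DM.CZ

/-!
# DP: the Casorati estimate with several inhomogeneous columns, with conditions
-/

namespace Pool.Agent.DP

open Polynomial Pool.Agent.ZC Pool.Agent.SI Pool.Agent.DM

variable {K : Type*} [Field K]

theorem wMat_row {g k : ℕ} (u : Fin k → K[X]) (η : Fin g → Fin k → ℕ → PowerSeries K)
    (a L : ℕ) (hrel : ∀ e, ∀ l ≤ L, (PowerSeries.X : PowerSeries K) ^ a ∣
      ∑ z, loc K l (u z) * η e z l)
    (den : K[X]) (num : Fin g → Fin k → K[X])
    (hshift : ∀ e, ∀ l < L, ∀ z, loc K (l + 1) den * (η e z l - η e z (l + 1)) =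
      loc K (l + 1) (num e z))
    (l : ℕ) (hl : g + k ≤ l) (hlL : l ≤ L) (i : Fin g ⊕ Fin k) (e : Fin g) :
    (PowerSeries.X : PowerSeries K) ^ a ∣ loc K l (wMat den u num i (Sum.inl e)) +
      ∑ z : Fin k, loc K l (wMat den u num i (Sum.inr z)) *
        (loc K l (denK den (g + k)) * η e z l) := by
  set s : ℕ := ((finSumFinEquiv i : Fin (g + k)) : ℕ) with hs
  have hsN : s < g + k := (finSumFinEquiv i : Fin (g + k)).2
  -- the shift of `η`
  have hη : ∀ z, ∀ s : ℕ, s < g + k → loc K l (denK den (g + k)) * η e z (l - s) =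
      loc K l (denK den (g + k)) * η e z l +
        ∑ r ∈ Finset.range s, loc K l (numK den (num e z) (g + k) r) := by
    intro z s
    induction s with
    | zero => intro _; simp
    | succ s ih =>
      intro hsk
      rw [Finset.sum_range_succ, ← add_assoc, ← ih (by omega)]
      have h2 := hshift e (l - (s + 1)) (by omega) z
      have h3 : l - (s + 1) + 1 = l - s := by omega
      rw [h3] at h2
      have h4 : loc K l (denK den (g + k)) = loc K (l - s) den *
          loc K l (∏ r' ∈ (Finset.range (g + k)).erase s, den.comp (X + C (r' : K))) := by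
        rw [← loc_shift l s (by omega), ← map_mul]
        unfold denK
        rw [Finset.mul_prod_erase (Finset.range (g + k)) (fun r' => den.comp (X + C (r' : K)))
          (Finset.mem_range.2 (by omega))]
      have h5 : loc K l (numK den (num e z) (g + k) s) =
          loc K l (∏ r' ∈ (Finset.range (g + k)).erase s, den.comp (X + C (r' : K))) *
            loc K (l - s) (num e z) := by
        unfold numK
        rw [map_mul, loc_shift l s (by omega)]
      rw [h5, ← h2, h4]
      ring
  have h6 : loc K l (wMat den u num i (Sum.inl e)) +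
      ∑ z : Fin k, loc K l (wMat den u num i (Sum.inr z)) *
        (loc K l (denK den (g + k)) * η e z l) =
      loc K l (denK den (g + k)) * ∑ z, loc K (l - s) (u z) * η e z (l - s) := by
    simp only [wMat, Matrix.of_apply, Sum.elim_inl, Sum.elim_inr, bcol, map_sum, map_mul]
    rw [← hs, ← Finset.sum_add_distrib, Finset.mul_sum]
    refine Finset.sum_congr rfl fun z _ => ?_
    have h8 := hη z s hsN
    rw [loc_shift l s (by omega)]
    linear_combination (-(loc K (l - s) (u z))) * h8
  rw [h6]
  exact Dvd.dvd.mul_left (hrel e _ (by omega)) _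

/-- the conditions at a pole, together with the relations -/
noncomputable def polemapP {g k : ℕ} (a l : ℕ) (w : Fin g → Fin k → PowerSeries K) {Q : Type*}
    [AddCommGroup Q] [Module K Q] (T : (Fin k → K[X]) →ₗ[K] Q) :
    (Fin g ⊕ Fin k → K[X]) →ₗ[K] (Fin g → Fin a → K) × Q where
  toFun r := (fun e m => PowerSeries.coeff (m : ℕ) (loc K l (r (Sum.inl e)) +
      ∑ z : Fin k, loc K l (r (Sum.inr z)) * w e z),
    T (fun z => r (Sum.inr z)))
  map_add' r r' := by
    refine Prod.ext ?_ ?_
    · funext e m
      simp only [Pi.add_apply, map_add, add_mul, Finset.sum_add_distrib, Prod.fst_add]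
      ring
    · rw [Prod.snd_add, ← map_add]
      rfl
  map_smul' c r := by
    have hc : ∀ f : K[X], loc K l (c • f) = PowerSeries.C c * loc K l f := by
      intro f
      rw [smul_eq_C_mul, map_mul, loc_apply, C_comp, Polynomial.coe_C]
    refine Prod.ext ?_ ?_
    · funext e m
      simp only [Pi.smul_apply, hc, mul_assoc, ← Finset.mul_sum, ← mul_add,
        PowerSeries.coeff_C_mul, Prod.smul_fst, smul_eq_mul, RingHom.id_apply]
    · rw [Prod.smul_snd, RingHom.id_apply, ← map_smul]
      rfl

theorem polemapP_fst {g k : ℕ} (a l : ℕ) (w : Fin g → Fin k → PowerSeries K) {Q : Type*}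
    [AddCommGroup Q] [Module K Q] (T : (Fin k → K[X]) →ₗ[K] Q) (r : Fin g ⊕ Fin k → K[X]) :
    (polemapP a l w T r).1 = 0 ↔ ∀ e, (PowerSeries.X : PowerSeries K) ^ a ∣
      loc K l (r (Sum.inl e)) + ∑ z : Fin k, loc K l (r (Sum.inr z)) * w e z := by
  constructor
  · intro h e
    rw [PowerSeries.X_pow_dvd_iff]
    intro m hm
    exact congrFun (congrFun h e) ⟨m, hm⟩
  · intro h
    funext e m
    exact PowerSeries.X_pow_dvd_iff.1 (h e) m m.2

theorem polemapP_rank {g k : ℕ} (a l : ℕ) (w : Fin g → Fin k → PowerSeries K) {Q : Type*}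
    [AddCommGroup Q] [Module K Q] [FiniteDimensional K Q] (T : (Fin k → K[X]) →ₗ[K] Q) :
    g * a + Module.finrank K (LinearMap.range T) ≤
      Module.finrank K (LinearMap.range (polemapP a l w T)) := by
  set V := LinearMap.range (polemapP a l w T) with hV
  set φ : V →ₗ[K] Q := (LinearMap.snd K (Fin g → Fin a → K) Q) ∘ₗ V.subtype with hφ
  have h1 := LinearMap.finrank_range_add_finrank_ker φ
  have h2 : Module.finrank K (LinearMap.range T) ≤ Module.finrank K (LinearMap.range φ) := by
    apply Submodule.finrank_mono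
    rintro _ ⟨r, rfl⟩
    exact ⟨⟨polemapP a l w T (Sum.elim 0 r), ⟨_, rfl⟩⟩, rfl⟩
  have h3 : g * a ≤ Module.finrank K (LinearMap.ker φ) := by
    have hinj : ∃ e : (Fin g → Fin a → K) →ₗ[K] LinearMap.ker φ, Function.Injective e := by
      have hmem : ∀ c : Fin g → Fin a → K, ((c, 0) : (Fin g → Fin a → K) × Q) ∈ V := by
        intro c
        refine ⟨Sum.elim (fun e => (∑ m : Fin a, C (c e m) * X ^ (m : ℕ)).comp (X + C (l : K)))
          (fun _ => 0), ?_⟩
        refine Prod.ext ?_ ?_
        · funext e m
          simp only [polemapP, LinearMap.coe_mk, AddHom.coe_mk, Sum.elim_inl, Sum.elim_inr, map_zero,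
            zero_mul, Finset.sum_const_zero, add_zero]
          rw [loc_apply, comp_assoc]
          have : (X + C (l : K)).comp (X - C (l : K)) = X := by simp
          rw [this, comp_X, Polynomial.coeff_coe, finsetSum_coeff]
          simp only [coeff_C_mul, coeff_X_pow]
          rw [Finset.sum_eq_single m]
          · simp
          · intro j _ hj
            rw [if_neg, mul_zero]
            intro h0
            exact hj (Fin.ext h0.symm)
          · intro h0
            exact absurd (Finset.mem_univ _) h0
        · simp only [polemapP, LinearMap.coe_mk, AddHom.coe_mk, Sum.elim_inr]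
          exact map_zero T
      refine ⟨LinearMap.codRestrict _ (LinearMap.codRestrict V
        (LinearMap.inl K (Fin g → Fin a → K) Q) (fun c => hmem c)) (fun c => ?_), ?_⟩
      · rw [LinearMap.mem_ker]
        rfl
      · intro c c' h
        have h1 := congrArg (fun x : LinearMap.ker φ =>
          ((x : V) : (Fin g → Fin a → K) × Q).1) h
        exact h1
    obtain ⟨e, he⟩ := hinj
    have := LinearMap.finrank_le_finrank_of_injective he
    rw [Module.finrank_pi_fintype] at this
    simpa using this
  omega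

/-- **Casorati estimate** -/
theorem czp [CharZero K] {g k : ℕ} (u : Fin k → K[X]) (hu : LinearIndependent K u) (D : ℕ)
    (hD : ∀ z, (u z).natDegree ≤ D) (η : Fin g → Fin k → ℕ → PowerSeries K)
    (a L : ℕ) (hrel : ∀ e, ∀ l ≤ L, (PowerSeries.X : PowerSeries K) ^ a ∣
      ∑ z, loc K l (u z) * η e z l)
    (den : K[X]) (hden : den ≠ 0) (num : Fin g → Fin k → K[X])
    (hnum : ∀ e z, (num e z).natDegree ≤ den.natDegree)
    (hshift : ∀ e, ∀ l < L, ∀ z, loc K (l + 1) den * (η e z l - η e z (l + 1)) =
      loc K (l + 1) (num e z))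
    (hns : ∀ c : Fin g → K, c ≠ 0 → ∀ α : Fin k → FractionRing K[X], ¬ ∀ z,
      ∑ e, emb K (C (c e)) * (emb K (num e z) / emb K den) = α z - shf K (α z))
    {Q : Type*} [AddCommGroup Q] [Module K Q] [FiniteDimensional K Q]
    (T : K → (Fin k → K[X]) →ₗ[K] Q)
    (hT1 : ∀ x r, T x r = 0 → T x ((X - C x) • r) = 0)
    (hT2 : ∀ x, ∃ m : ℕ, ∀ r, T x ((X - C x) ^ m • r) = 0)
    (S1 : Finset ℕ) (hS1 : ∀ l ∈ S1, g + k ≤ l ∧ l ≤ L) (S2 : Finset K)
    (hS12 : ∀ l ∈ S1, -(l : K) ∉ S2)
    (hT3 : ∀ l ∈ S1, ∀ s < g + k, T (-(l : K)) (fun z => (u z).comp (X + C (s : K))) = 0)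
    (hT4 : ∀ x ∈ S2, ∀ s < g + k, T x (fun z => (u z).comp (X + C (s : K))) = 0) :
    ∑ l ∈ S1, (g * a + Module.finrank K (LinearMap.range (T (-(l : K))))) +
      ∑ x ∈ S2, Module.finrank K (LinearMap.range (T x)) ≤
        g * ((g + k) * den.natDegree + D) + k * D := by
  classical
  have hdet : (wMat den u num).det ≠ 0 := by
    intro h0
    obtain ⟨c, β, hc, hβ⟩ := wMat_det u hu den hden num h0
    exact hns c hc β hβ
  refine le_trans ?_ (natDegree_wMat_le den u num D hD hnum)
  -- the orders
  have ho1 : ∀ l ∈ S1, (X - C (-(l : K))) ^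
      (g * a + Module.finrank K (LinearMap.range (T (-(l : K))))) ∣ (wMat den u num).det := by
    intro l hl
    obtain ⟨m, hm⟩ := hT2 (-(l : K))
    refine (pow_dvd_pow _ (polemapP_rank a l (fun e z => loc K l (denK den (g + k)) * η e z l)
      (T (-(l : K))))).trans ?_
    have hX : ∀ (n : ℕ) (r : Fin g ⊕ Fin k → K[X]) (e : Fin g),
        loc K l (((X - C (-(l : K))) ^ n • r) (Sum.inl e)) +
        ∑ z : Fin k, loc K l (((X - C (-(l : K))) ^ n • r) (Sum.inr z)) *
          (loc K l (denK den (g + k)) * η e z l) =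
        PowerSeries.X ^ n * (loc K l (r (Sum.inl e)) + ∑ z : Fin k, loc K l (r (Sum.inr z)) *
          (loc K l (denK den (g + k)) * η e z l)) := by
      intro n r e
      simp only [Pi.smul_apply, smul_eq_mul, map_mul, map_pow, loc_X_add]
      rw [mul_add, Finset.mul_sum]
      congr 1
      refine Finset.sum_congr rfl fun z _ => ?_
      ring
    refine gl (-(l : K)) _ ?_ (a + m) ?_ _ ?_
    · intro r hr
      have h0 : (polemapP a l (fun e z => loc K l (denK den (g + k)) * η e z l)
        (T (-(l : K))) r).1 = 0 := by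
        rw [hr]; rfl
      have h0' : T (-(l : K)) (fun z => r (Sum.inr z)) = 0 := congrArg Prod.snd hr
      refine Prod.ext ?_ ?_
      · rw [Prod.fst_zero, polemapP_fst]
        rw [polemapP_fst] at h0
        intro e
        have := hX 1 r e
        rw [pow_one] at this
        rw [this]
        exact Dvd.dvd.mul_left (h0 e) _
      · exact hT1 _ _ h0'
    · intro r
      refine Prod.ext ?_ ?_
      · rw [Prod.fst_zero, polemapP_fst]
        intro e
        rw [hX, pow_add, mul_assoc]
        exact Dvd.intro _ rfl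
      · show T (-(l : K)) (fun z => ((X - C (-(l : K))) ^ (a + m) • r) (Sum.inr z)) = 0
        have : (fun z : Fin k => ((X - C (-(l : K))) ^ (a + m) • r) (Sum.inr z)) =
            (X - C (-(l : K))) ^ m • ((X - C (-(l : K))) ^ a • fun z : Fin k => r (Sum.inr z)) := by
          rw [smul_smul, ← pow_add, add_comm m a]
          rfl
        rw [this]
        exact hm _
    · intro i
      refine Prod.ext ?_ ?_
      · rw [Prod.fst_zero, polemapP_fst]
        intro e
        exact wMat_row u η a L hrel den num hshift l (hS1 l hl).1 (hS1 l hl).2 i e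
      · exact hT3 l hl _ (finSumFinEquiv i : Fin (g + k)).2
  have ho2 : ∀ x ∈ S2, (X - C x) ^ (Module.finrank K (LinearMap.range (T x))) ∣
      (wMat den u num).det := by
    intro x hx
    obtain ⟨m, hm⟩ := hT2 x
    set T' : (Fin g ⊕ Fin k → K[X]) →ₗ[K] Q := T x ∘ₗ (LinearMap.funLeft K K[X] Sum.inr) with hT'
    have hr : LinearMap.range T' = LinearMap.range (T x) := by
      rw [hT', LinearMap.range_comp_of_range_eq_top]
      rw [LinearMap.range_eq_top]
      exact LinearMap.funLeft_surjective_of_injective K K[X] _ Sum.inr_injective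
    rw [← hr]
    refine gl x T' ?_ m ?_ _ ?_
    · intro r hr
      exact hT1 x _ hr
    · intro r
      exact hm _
    · intro i
      exact hT4 x hx _ (finSumFinEquiv i : Fin (g + k)).2
  -- the sum
  set e : K → ℕ := fun x => if x ∈ S2 then Module.finrank K (LinearMap.range (T x)) else
    g * a + Module.finrank K (LinearMap.range (T x)) with he
  set S1' : Finset K := S1.image fun l : ℕ => -(l : K) with hS1'
  have hinj : Set.InjOn (fun l : ℕ => -(l : K)) S1 := by
    intro x _ y _ hxy
    simp only [neg_inj] at hxy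
    exact_mod_cast hxy
  have hdisj : Disjoint S1' S2 := by
    rw [Finset.disjoint_left]
    intro x hx
    rw [hS1', Finset.mem_image] at hx
    obtain ⟨l, hl, rfl⟩ := hx
    exact hS12 l hl
  have h5 := sum_le_natDegree hdet (S1' ∪ S2) e (by
    intro x hx
    rw [Finset.mem_union] at hx
    by_cases hx2 : x ∈ S2
    · rw [he]
      simp only [if_pos hx2]
      exact ho2 x hx2
    · rcases hx with hx | hx
      · rw [he]
        simp only [if_neg hx2]
        rw [hS1', Finset.mem_image] at hx
        obtain ⟨l, hl, rfl⟩ := hx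
        exact ho1 l hl
      · exact absurd hx hx2)
  rw [Finset.sum_union hdisj, hS1', Finset.sum_image hinj] at h5
  refine le_trans (le_of_eq ?_) h5
  congr 1
  · refine Finset.sum_congr rfl fun l hl => ?_
    rw [he]
    simp only [if_neg (hS12 l hl)]
  · refine Finset.sum_congr rfl fun x hx => ?_
    rw [he]
    simp only [if_pos hx]

end Pool.Agent.DP
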