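import Pool.Agent.DM.CND

/-!
# DP, zero estimate: ranks of the conditions for smaller sets of functionals
-/

namespace Pool.Agent.DP

open Finset Polynomial Pool.Agent.ZC Pool.Agent.SI Pool.Agent.DM

variable {K : Type*} [Field K]

/-- combinations of the values -/
def gmap {J1 J2 : Type*} [Fintype J2] (a : ℕ) (c : J1 → J2 → K) :
    (J2 → Fin a → K) →ₗ[K] (J1 → Fin a → K) where
  toFun h j m := ∑ i, c j i * h i m
  map_add' h h' := by
    funext j m
    simp only [Pi.add_apply, mul_add, Finset.sum_add_distrib]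
  map_smul' s h := by
    funext j m
    simp only [Pi.smul_apply, smul_eq_mul, RingHom.id_apply, Finset.mul_sum]
    exact Finset.sum_congr rfl fun i _ => by ring

theorem gmap_ker {J1 J2 : Type*} [Fintype J1] [Fintype J2] (a : ℕ) (c : J1 → J2 → K)
    (hc : LinearIndependent K c) :
    Module.finrank K (LinearMap.ker (gmap a c)) + Fintype.card J1 * a = Fintype.card J2 * a := by
  classical
  have hsurj : LinearMap.range (Matrix.of c).mulVecLin = ⊤ := by
    apply Submodule.eq_top_of_finrank_eq
    have h1 : (Matrix.of c).rank = Fintype.card J1 := LinearIndependent.rank_matrix hc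
    rw [Module.finrank_fintype_fun_eq_card, ← h1]
    rfl
  have htop : LinearMap.range (gmap a c) = ⊤ := by
    rw [LinearMap.range_eq_top]
    intro y
    have h2 : ∀ m : Fin a, ∃ x : J2 → K, (Matrix.of c).mulVec x = fun j => y j m := by
      intro m
      have h3 : (fun j => y j m) ∈ LinearMap.range (Matrix.of c).mulVecLin := by
        rw [hsurj]
        exact Submodule.mem_top
      obtain ⟨x, hx⟩ := h3
      exact ⟨x, hx⟩
    choose x hx using h2
    refine ⟨fun i m => x m i, ?_⟩
    funext j m
    exact congrFun (hx m) j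
  have h4 := LinearMap.finrank_range_add_finrank_ker (gmap a c)
  rw [htop, finrank_top] at h4
  simp only [Module.finrank_pi_fintype, Module.finrank_self,
      Finset.sum_const, Finset.card_univ, smul_eq_mul, Fintype.card_fin, mul_one] at h4
  omega

private theorem rnk_key (B S a : ℕ) (A : ℕ → Prop) (cc : Prop) (hcc : ¬ cc) {m : ℕ}
    (w : Fin m → ℕ → ℕ → K) {J : Type*} (θ : J → ℕ → PowerSeries K) : kap B S a θ A cc w =
      Module.finrank K (LinearMap.range ((LinearMap.fst K (Fin B → Fin (S + 1) → K)
        (Empty → Fin a → K)) ∘ₗ (cnd B S a (fun j : Empty => j.elim) A cc (0 : K)) ∘ₗ comb w)) := by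
  classical
  have h1 : (cnd B S a θ A cc (0 : K)) ∘ₗ comb w =
      (LinearMap.inl K (Fin B → Fin (S + 1) → K) (J → Fin a → K)) ∘ₗ
        ((LinearMap.fst K (Fin B → Fin (S + 1) → K) (Empty → Fin a → K)) ∘ₗ
          (cnd B S a (fun j : Empty => j.elim) A cc (0 : K)) ∘ₗ comb w) := by
    refine LinearMap.ext fun f => ?_
    refine Prod.ext rfl ?_
    funext j r
    show (if cc then _ else (0 : K)) = 0
    rw [if_neg hcc]
  unfold kap
  rw [h1, LinearMap.range_comp]
  exact (Submodule.equivMapOfInjective _ LinearMap.inl_injective _).symm.finrank_eq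

/-- without pole the functionals play no role -/
theorem kap_false (B S a : ℕ) {J1 J2 : Type*} (θ1 : J1 → ℕ → PowerSeries K)
    (θ2 : J2 → ℕ → PowerSeries K) (A : ℕ → Prop) (cc : Prop) (hcc : ¬ cc) {m : ℕ}
    (w : Fin m → ℕ → ℕ → K) : kap B S a θ1 A cc w = kap B S a θ2 A cc w := by
  rw [rnk_key B S a A cc hcc w θ1, rnk_key B S a A cc hcc w θ2]

theorem kap_comp (B S a : ℕ) {J1 J2 : Type*} [Fintype J1] [Fintype J2]
    (θ1 : J1 → ℕ → PowerSeries K) (θ2 : J2 → ℕ → PowerSeries K) (c : J1 → J2 → K)
    (hc : ∀ j β, θ1 j β = ∑ i, PowerSeries.C (c j i) * θ2 i β) (hli : LinearIndependent K c)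
    (A : ℕ → Prop) (cc : Prop) {m : ℕ} (w : Fin m → ℕ → ℕ → K) :
    kap B S a θ2 A cc w + Fintype.card J1 * a ≤
      kap B S a θ1 A cc w + Fintype.card J2 * a := by
  classical
  set G : ((Fin B → Fin (S + 1) → K) × (J2 → Fin a → K)) →ₗ[K]
      ((Fin B → Fin (S + 1) → K) × (J1 → Fin a → K)) :=
    LinearMap.prodMap LinearMap.id (gmap a c) with hG
  have h1 : (cnd B S a θ1 A cc (0 : K)) ∘ₗ comb w =
      G ∘ₗ ((cnd B S a θ2 A cc (0 : K)) ∘ₗ comb w) := by
    refine LinearMap.ext fun f => ?_
    refine Prod.ext rfl ?_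
    funext j r
    show (if cc then PowerSeries.coeff (r : ℕ) (opj B S (θ1 j) 0 (comb w f)) else (0 : K)) =
      ∑ i, c j i * (if cc then PowerSeries.coeff (r : ℕ) (opj B S (θ2 i) 0 (comb w f)) else 0)
    by_cases hcc : cc
    · simp only [if_pos hcc]
      have h2 : opj B S (θ1 j) 0 (comb w f) =
          ∑ i, PowerSeries.C (c j i) * opj B S (θ2 i) 0 (comb w f) := by
        have h3 : ∀ (k β : ℕ), hs K k (θ1 j β) = ∑ i, PowerSeries.C (c j i) * hs K k (θ2 i β) := by
          intro k β
          rw [hc]
          ext n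
          simp only [hs, PowerSeries.coeff_mk, map_sum, PowerSeries.coeff_C_mul, Finset.mul_sum]
          exact Finset.sum_congr rfl fun i _ => by ring
        unfold opj
        simp only [h3, Finset.mul_sum]
        rw [Finset.sum_congr rfl fun β _ => Finset.sum_comm, Finset.sum_comm]
        refine Finset.sum_congr rfl fun i _ => Finset.sum_congr rfl fun β _ =>
          Finset.sum_congr rfl fun k _ => ?_
        ring
      rw [h2, map_sum]
      simp only [PowerSeries.coeff_C_mul]
    · simp only [if_neg hcc, mul_zero, Finset.sum_const_zero]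
  have h4 : kap B S a θ1 A cc w = Module.finrank K (Submodule.map G
      (LinearMap.range ((cnd B S a θ2 A cc (0 : K)) ∘ₗ comb w))) := by
    unfold kap
    rw [h1, LinearMap.range_comp]
  have h5 := LinearMap.finrank_range_add_finrank_ker (G.domRestrict
      (LinearMap.range ((cnd B S a θ2 A cc (0 : K)) ∘ₗ comb w)))
  rw [LinearMap.range_domRestrict] at h5
  have h6 : Module.finrank K (LinearMap.ker (G.domRestrict
      (LinearMap.range ((cnd B S a θ2 A cc (0 : K)) ∘ₗ comb w)))) ≤
      Module.finrank K (LinearMap.ker (gmap a c)) := by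
    let φ : LinearMap.ker (G.domRestrict
      (LinearMap.range ((cnd B S a θ2 A cc (0 : K)) ∘ₗ comb w))) →ₗ[K]
        LinearMap.ker (gmap a c) :=
      { toFun := fun x => ⟨x.1.1.2, by
          have hx : G x.1.1 = 0 := x.2
          exact congrArg Prod.snd hx⟩
        map_add' := fun x y => rfl
        map_smul' := fun s x => rfl }
    apply LinearMap.finrank_le_finrank_of_injective (f := φ)
    intro x y hxy
    have hx : G x.1.1 = 0 := x.2
    have hy : G y.1.1 = 0 := y.2
    apply Subtype.ext
    apply Subtype.ext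
    refine Prod.ext ?_ (congrArg Subtype.val hxy)
    have hx' : x.1.1.1 = 0 := congrArg Prod.fst hx
    have hy' : y.1.1.1 = 0 := congrArg Prod.fst hy
    rw [hx', hy']
  have h7 := gmap_ker a c hli
  have h8 : kap B S a θ2 A cc w = Module.finrank K
      (LinearMap.range ((cnd B S a θ2 A cc (0 : K)) ∘ₗ comb w)) := rfl
  omega

end Pool.Agent.DP
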