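import Pool.Agent.DP.ZDP
import Pool.Agent.DP.RNK

/-!
# DP, zero estimate: functionals, support of a family
-/

namespace Pool.Agent.DP

open Finset Polynomial Pool.Agent.ZC Pool.Agent.SI Pool.Agent.DM

variable {K : Type*} [Field K] {W : Type*} [AddCommGroup W] [Module K W] [FiniteDimensional K W]

theorem phi_of_mem (U : Submodule K W) (j : Fin (Module.finrank K (W ⧸ U))) {v : W}
    (hv : v ∈ U) : phi U j v = 0 := by
  unfold phi
  rw [LinearMap.comp_apply, Submodule.mkQ_apply, (Submodule.Quotient.mk_eq_zero U).2 hv, map_zero]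

/-- a vector with prescribed class -/
private theorem fama_lift (U : Submodule K W) (i : Fin (Module.finrank K (W ⧸ U))) :
    ∃ v : W, ∀ j, phi U j v = if i = j then 1 else 0 := by
  obtain ⟨v, hv⟩ := Submodule.mkQ_surjective U (Module.finBasis K (W ⧸ U) i)
  refine ⟨v, fun j => ?_⟩
  unfold phi
  rw [LinearMap.comp_apply, hv, Module.Basis.coord_apply, Module.Basis.repr_self,
    Finsupp.single_apply]

theorem phi_li (U : Submodule K W) : LinearIndependent K (phi U) := by
  rw [Fintype.linearIndependent_iff]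
  intro g hg i
  obtain ⟨v, hv⟩ := fama_lift U i
  have h1 := LinearMap.congr_fun hg v
  rw [LinearMap.sum_apply, LinearMap.zero_apply] at h1
  simp only [LinearMap.smul_apply, hv, smul_eq_mul] at h1
  rw [Finset.sum_eq_single i] at h1
  · simpa using h1
  · intro j _ hj
    rw [if_neg (Ne.symm hj), mul_zero]
  · intro h
    exact absurd (Finset.mem_univ _) h

/-- a functional vanishing on `U` is a combination of the `phi U j` -/
theorem phi_span (U : Submodule K W) (φ : W →ₗ[K] K) (h : ∀ v ∈ U, φ v = 0) :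
    ∃ c : Fin (Module.finrank K (W ⧸ U)) → K, φ = ∑ j, c j • phi U j := by
  have h' : U ≤ LinearMap.ker φ := fun v hv => LinearMap.mem_ker.2 (h v hv)
  refine ⟨fun j => U.liftQ φ h' (Module.finBasis K (W ⧸ U) j), ?_⟩
  ext v
  rw [LinearMap.sum_apply]
  simp only [LinearMap.smul_apply, smul_eq_mul]
  have h1 : φ v = U.liftQ φ h' (U.mkQ v) := by
    rw [Submodule.mkQ_apply, Submodule.liftQ_apply]
  rw [h1]
  conv_lhs => rw [← (Module.finBasis K (W ⧸ U)).sum_repr (U.mkQ v)]
  rw [map_sum]
  refine Finset.sum_congr rfl fun j _ => ?_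
  rw [map_smul, smul_eq_mul, mul_comm]
  rfl

theorem phi_trans {U U' : Submodule K W} (h : U ≤ U') :
    ∃ c : Fin (Module.finrank K (W ⧸ U')) → Fin (Module.finrank K (W ⧸ U)) → K,
      LinearIndependent K c ∧ ∀ j, phi U' j = ∑ i, c j i • phi U i := by
  choose c hc using fun j => phi_span U (phi U' j) fun v hv => phi_of_mem U' j (h hv)
  refine ⟨c, ?_, hc⟩
  rw [Fintype.linearIndependent_iff]
  intro g hg
  refine Fintype.linearIndependent_iff.1 (phi_li U') g ?_
  have h1 : ∑ j, g j • phi U' j = ∑ i, (∑ j, g j • c j) i • phi U i := by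
    simp only [Finset.sum_apply, Pi.smul_apply, smul_eq_mul, Finset.sum_smul]
    rw [Finset.sum_comm]
    refine Finset.sum_congr rfl fun j _ => ?_
    rw [hc j, Finset.smul_sum]
    exact Finset.sum_congr rfl fun i _ => by rw [smul_smul]
  rw [h1, hg]
  simp

omit [FiniteDimensional K W] in
theorem thP_sum (B T : ℕ) (eZ : ℕ → ℕ → W) {J : Type*} [Fintype J] (c : J → K)
    (φ : J → W →ₗ[K] K) (β' : ℕ) :
    thP B T eZ (∑ j, c j • φ j) β' = ∑ j, PowerSeries.C (c j) * thP B T eZ (φ j) β' := by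
  unfold thP zs
  simp only [Finset.mul_sum, LinearMap.sum_apply, LinearMap.smul_apply, smul_eq_mul, map_sum,
    Finset.sum_mul]
  rw [Finset.sum_comm]
  refine Finset.sum_congr rfl fun n _ => Finset.sum_congr rfl fun i _ => ?_
  rw [← mul_assoc (PowerSeries.C (c n)), ← map_mul]
  congr 2
  ring

omit [FiniteDimensional K W] in
theorem PEW_castSucc (B x : ℕ) (eI : ℕ → W) {m : ℕ} (w : Fin (m + 1) → ℕ → ℕ → K) :
    PEW B x eI (fun i : Fin m => w i.castSucc) ≤ PEW B x eI w := by
  unfold PEW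
  refine Submodule.span_mono ?_
  rintro _ ⟨j, β, k, hβ, rfl⟩
  exact ⟨j.castSucc, β, k, hβ, rfl⟩

theorem PEW_pos (B S s0 x : ℕ) (eI : ℕ → W) (hI : LinearIndependent K fun i : Fin x => eI i)
    {m : ℕ} (ε : Fin m → ℕ) (w : Fin m → ℕ → ℕ → K) (hw : Fam (B * x) S s0 ε w) (hm : 1 ≤ m) :
    1 ≤ Module.finrank K (PEW B x eI w) := by
  by_contra hcon
  have h0 : Module.finrank K (PEW B x eI w) = 0 := by omega
  rw [Submodule.finrank_eq_zero] at h0
  obtain ⟨β', k, hne⟩ : ∃ β' k, w ⟨0, hm⟩ β' k ≠ 0 := by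
    by_contra h1
    push Not at h1
    exact hw.1.ne_zero ⟨0, hm⟩ (funext fun β' => funext fun k => h1 β' k)
  have h1 := (hw.2 _ _ _ hne).1
  have hB : 1 ≤ B := by
    rcases Nat.eq_zero_or_pos B with h | h
    · rw [h, Nat.zero_mul] at h1; omega
    · exact h
  have hβ : β' % B < B := Nat.mod_lt _ (by omega)
  have hi : β' / B < x := by
    rw [Nat.div_lt_iff_lt_mul (by omega), mul_comm]
    exact h1
  have h2 : wvW B x eI (w ⟨0, hm⟩) (β' % B) k ∈ PEW B x eI w :=
    Submodule.subset_span ⟨_, _, _, hβ, rfl⟩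
  rw [h0, Submodule.mem_bot] at h2
  unfold wvW at h2
  rw [← Fin.sum_univ_eq_sum_range (fun i => w ⟨0, hm⟩ (β' % B + B * i) k • eI i) x] at h2
  have h3 := Fintype.linearIndependent_iff.1 hI _ h2 ⟨β' / B, hi⟩
  simp only [Nat.mod_add_div] at h3
  exact hne h3

/-- number of active scalar functionals -/
theorem card_act_mul (B x : ℕ) (A : ℕ → Prop) [DecidablePred A] :
    ((range (B * x)).filter fun β' => A (β' % B)).card = x * ((range B).filter A).card := by
  rw [Finset.card_filter, Finset.card_filter]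
  induction x with
  | zero => simp
  | succ x ih =>
    rw [Nat.mul_succ, Finset.sum_range_add, ih, Nat.succ_mul]
    congr 1
    refine Finset.sum_congr rfl fun β hβ => ?_
    rw [Finset.mem_range] at hβ
    rw [add_comm, Nat.add_mul_mod_self_left, Nat.mod_eq_of_lt hβ]

end Pool.Agent.DP
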