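import Pool.Agent.DP.FAMA

/-!
# DP, zero estimate: dropping a vector, minimal family
-/

namespace Pool.Agent.DP

open Finset Polynomial Pool.Agent.ZC Pool.Agent.SI Pool.Agent.DM

variable {K : Type*} [Field K] {W : Type*} [AddCommGroup W] [Module K W] [FiniteDimensional K W]

/-- one position, dropping a vector: outside the pole -/
theorem kapP_drop_false (B S a x : ℕ) (eI : ℕ → W) (eZ : ℕ → ℕ → W) (A : ℕ → Prop) (c : Prop)
    (hc : ¬ c) {m : ℕ} (w : Fin (m + 1) → ℕ → ℕ → K) :
    kapP B S a x eI eZ A c (fun i : Fin m => w i.castSucc) ≤ kapP B S a x eI eZ A c w := by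
  unfold kapP
  rw [kap_false (B * x) S a _ (fun j => thP B (a + S) eZ (phi (PEW B x eI w) j)) _ c hc]
  exact kap_mono _ _ _ _ _ _ w

/-- one position, dropping a vector: at the pole -/
theorem kapP_drop (B S a x : ℕ) (eI : ℕ → W) (eZ : ℕ → ℕ → W) (A : ℕ → Prop) (c : Prop)
    {m : ℕ} (w : Fin (m + 1) → ℕ → ℕ → K) :
    kapP B S a x eI eZ A c (fun i : Fin m => w i.castSucc) +
      Module.finrank K (PEW B x eI fun i : Fin m => w i.castSucc) * a ≤
      kapP B S a x eI eZ A c w + Module.finrank K (PEW B x eI w) * a := by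
  set U := PEW B x eI w with hU
  set U' := PEW B x eI (fun i : Fin m => w i.castSucc) with hU'
  have hUU : U' ≤ U := PEW_castSucc B x eI w
  obtain ⟨cf, hli, hcf⟩ := phi_trans hUU
  have h1 := kap_comp (B * x) S a (fun j => thP B (a + S) eZ (phi U j))
    (fun j => thP B (a + S) eZ (phi U' j)) cf (by
      intro j β
      show thP B (a + S) eZ (phi U j) β = _
      rw [hcf j, thP_sum]) hli (fun β' => A (β' % B)) c (fun i : Fin m => w i.castSucc)
  have h2 := kap_mono (B * x) S a (fun j => thP B (a + S) eZ (phi U j)) (fun β' => A (β' % B)) c w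
  have h3 := Submodule.finrank_quotient_add_finrank U
  have h4 := Submodule.finrank_quotient_add_finrank U'
  rw [Fintype.card_fin, Fintype.card_fin] at h1
  have h5 : Module.finrank K (W ⧸ U) * a + Module.finrank K U * a =
      Module.finrank K (W ⧸ U') * a + Module.finrank K U' * a := by
    rw [← add_mul, ← add_mul, h3, h4]
  have h6 : kapP B S a x eI eZ A c (fun i : Fin m => w i.castSucc) =
      kap (B * x) S a (fun j => thP B (a + S) eZ (phi U' j)) (fun β' => A (β' % B)) c
        (fun i : Fin m => w i.castSucc) := rfl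
  have h7 : kapP B S a x eI eZ A c w =
      kap (B * x) S a (fun j => thP B (a + S) eZ (phi U j)) (fun β' => A (β' % B)) c w := rfl
  rw [h6, h7]
  omega

/-- dropping a vector -/
theorem ksP_drop (B S a x : ℕ) (eI : ℕ → W) (eZ : ℕ → ℕ → W) {m : ℕ}
    (w : Fin (m + 1) → ℕ → ℕ → K) :
    ksP B S a x 1 eI eZ (fun i : Fin m => w i.castSucc) +
      Module.finrank K (PEW B x eI fun i : Fin m => w i.castSucc) * a ≤
      ksP B S a x 1 eI eZ w + Module.finrank K (PEW B x eI w) * a := by
  classical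
  have hmono : Module.finrank K (PEW B x eI fun i : Fin m => w i.castSucc) * a ≤
      Module.finrank K (PEW B x eI w) * a :=
    Nat.mul_le_mul_right _ (Submodule.finrank_mono (PEW_castSucc B x eI w))
  have hs : ∀ {m' : ℕ} (w' : Fin m' → ℕ → ℕ → K), ksP B S a x 1 eI eZ w' =
      ∑ w0 ∈ (posP B 1).filter (fun w0 => isPole 1 w0),
        kapP B S a x eI eZ (fun β => odp β w0) (isPole 1 w0) w' +
      ∑ w0 ∈ (posP B 1).filter (fun w0 => ¬ isPole 1 w0),
        kapP B S a x eI eZ (fun β => odp β w0) (isPole 1 w0) w' := by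
    intro m' w'
    unfold ksP
    rw [sum_filter_add_sum_filter_not]
  rw [hs, hs]
  have h1 : ∑ w0 ∈ (posP B 1).filter (fun w0 => ¬ isPole 1 w0),
        kapP B S a x eI eZ (fun β => odp β w0) (isPole 1 w0) (fun i : Fin m => w i.castSucc) ≤
      ∑ w0 ∈ (posP B 1).filter (fun w0 => ¬ isPole 1 w0),
        kapP B S a x eI eZ (fun β => odp β w0) (isPole 1 w0) w :=
    Finset.sum_le_sum fun w0 hw0 =>
      kapP_drop_false B S a x eI eZ _ _ (mem_filter.1 hw0).2 w
  have h2 : ((posP B 1).filter fun w0 => isPole 1 w0).card ≤ 1 := by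
    have := card_posP_pole B 1
    convert this
  have h3 : ∑ w0 ∈ (posP B 1).filter (fun w0 => isPole 1 w0),
        kapP B S a x eI eZ (fun β => odp β w0) (isPole 1 w0) (fun i : Fin m => w i.castSucc) +
      Module.finrank K (PEW B x eI fun i : Fin m => w i.castSucc) * a ≤
      ∑ w0 ∈ (posP B 1).filter (fun w0 => isPole 1 w0),
        kapP B S a x eI eZ (fun β => odp β w0) (isPole 1 w0) w +
      Module.finrank K (PEW B x eI w) * a := by
    rcases Finset.card_le_one_iff_subset_singleton.1 h2 with ⟨v, hv⟩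
    rcases Finset.subset_singleton_iff.1 hv with h4 | h4
    · rw [h4, sum_empty, sum_empty]
      omega
    · rw [h4, sum_singleton, sum_singleton]
      exact kapP_drop B S a x eI eZ _ _ w
  omega

theorem ksP_le (B S a x : ℕ) (eI : ℕ → W) (eZ : ℕ → ℕ → W) {m : ℕ} (w : Fin m → ℕ → ℕ → K) :
    ksP B S a x 1 eI eZ w + Module.finrank K (PEW B x eI w) * a ≤
      2 * B ^ 2 * x * (S + 1) + Module.finrank K W * a := by
  classical
  have h3 := Submodule.finrank_quotient_add_finrank (PEW B x eI w)
  have h1 : ksP B S a x 1 eI eZ w ≤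
      2 * B ^ 2 * x * (S + 1) + Module.finrank K (W ⧸ PEW B x eI w) * a := by
    unfold ksP
    have h4 : ∀ w0 ∈ posP B 1, kapP B S a x eI eZ (fun β => odp β w0) (isPole 1 w0) w ≤
        x * ((range B).filter fun β => odp β w0).card * (S + 1) +
          (if isPole 1 w0 then Module.finrank K (W ⧸ PEW B x eI w) * a else 0) := by
      intro w0 _
      have h5 := kap_le (B * x) S a
        (fun j => thP B (a + S) eZ (phi (PEW B x eI w) j)) (fun β' => odp (β' % B) w0)
        (isPole 1 w0) w
      rw [Fintype.card_fin] at h5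
      have h6 := card_act_mul B x (fun β => odp β w0)
      refine le_trans h5 ?_
      rw [← h6]
    refine (Finset.sum_le_sum h4).trans ?_
    rw [Finset.sum_add_distrib, ← Finset.sum_mul, ← Finset.mul_sum, ← Finset.sum_filter,
      Finset.sum_const, smul_eq_mul]
    have h7 := sum_card_posP B 1
    have h8 := card_posP_pole B 1
    have h9 : ∑ w0 ∈ posP B 1, ((range B).filter fun β => odp β w0).card ≤ 2 * B ^ 2 := by
      rw [mul_one] at h7
      convert h7
    have h10 : ((posP B 1).filter fun w0 => isPole 1 w0).card ≤ 1 := by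
      convert h8
    refine Nat.add_le_add ?_ ?_
    · calc x * (∑ w0 ∈ posP B 1, ((range B).filter fun β => odp β w0).card) * (S + 1)
          ≤ x * (2 * B ^ 2) * (S + 1) := Nat.mul_le_mul_right _ (Nat.mul_le_mul_left _ h9)
        _ = 2 * B ^ 2 * x * (S + 1) := by ring
    · calc ((posP B 1).filter fun w0 => isPole 1 w0).card *
            (Module.finrank K (W ⧸ PEW B x eI w) * a)
          ≤ 1 * (Module.finrank K (W ⧸ PEW B x eI w) * a) := Nat.mul_le_mul_right _ h10
        _ = _ := one_mul _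
  have h2 : Module.finrank K W * a = Module.finrank K (W ⧸ PEW B x eI w) * a +
      Module.finrank K (PEW B x eI w) * a := by
    rw [← add_mul, h3]
  omega

/-- the minimal family -/
theorem min_famP (B H a S s0 x : ℕ) (hH : 1 ≤ H) (eI : ℕ → W) (eZ : ℕ → ℕ → W)
    (hI : LinearIndependent K fun i : Fin x => eI i) (hx : 1 ≤ x)
    (hI1 : 4 * B ^ 2 * x * (S + 1) + 2 * Module.finrank K W * a + 8 * H ≤
      8 * H * (B * x * (S + 1 - s0)) + a) :
    ∃ (m : ℕ) (ε : Fin m → ℕ) (w : Fin m → ℕ → ℕ → K), 1 ≤ m ∧ Fam (B * x) S s0 ε w ∧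
      2 * ksP B S a x 1 eI eZ w + 2 * (Module.finrank K (PEW B x eI w) * a) + 8 * H ≤
        8 * H * m + a ∧
      ∀ (ζ : ℕ) (ε' : Fin ζ → ℕ) (w' : Fin ζ → ℕ → ℕ → K), 1 ≤ ζ → ζ ≤ m →
        Fam (B * x) S s0 ε' w' →
        8 * H * ζ + a < 2 * ksP B S a x 1 eI eZ w' +
          2 * (Module.finrank K (PEW B x eI w') * a) + 16 * H := by
  classical
  set good : ℕ → Prop := fun m => 1 ≤ m ∧ ∃ (ε : Fin m → ℕ) (w : Fin m → ℕ → ℕ → K),
    Fam (B * x) S s0 ε w ∧
      2 * ksP B S a x 1 eI eZ w + 2 * (Module.finrank K (PEW B x eI w) * a) + 8 * H ≤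
        8 * H * m + a with hgood
  have hdim : 1 ≤ Module.finrank K W := by
    have h1 := hI.fintype_card_le_finrank
    rw [Fintype.card_fin] at h1
    omega
  have hex : ∃ m, good m := by
    obtain ⟨ε, w, hw⟩ := full_fam (K := K) (B * x) S s0
    refine ⟨B * x * (S + 1 - s0), ?_, ε, w, hw, ?_⟩
    · by_contra h0
      have h1 : B * x * (S + 1 - s0) = 0 := by omega
      rw [h1, mul_zero] at hI1
      have h2 : 1 * a ≤ Module.finrank K W * a := Nat.mul_le_mul_right _ hdim
      rw [mul_assoc 2 (Module.finrank K W) a] at hI1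
      omega
    · have h1 := ksP_le B S a x eI eZ w
      rw [mul_assoc 2 (Module.finrank K W) a] at hI1
      have h2 : 4 * B ^ 2 * x * (S + 1) = 2 * (2 * B ^ 2 * x * (S + 1)) := by ring
      rw [h2] at hI1
      omega
  have hmin : ∀ m < Nat.find hex, ¬ good m := fun m hm => Nat.find_min hex hm
  obtain ⟨hm1, ε, w, hw, hw2⟩ := Nat.find_spec hex
  refine ⟨Nat.find hex, ε, w, hm1, hw, hw2, ?_⟩
  intro ζ ε' w' hζ1 hζ hw'
  rcases lt_or_eq_of_le hζ with hlt | heq
  · have h1 := hmin ζ hlt
    by_contra hcon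
    apply h1
    exact ⟨hζ1, ε', w', hw', by omega⟩
  · rcases ζ with _ | ζ
    · omega
    · rcases Nat.eq_zero_or_pos ζ with h0 | h0
      · subst h0
        have h1 := PEW_pos B S s0 x eI hI ε' w' hw' le_rfl
        have h2 : 1 * a ≤ Module.finrank K (PEW B x eI w') * a := Nat.mul_le_mul_right _ h1
        have h3 : 8 * H * (0 + 1) = 8 * H := by ring
        omega
      · have h1 := hmin ζ (by omega)
        have h2 : 8 * H * ζ + a < 2 * ksP B S a x 1 eI eZ (fun i : Fin ζ => w' i.castSucc) +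
            2 * (Module.finrank K (PEW B x eI (fun i : Fin ζ => w' i.castSucc)) * a) + 8 * H := by
          by_contra hcon
          apply h1
          exact ⟨h0, _, _, hw'.castSucc, by omega⟩
        have h3 := ksP_drop B S a x eI eZ w'
        have h4 : 8 * H * (ζ + 1) = 8 * H * ζ + 8 * H := by ring
        omega

end Pool.Agent.DP
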