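import Pool.Agent.DK.NUMK

/-!
# DP: choice of the parameters, from `dk_num` with `δ = dim P`, `d = ⌈y / dim P⌉`
-/

namespace Pool.Agent.DP

private theorem nump_rpow {d W x L c : ℝ} (hd : 1 ≤ d) (hx : 0 < x) (hL : 0 < L) :
    2 * (c / 2 * d ^ (1 / 3 : ℝ) * W ^ (5 / 3 : ℝ) / (x * L ^ (2 / 3 : ℝ))) / d =
      c * W ^ (5 / 3 : ℝ) / (x * (d * L) ^ (2 / 3 : ℝ)) := by
  have hd0 : 0 < d := by linarith
  have h1 : d ^ (1 / 3 : ℝ) * d ^ (2 / 3 : ℝ) = d := by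
    rw [← Real.rpow_add hd0]
    norm_num
  have h2 : (d * L) ^ (2 / 3 : ℝ) = d ^ (2 / 3 : ℝ) * L ^ (2 / 3 : ℝ) :=
    Real.mul_rpow hd0.le hL.le
  rw [h2]
  have hL2 : 0 < L ^ (2 / 3 : ℝ) := Real.rpow_pos_of_pos hL _
  have hd2 : 0 < d ^ (2 / 3 : ℝ) := Real.rpow_pos_of_pos hd0 _
  have hd1 : 0 < d ^ (1 / 3 : ℝ) := Real.rpow_pos_of_pos hd0 _
  rw [mul_div_assoc', div_div, div_eq_div_iff (by positivity) (by positivity)]
  generalize W ^ (5 / 3 : ℝ) = w at *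
  generalize L ^ (2 / 3 : ℝ) = l at *
  generalize d ^ (2 / 3 : ℝ) = d2 at *
  generalize d ^ (1 / 3 : ℝ) = d1 at *
  have : d = d1 * d2 := h1.symm
  rw [this]
  ring

/-- `d = dim P`, `y = dim (V P)`, window `(x, x + W]` -/
theorem dp_num (C1 : ℝ) (hC1 : 0 < C1) : ∃ c C x0 : ℝ, 0 < c ∧ 0 < C ∧ ∀ x W d y : ℕ, 1 ≤ d →
    d ≤ y → x0 ≤ x → C * (x : ℝ) ^ (3 / 4 : ℝ) * (d * Real.log x) ^ (1 / 4 : ℝ) ≤ W → W ≤ x →
    (y : ℝ) < c * (d : ℝ) ^ (1 / 3 : ℝ) * (W : ℝ) ^ (5 / 3 : ℝ) /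
      ((x : ℝ) * (Real.log x) ^ (2 / 3 : ℝ)) →
    ∃ B H a S f0 : ℕ, 1 ≤ B ∧ B ≤ H ∧ a + S = x + W ∧
      4 * B ^ 2 * d * (S + 1) + 2 * y * a + 8 * H ≤ 8 * H * B * d * (S + 1 - x) + a ∧
      8 * H * d + 16 * H + 1 ≤ a ∧ 2 * f0 ≤ a ∧
      C1 * ((B : ℝ) * d * (S + 1) + 1) * (H : ℝ) ^ 2 * (1 + Real.log (a + S + 1)) <
        (f0 : ℝ) ^ 2 := by
  obtain ⟨c, C, x0, hc, hC, hdk⟩ := Pool.Agent.DK.dk_num (4 * C1 + 1600) (by linarith)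
  refine ⟨c / 2, max C 1, max x0 3, by linarith, by positivity, ?_⟩
  intro x W d y hd hdy hx hCW hWx hy
  have hx3 : (3 : ℝ) ≤ x := (le_max_right _ _).trans hx
  have hx0' : x0 ≤ x := (le_max_left _ _).trans hx
  have hx0 : (0 : ℝ) < x := by linarith
  have hL1 : 1 ≤ Real.log x := by
    have h1 : Real.log 3 ≤ Real.log x := Real.log_le_log (by norm_num) hx3
    have h2 : (1 : ℝ) < Real.log 3 := by
      rw [Real.lt_log_iff_exp_lt (by norm_num)]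
      have := Real.exp_one_lt_d9
      linarith
    linarith
  have hL0 : 0 < Real.log x := by linarith
  have hd1 : (1 : ℝ) ≤ d := by exact_mod_cast hd
  have hd0 : (0 : ℝ) < d := by linarith
  have hdL : 1 ≤ (d : ℝ) * Real.log x := one_le_mul_of_one_le_of_one_le hd1 hL1
  have hpos : 0 ≤ (x : ℝ) ^ (3 / 4 : ℝ) * (d * Real.log x) ^ (1 / 4 : ℝ) := by positivity
  -- `d ≤ x`
  have hdx : d ≤ x := by
    have h1 : (x : ℝ) ^ (3 / 4 : ℝ) * (d * Real.log x) ^ (1 / 4 : ℝ) ≤ x := by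
      have h2 : 1 * ((x : ℝ) ^ (3 / 4 : ℝ) * (d * Real.log x) ^ (1 / 4 : ℝ)) ≤
          max C 1 * ((x : ℝ) ^ (3 / 4 : ℝ) * (d * Real.log x) ^ (1 / 4 : ℝ)) :=
        mul_le_mul_of_nonneg_right (le_max_right _ _) hpos
      have h3 : (W : ℝ) ≤ x := by exact_mod_cast hWx
      rw [one_mul, ← mul_assoc] at h2
      linarith
    have h4 : ((x : ℝ) ^ (3 / 4 : ℝ) * (d * Real.log x) ^ (1 / 4 : ℝ)) ^ 4 ≤ (x : ℝ) ^ 4 :=
      pow_le_pow_left₀ hpos h1 4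
    have h5 : ((x : ℝ) ^ (3 / 4 : ℝ)) ^ 4 = (x : ℝ) ^ 3 := by
      rw [← Real.rpow_natCast, ← Real.rpow_mul hx0.le, ← Real.rpow_natCast]
      norm_num
    have h6 : (((d : ℝ) * Real.log x) ^ (1 / 4 : ℝ)) ^ 4 = d * Real.log x := by
      rw [← Real.rpow_natCast, ← Real.rpow_mul (by linarith)]
      norm_num
    rw [mul_pow, h5, h6] at h4
    have h7 : (x : ℝ) ^ 4 = x ^ 3 * x := by ring
    rw [h7] at h4
    have h8 := le_of_mul_le_mul_left h4 (by positivity)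
    have h9 : (d : ℝ) ≤ d * Real.log x := by nlinarith
    exact_mod_cast h9.trans h8
  have hdxR : (d : ℝ) ≤ x := by exact_mod_cast hdx
  -- the ceiling
  set e : ℕ := (y + d - 1) / d with he
  have hye : y ≤ d * e := by
    have h1 := Nat.div_add_mod (y + d - 1) d
    have h2 := Nat.mod_lt (y + d - 1) hd
    rw [← he] at h1
    omega
  have hey : d * e ≤ 2 * y := by
    have h1 := Nat.mul_div_le (y + d - 1) d
    rw [← he] at h1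
    omega
  have heR : (e : ℝ) ≤ 2 * y / d := by
    rw [le_div_iff₀ hd0, mul_comm]
    exact_mod_cast hey
  have helt : (e : ℝ) < c * (W : ℝ) ^ (5 / 3 : ℝ) / ((x : ℝ) * (d * Real.log x) ^ (2 / 3 : ℝ)) := by
    rw [← nump_rpow hd1 hx0 hL0]
    refine heR.trans_lt ?_
    apply div_lt_div_of_pos_right _ hd0
    linarith
  obtain ⟨B, H, a, S, f0, hB, hBH, haS, h1, h2, h3⟩ := hdk x W e d hd hx0' (by
      refine le_trans ?_ hCW
      apply mul_le_mul_of_nonneg_right _ (by positivity)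
      exact mul_le_mul_of_nonneg_right (le_max_left _ _) (by positivity)) hWx helt
  have hH : 1 ≤ H := hB.trans hBH
  have hSx : x ≤ S := by
    by_contra hcon
    have h4 : S + 1 - x = 0 := by omega
    rw [h4, mul_zero] at h1
    have h5 : 0 < 2 * B ^ 2 * (S + 1) := by positivity
    omega
  have hHR : (1 : ℝ) ≤ H := by exact_mod_cast hH
  have hBR : (1 : ℝ) ≤ B := by exact_mod_cast hB
  have hSR : (x : ℝ) ≤ S := by exact_mod_cast hSx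
  have haR : (0 : ℝ) ≤ a := Nat.cast_nonneg _
  have hlog0 : 0 ≤ Real.log ((a : ℝ) + S + 1) := Real.log_nonneg (by linarith)
  set Lg : ℝ := 1 + Real.log ((a : ℝ) + S + 1) with hLg
  have hLg1 : 1 ≤ Lg := by linarith
  have hY : 0 ≤ (d : ℝ) * ((B : ℝ) * (S + 1) + 1) * (H : ℝ) ^ 2 * Lg := by positivity
  have hY1 : (d : ℝ) ^ 2 * (H : ℝ) ^ 2 ≤ (d : ℝ) * ((B : ℝ) * (S + 1) + 1) * (H : ℝ) ^ 2 * Lg := by
    have e1 : (d : ℝ) ≤ (B : ℝ) * (S + 1) + 1 := by nlinarith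
    have e2 : (d : ℝ) * d ≤ (d : ℝ) * ((B : ℝ) * (S + 1) + 1) :=
      mul_le_mul_of_nonneg_left e1 hd0.le
    have e3 : (d : ℝ) * d * (H : ℝ) ^ 2 ≤ (d : ℝ) * ((B : ℝ) * (S + 1) + 1) * (H : ℝ) ^ 2 :=
      mul_le_mul_of_nonneg_right e2 (by positivity)
    have e4 : (d : ℝ) * ((B : ℝ) * (S + 1) + 1) * (H : ℝ) ^ 2 * 1 ≤
        (d : ℝ) * ((B : ℝ) * (S + 1) + 1) * (H : ℝ) ^ 2 * Lg :=
      mul_le_mul_of_nonneg_left hLg1 (by positivity)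
    calc (d : ℝ) ^ 2 * (H : ℝ) ^ 2 = (d : ℝ) * d * (H : ℝ) ^ 2 := by ring
      _ ≤ _ := by linarith
  have h3' : (4 * C1 + 1600) * ((d : ℝ) * ((B : ℝ) * (S + 1) + 1) * (H : ℝ) ^ 2 * Lg) <
      (f0 : ℝ) ^ 2 := by
    refine lt_of_eq_of_lt ?_ h3
    ring
  -- `40 d H < f0`
  have h40 : 40 * d * H < f0 := by
    have e1 : ((40 * d * H : ℕ) : ℝ) ^ 2 < (f0 : ℝ) ^ 2 := by
      have e2 : ((40 * d * H : ℕ) : ℝ) ^ 2 = 1600 * ((d : ℝ) ^ 2 * (H : ℝ) ^ 2) := by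
        push_cast; ring
      rw [e2]
      have e3 : 0 ≤ 4 * C1 * ((d : ℝ) * ((B : ℝ) * (S + 1) + 1) * (H : ℝ) ^ 2 * Lg) := by
        positivity
      nlinarith
    have e4 := lt_of_pow_lt_pow_left₀ 2 (Nat.cast_nonneg f0) e1
    exact_mod_cast e4
  have hdH : H ≤ d * H := Nat.le_mul_of_pos_left _ hd
  have e40 : 40 * d * H = 40 * (d * H) := by ring
  refine ⟨B, H, a, S, a / 2, hB, hBH, haS, ?_, ?_, by omega, ?_⟩
  · have e1 : 2 * d * (2 * B ^ 2 * (S + 1) + e * a + f0) ≤ 2 * d * (4 * H * B * (S + 1 - x)) :=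
      Nat.mul_le_mul_left _ h1
    have e2 : 2 * d * (2 * B ^ 2 * (S + 1) + e * a + f0) =
        4 * B ^ 2 * d * (S + 1) + 2 * (d * e) * a + 2 * d * f0 := by ring
    have e3 : 2 * d * (4 * H * B * (S + 1 - x)) = 8 * H * B * d * (S + 1 - x) := by ring
    have e4 : 2 * y * a ≤ 2 * (d * e) * a := Nat.mul_le_mul_right _ (Nat.mul_le_mul_left _ hye)
    omega
  · have e5 : 8 * H * d = 8 * (d * H) := by ring
    omega
  · have e1 : (f0 : ℝ) / 2 ≤ ((a / 2 : ℕ) : ℝ) := by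
      rw [div_le_iff₀ (by norm_num)]
      have : f0 ≤ (a / 2) * 2 := by omega
      exact_mod_cast this
    have e2 : ((f0 : ℝ) / 2) ^ 2 ≤ ((a / 2 : ℕ) : ℝ) ^ 2 := pow_le_pow_left₀ (by positivity) e1 2
    refine lt_of_lt_of_le ?_ e2
    have e3 : C1 * ((B : ℝ) * d * (S + 1) + 1) * (H : ℝ) ^ 2 * Lg ≤
        C1 * ((d : ℝ) * ((B : ℝ) * (S + 1) + 1)) * (H : ℝ) ^ 2 * Lg := by
      have e4 : (B : ℝ) * d * (S + 1) + 1 ≤ (d : ℝ) * ((B : ℝ) * (S + 1) + 1) := by nlinarith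
      have e5 : 0 ≤ (H : ℝ) ^ 2 * Lg := by positivity
      have e6 := mul_le_mul_of_nonneg_left e4 hC1.le
      have e7 := mul_le_mul_of_nonneg_right e6 e5
      linarith
    have e8 : (4 * C1 + 1600) * ((d : ℝ) * ((B : ℝ) * (S + 1) + 1) * (H : ℝ) ^ 2 * Lg) =
        4 * (C1 * ((d : ℝ) * ((B : ℝ) * (S + 1) + 1)) * (H : ℝ) ^ 2 * Lg) +
        1600 * ((d : ℝ) * ((B : ℝ) * (S + 1) + 1) * (H : ℝ) ^ 2 * Lg) := by ring
    rw [e8] at h3'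
    nlinarith

end Pool.Agent.DP
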