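import Pool.Agent.DP.CORP
import Pool.Agent.DP.NUMP

/-!
# DP: main theorems

`dp_core` for `P` and the space `V * P ⊔ P`, of dimension at most `2 dim (V P)`.
-/

namespace Pool.Agent.DP

open Finset Pool.Agent.ZC Pool.Agent.SI

theorem zr_pos {i : ℕ} (hi : 2 ≤ i) : 0 < zr i := by
  have h : Summable fun n : ℕ => 1 / ((n : ℝ) + 1) ^ i := by
    have h1 := (summable_nat_add_iff 1).2 (Real.summable_one_div_nat_pow.2 (show 1 < i by omega))
    refine h1.congr fun n => ?_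
    push_cast
    rfl
  refine h.tsum_pos (fun n => by positivity) 0 (by positivity)

/-- `dim P ≤ dim (V P)` if `V` is not zero -/
theorem finrank_le_mul (V P : Submodule ℚ ℝ) [Module.Finite ℚ V] [Module.Finite ℚ P] {v : ℝ}
    (hv : v ∈ V) (hv0 : v ≠ 0) :
    Module.finrank ℚ P ≤ Module.finrank ℚ (V * P : Submodule ℚ ℝ) := by
  have hfg : (V * P).FG :=
    Submodule.FG.mul (Module.Finite.iff_fg.1 inferInstance) (Module.Finite.iff_fg.1 inferInstance)
  have : Module.Finite ℚ (V * P : Submodule ℚ ℝ) := Module.Finite.iff_fg.2 hfg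
  let f : P →ₗ[ℚ] (V * P : Submodule ℚ ℝ) :=
    { toFun := fun u => ⟨v * u, Submodule.mul_mem_mul hv u.2⟩
      map_add' := fun u w => by
        apply Subtype.ext
        show v * ((u + w : P) : ℝ) = v * u + v * w
        rw [Submodule.coe_add, mul_add]
      map_smul' := fun c u => by
        apply Subtype.ext
        show v * ((c • u : P) : ℝ) = c • (v * u)
        rw [Submodule.coe_smul, mul_smul_comm] }
  refine LinearMap.finrank_le_finrank_of_injective (f := f) fun u w h => ?_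
  have h1 : v * (u : ℝ) = v * w := congrArg Subtype.val h
  exact Subtype.ext (mul_left_cancel₀ hv0 h1)

/-- windows -/
theorem dp_main : ∃ c C x0 : ℝ, 0 < c ∧ 0 < C ∧ ∀ (V P : Submodule ℚ ℝ) [Module.Finite ℚ V]
    [Module.Finite ℚ P] (x W : ℕ), P ≠ ⊥ → (∀ i : ℕ, Odd i → x < i → i ≤ x + W → zr i ∈ V) →
    x0 ≤ x →
    C * (x : ℝ) ^ (3 / 4 : ℝ) * (Module.finrank ℚ P * Real.log x) ^ (1 / 4 : ℝ) ≤ W → W ≤ x →
    c * (Module.finrank ℚ P : ℝ) ^ (1 / 3 : ℝ) * (W : ℝ) ^ (5 / 3 : ℝ) /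
      ((x : ℝ) * (Real.log x) ^ (2 / 3 : ℝ)) ≤ (Module.finrank ℚ (V * P : Submodule ℚ ℝ) : ℝ) := by
  obtain ⟨C1, hC1, hcore⟩ := dp_core
  obtain ⟨c, C, x0, hc, hC, hnum⟩ := dp_num C1 hC1
  refine ⟨c / 2, max C 1, max x0 3, by linarith, by positivity, ?_⟩
  intro V P _ _ x W hP hV hx hCW hWx
  by_contra hlt
  push Not at hlt
  have hfg : (V * P).FG :=
    Submodule.FG.mul (Module.Finite.iff_fg.1 inferInstance) (Module.Finite.iff_fg.1 inferInstance)
  have hfin : Module.Finite ℚ (V * P : Submodule ℚ ℝ) := Module.Finite.iff_fg.2 hfg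
  have hx3 : (3 : ℝ) ≤ x := (le_max_right _ _).trans hx
  have hx0' : x0 ≤ x := (le_max_left _ _).trans hx
  have hx0 : (0 : ℝ) < x := by linarith
  have hd : 1 ≤ Module.finrank ℚ P := by
    have : Nontrivial P := (Submodule.nontrivial_iff_ne_bot).2 hP
    exact Module.finrank_pos
  have hd1 : (1 : ℝ) ≤ Module.finrank ℚ P := by exact_mod_cast hd
  have hL1 : 1 ≤ Real.log x := by
    have h1 : Real.log 3 ≤ Real.log x := Real.log_le_log (by norm_num) hx3
    have h2 : (1 : ℝ) < Real.log 3 := by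
      rw [Real.lt_log_iff_exp_lt (by norm_num)]
      have := Real.exp_one_lt_d9
      linarith
    linarith
  have hdL : 1 ≤ (Module.finrank ℚ P : ℝ) * Real.log x := one_le_mul_of_one_le_of_one_le hd1 hL1
  have hW1 : (1 : ℝ) < W := by
    have h1 : (1 : ℝ) < (x : ℝ) ^ (3 / 4 : ℝ) := Real.one_lt_rpow (by linarith) (by norm_num)
    have h2 : (1 : ℝ) ≤ ((Module.finrank ℚ P : ℝ) * Real.log x) ^ (1 / 4 : ℝ) :=
      Real.one_le_rpow hdL (by norm_num)
    have h3 : 1 * (x : ℝ) ^ (3 / 4 : ℝ) ≤ max C 1 * (x : ℝ) ^ (3 / 4 : ℝ) :=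
      mul_le_mul_of_nonneg_right (le_max_right _ _) (by positivity)
    have h4 : max C 1 * (x : ℝ) ^ (3 / 4 : ℝ) * 1 ≤ max C 1 * (x : ℝ) ^ (3 / 4 : ℝ) *
        ((Module.finrank ℚ P : ℝ) * Real.log x) ^ (1 / 4 : ℝ) :=
      mul_le_mul_of_nonneg_left h2 (by positivity)
    linarith
  have hW2 : 2 ≤ W := by exact_mod_cast hW1
  -- a non-zero element of `V`
  have hxN : 3 ≤ x := by exact_mod_cast hx3
  obtain ⟨i, hi1, hi2, hi3⟩ : ∃ i : ℕ, Odd i ∧ x < i ∧ i ≤ x + W := by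
    rcases Nat.even_or_odd x with h | h
    · exact ⟨x + 1, h.add_one, by omega, by omega⟩
    · exact ⟨x + 2, by rw [Nat.odd_add]; simp [h], by omega, by omega⟩
  have hi0 : zr i ≠ 0 := (zr_pos (by omega)).ne'
  have hdy := finrank_le_mul V P (hV i hi1 hi2 hi3) hi0
  set W0 : Submodule ℚ ℝ := V * P ⊔ P with hW0
  have hW0y : Module.finrank ℚ W0 ≤ 2 * Module.finrank ℚ (V * P : Submodule ℚ ℝ) := by
    have h1 := Submodule.finrank_add_le_finrank_add_finrank (V * P) P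
    rw [← hW0] at h1
    omega
  have hPW0 : P ≤ W0 := le_sup_right
  have hfin0 : Module.Finite ℚ W0 := inferInstance
  have hdW0 : Module.finrank ℚ P ≤ Module.finrank ℚ W0 := Submodule.finrank_mono hPW0
  obtain ⟨B, H, a, S, f0, hB, hBH, haS, hI1, hI2, hf0, hlt2⟩ := hnum x W (Module.finrank ℚ P)
    (Module.finrank ℚ W0) hd hdW0 hx0' (by
      refine le_trans ?_ hCW
      apply mul_le_mul_of_nonneg_right _ (by positivity)
      exact mul_le_mul_of_nonneg_right (le_max_left _ _) (by positivity)) hWx (by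
      have h1 : (Module.finrank ℚ W0 : ℝ) ≤ 2 * (Module.finrank ℚ (V * P : Submodule ℚ ℝ) : ℝ) := by
        exact_mod_cast hW0y
      have h2 : c * (Module.finrank ℚ P : ℝ) ^ (1 / 3 : ℝ) * (W : ℝ) ^ (5 / 3 : ℝ) /
          ((x : ℝ) * (Real.log x) ^ (2 / 3 : ℝ)) = 2 * (c / 2 * (Module.finrank ℚ P : ℝ) ^ (1 / 3 : ℝ) *
            (W : ℝ) ^ (5 / 3 : ℝ) / ((x : ℝ) * (Real.log x) ^ (2 / 3 : ℝ))) := by ring
      rw [h2]
      linarith)
  have hfinal := hcore B H a S x f0 P W0 hB hBH hPW0 hP hI1 hI2 hf0 (by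
    intro n hn hxn v hv
    simp only [oddS, mem_filter, mem_Icc] at hn
    exact le_sup_left (a := V * P) (Submodule.mul_mem_mul (hV n hn.2 hxn (by omega)) hv))
  linarith

/-- dyadic windows, no restriction on `P` -/
theorem dp_all : ∃ c : ℝ, 0 < c ∧ ∀ (V P : Submodule ℚ ℝ) [Module.Finite ℚ V]
    [Module.Finite ℚ P] (N : ℕ), 2 ≤ N → (∀ i : ℕ, Odd i → N < i → i ≤ 2 * N → zr i ∈ V) →
    c * ((N : ℝ) / Real.log N) ^ 2 * (Module.finrank ℚ P : ℝ) ≤
      (Module.finrank ℚ (V * P : Submodule ℚ ℝ) : ℝ) ^ 3 := by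
  obtain ⟨c, C, x0, hc, hC, hmain⟩ := dp_main
  set K : ℝ := ((max x0 2) / Real.log 2) ^ 2 with hK
  have hl2 : 0 < Real.log 2 := Real.log_pos (by norm_num)
  have hK0 : 0 < K := by
    have : (0 : ℝ) < max x0 2 := lt_of_lt_of_le (by norm_num) (le_max_right _ _)
    positivity
  refine ⟨min (c ^ 3) (min (1 / C ^ 8) (1 / K)), by positivity, ?_⟩
  intro V P _ _ N hN hV
  set d := Module.finrank ℚ P with hd
  set y := Module.finrank ℚ (V * P : Submodule ℚ ℝ) with hy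
  rcases Nat.eq_zero_or_pos d with h0 | hd1
  · rw [h0, Nat.cast_zero, mul_zero]
    positivity
  have hP : P ≠ ⊥ := by
    rintro rfl
    rw [hd, finrank_bot] at hd1
    exact absurd hd1 (lt_irrefl 0)
  obtain ⟨i, hi1, hi2, hi3⟩ : ∃ i : ℕ, Odd i ∧ N < i ∧ i ≤ 2 * N := by
    rcases Nat.even_or_odd N with h | h
    · exact ⟨N + 1, h.add_one, by omega, by omega⟩
    · exact ⟨N + 2, by rw [Nat.odd_add]; simp [h], by omega, by omega⟩
  have hdy : d ≤ y := finrank_le_mul V P (hV i hi1 hi2 hi3) (zr_pos (by omega)).ne'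
  have hNR : (2 : ℝ) ≤ N := by exact_mod_cast hN
  have hN0 : (0 : ℝ) < N := by linarith
  have hlN : Real.log 2 ≤ Real.log N := Real.log_le_log (by norm_num) hNR
  have hlN0 : 0 < Real.log N := by linarith
  have hd1R : (1 : ℝ) ≤ d := by exact_mod_cast hd1
  have hdyR : (d : ℝ) ≤ y := by exact_mod_cast hdy
  have hy1 : (1 : ℝ) ≤ y := by linarith
  have hd3 : (d : ℝ) ^ 3 ≤ (y : ℝ) ^ 3 := pow_le_pow_left₀ (by positivity) hdyR 3
  set Q : ℝ := ((N : ℝ) / Real.log N) ^ 2 with hQ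
  have hQ0 : 0 < Q := by positivity
  by_cases hNx : (N : ℝ) < x0
  · have h1 : Q ≤ K := by
      rw [hQ, hK]
      apply pow_le_pow_left₀ (by positivity)
      apply div_le_div₀ _ _ hl2 hlN
      · exact le_trans (by norm_num) (le_max_right _ _)
      · exact hNx.le.trans (le_max_left _ _)
    have h2 : min (c ^ 3) (min (1 / C ^ 8) (1 / K)) ≤ 1 / K :=
      (min_le_right _ _).trans (min_le_right _ _)
    have h3 : min (c ^ 3) (min (1 / C ^ 8) (1 / K)) * Q ≤ 1 / K * K :=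
      mul_le_mul h2 h1 hQ0.le (by positivity)
    have h4 : 1 / K * K = 1 := by field_simp
    have h5 : (d : ℝ) ≤ (d : ℝ) ^ 3 := by
      calc (d : ℝ) = (d : ℝ) ^ 1 := (pow_one _).symm
        _ ≤ (d : ℝ) ^ 3 := pow_le_pow_right₀ hd1R (by norm_num)
    have h6 : min (c ^ 3) (min (1 / C ^ 8) (1 / K)) * Q * d ≤ 1 * d :=
      mul_le_mul_of_nonneg_right (by linarith) (by positivity)
    linarith
  push Not at hNx
  by_cases hCN : C * (N : ℝ) ^ (3 / 4 : ℝ) * ((d : ℝ) * Real.log N) ^ (1 / 4 : ℝ) ≤ N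
  · have h1 := hmain V P N N hP (fun i h1 h2 h3 => hV i h1 h2 (by omega)) hNx hCN le_rfl
    rw [← hd, ← hy] at h1
    have h2 : c * (d : ℝ) ^ (1 / 3 : ℝ) * (N : ℝ) ^ (5 / 3 : ℝ) / ((N : ℝ) * (Real.log N) ^ (2 / 3 : ℝ)) =
        c * (d : ℝ) ^ (1 / 3 : ℝ) * ((N : ℝ) / Real.log N) ^ (2 / 3 : ℝ) := by
      have e1 : (N : ℝ) ^ (5 / 3 : ℝ) = N * (N : ℝ) ^ (2 / 3 : ℝ) := by
        rw [show (5 / 3 : ℝ) = 1 + 2 / 3 by norm_num, Real.rpow_add hN0, Real.rpow_one]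
      rw [e1, Real.div_rpow hN0.le hlN0.le]
      field_simp
    rw [h2] at h1
    have h3 := pow_le_pow_left₀ (by positivity) h1 3
    have h4 : ((d : ℝ) ^ (1 / 3 : ℝ)) ^ 3 = d := by
      rw [← Real.rpow_natCast, ← Real.rpow_mul (by positivity)]
      norm_num
    have h5 : (((N : ℝ) / Real.log N) ^ (2 / 3 : ℝ)) ^ 3 = Q := by
      rw [← Real.rpow_natCast, ← Real.rpow_mul (by positivity), hQ, ← Real.rpow_natCast]
      norm_num
    rw [mul_pow, mul_pow, h4, h5] at h3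
    refine le_trans ?_ h3
    have h6 : min (c ^ 3) (min (1 / C ^ 8) (1 / K)) ≤ c ^ 3 := min_le_left _ _
    have h7 : min (c ^ 3) (min (1 / C ^ 8) (1 / K)) * (Q * d) ≤ c ^ 3 * (Q * d) :=
      mul_le_mul_of_nonneg_right h6 (by positivity)
    linarith
  · push Not at hCN
    have h1 : (N : ℝ) ^ 4 ≤ (C * (N : ℝ) ^ (3 / 4 : ℝ) * ((d : ℝ) * Real.log N) ^ (1 / 4 : ℝ)) ^ 4 :=
      pow_le_pow_left₀ hN0.le hCN.le 4
    have h2 : ((N : ℝ) ^ (3 / 4 : ℝ)) ^ 4 = (N : ℝ) ^ 3 := by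
      rw [← Real.rpow_natCast, ← Real.rpow_mul hN0.le, ← Real.rpow_natCast]
      norm_num
    have h3 : (((d : ℝ) * Real.log N) ^ (1 / 4 : ℝ)) ^ 4 = d * Real.log N := by
      rw [← Real.rpow_natCast, ← Real.rpow_mul (by positivity)]
      norm_num
    rw [mul_pow, mul_pow, h2, h3] at h1
    have h4 : (N : ℝ) ≤ C ^ 4 * (d * Real.log N) := by
      have e1 : (N : ℝ) ^ 4 = N ^ 3 * N := by ring
      have e2 : C ^ 4 * (N : ℝ) ^ 3 * (d * Real.log N) = N ^ 3 * (C ^ 4 * (d * Real.log N)) := by ring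
      rw [e1, e2] at h1
      exact le_of_mul_le_mul_left h1 (by positivity)
    have h5 : (N : ℝ) / Real.log N ≤ C ^ 4 * d := by
      rw [div_le_iff₀ hlN0]
      linarith
    have h6 : Q ≤ (C ^ 4 * d) ^ 2 := pow_le_pow_left₀ (by positivity) h5 2
    have h7 : min (c ^ 3) (min (1 / C ^ 8) (1 / K)) ≤ 1 / C ^ 8 :=
      (min_le_right _ _).trans (min_le_left _ _)
    have h8 : min (c ^ 3) (min (1 / C ^ 8) (1 / K)) * Q ≤ 1 / C ^ 8 * (C ^ 4 * d) ^ 2 :=
      mul_le_mul h7 h6 hQ0.le (by positivity)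
    have h9 : 1 / C ^ 8 * (C ^ 4 * (d : ℝ)) ^ 2 = (d : ℝ) ^ 2 := by
      field_simp
    rw [h9] at h8
    have h10 : min (c ^ 3) (min (1 / C ^ 8) (1 / K)) * Q * d ≤ (d : ℝ) ^ 2 * d :=
      mul_le_mul_of_nonneg_right h8 (by positivity)
    have h11 : (d : ℝ) ^ 2 * d = d ^ 3 := by ring
    linarith

end Pool.Agent.DP
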