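import Pool.Agent.DP.RELP
import Pool.Agent.DM.DIX
import Pool.Agent.DM.DIS

/-!
# DP, zero estimate: dictionary between rows and operators
-/

namespace Pool.Agent.DP

open Finset Polynomial Pool.Agent.ZC Pool.Agent.SI Pool.Agent.DM

variable {K : Type*} [Field K] {P : Type*} [AddCommGroup P] [Module K P] {x : ℕ}

/-- coordinates in the basis -/
noncomputable def cP (bP : Module.Basis (Fin x) K P) (i : ℕ) : P →ₗ[K] K :=
  if h : i < x then bP.coord ⟨i, h⟩ else 0

/-- basis vectors -/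
noncomputable def eP (bP : Module.Basis (Fin x) K P) (i : ℕ) : P :=
  if h : i < x then bP ⟨i, h⟩ else 0

theorem cP_of_le (bP : Module.Basis (Fin x) K P) {i : ℕ} (h : x ≤ i) : cP bP i = 0 :=
  dif_neg (by omega)

theorem cP_fin (bP : Module.Basis (Fin x) K P) (i : Fin x) : cP bP i = bP.coord i := by
  unfold cP
  rw [dif_pos i.2]

theorem eP_fin (bP : Module.Basis (Fin x) K P) (i : Fin x) : eP bP i = bP i := by
  unfold eP
  rw [dif_pos i.2]

theorem eP_sum (bP : Module.Basis (Fin x) K P) (v : P) :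
    ∑ i ∈ range x, cP bP i v • eP bP i = v := by
  rw [← Fin.sum_univ_eq_sum_range (fun i => cP bP i v • eP bP i) x]
  simp only [cP_fin, eP_fin, Module.Basis.coord_apply]
  exact bP.sum_repr v

theorem eP_map (bP : Module.Basis (Fin x) K P) (α : P →ₗ[K] K) (v : P) :
    α v = ∑ i ∈ range x, cP bP i v * α (eP bP i) := by
  conv_lhs => rw [← eP_sum bP v]
  rw [map_sum]
  exact Finset.sum_congr rfl fun i _ => by rw [map_smul, smul_eq_mul]

/-- operator of a combination of rows -/
noncomputable def thxP (B H S p M : ℕ) (bP : Module.Basis (Fin x) K P) :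
    (FI B H S p → P) →ₗ[K] (ℕ → ℕ → K[X]) where
  toFun X β' k := thx B H S p M (fun y => cP bP (β' / B) (X y)) (β' % B) k
  map_add' X X' := by
    funext β' k
    have h1 : (fun y => cP bP (β' / B) ((X + X') y)) =
        (fun y => cP bP (β' / B) (X y)) + fun y => cP bP (β' / B) (X' y) := by
      funext y
      rw [Pi.add_apply, Pi.add_apply, map_add]
    rw [h1, thx_add]
    rfl
  map_smul' s X := by
    funext β' k
    have h1 : (fun y => cP bP (β' / B) ((s • X) y)) = s • fun y => cP bP (β' / B) (X y) := by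
      funext y
      rw [Pi.smul_apply, Pi.smul_apply, map_smul]
    rw [h1, thx_smul]
    rfl

theorem thxP_apply (B H S p M : ℕ) (bP : Module.Basis (Fin x) K P) (X : FI B H S p → P)
    (β' k : ℕ) : thxP B H S p M bP X β' k =
      thx B H S p M (fun y => cP bP (β' / B) (X y)) (β' % B) k := rfl

theorem thx_zero_right (B H S p M : ℕ) (X : FI B H S p → K) (β k : ℕ) (hk : S < k) :
    thx B H S p M X β k = 0 := by
  unfold thx lf
  rw [Finset.Icc_eq_empty (by omega), Finset.sum_empty]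

theorem thx_of_zero (B H S p M : ℕ) (β k : ℕ) :
    thx B H S p M (fun _ => (0 : K)) β k = 0 := by
  have h := thx_smul B H S p M (0 : K) (fun _ => (0 : K))
  rw [zero_smul, zero_smul] at h
  exact congrFun (congrFun h β) k

theorem thxP_out (B H S p M : ℕ) (hB : 1 ≤ B) (bP : Module.Basis (Fin x) K P)
    (X : FI B H S p → P) (β' k : ℕ) (h : ¬ (β' < B * x ∧ k ≤ S)) :
    thxP B H S p M bP X β' k = 0 := by
  rw [thxP_apply]
  by_cases hk : k ≤ S
  · have h1 : x ≤ β' / B := by
      rw [Nat.le_div_iff_mul_le (by omega), mul_comm]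
      by_contra hcon
      exact h ⟨by omega, hk⟩
    rw [cP_of_le bP h1]
    exact thx_of_zero B H S p M _ _
  · exact thx_zero_right B H S p M _ _ _ (by omega)

theorem thxP_inj [CharZero K] (B H S p M : ℕ) (hB : 1 ≤ B) (hM : 0 < M)
    (bP : Module.Basis (Fin x) K P) (X : FI B H S p → P) (h : thxP B H S p M bP X = 0) :
    X = 0 := by
  have h1 : ∀ i : Fin x, (fun y => cP bP i (X y)) = 0 := by
    intro i
    refine thx_inj B H S p M hM _ fun β hβ k _ => ?_
    have h2 := congrFun (congrFun h (β + B * i)) k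
    rw [thxP_apply, enc_mod hβ, enc_div hβ] at h2
    exact h2
  funext y
  apply bP.ext_elem
  intro i
  have h2 := congrFun (h1 i) y
  rw [cP_fin] at h2
  rw [Pi.zero_apply, map_zero]
  exact h2

theorem thxP_surj [CharZero K] (B H S p M : ℕ) (hB : 1 ≤ B) (hBH : B ≤ H) (hM : 0 < M)
    (hp : 0 < p) (bP : Module.Basis (Fin x) K P) (Q : ℕ → ℕ → K[X])
    (hsup : ∀ β k, Q β k ≠ 0 → β < B * x ∧ k ≤ S)
    (hpar : ∀ β k, C ((-1) ^ k) * (Q β k).comp (C (-(2 * (p : K) - 1)) - X) = Q β k)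
    (hdeg : ∀ β k, (Q β k).natDegree < 2 * (4 * H * p))
    (hA : ∀ β' < B * x, ∀ w0 : ℚ, odp (β' % B) w0 → |w0| < 4 * (p : ℚ) → ∀ r ≤ S,
      (rf S (Q β') r).eval (((w0 - (2 * (p : ℚ) - 1)) / 2 : ℚ) : K) = 0) :
    ∃ X : FI B H S p → P, thxP B H S p M bP X = Q := by
  have key : ∀ i : Fin x, ∃ X : FI B H S p → K, ∀ β k, k ≤ S → thx B H S p M X β k =
      if β < B then Q (β + B * i) k else 0 := by
    intro i
    have hlt : ∀ β < B, β + B * (i : ℕ) < B * x := by
      intro β hβ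
      have h1 : B * ((i : ℕ) + 1) ≤ B * x := Nat.mul_le_mul_left _ i.2
      rw [Nat.mul_succ] at h1
      omega
    refine thx_surj B H S p M hBH hM hp (fun β k => if β < B then Q (β + B * i) k else 0) ?_ ?_
      ?_ ?_
    · intro β k h
      by_cases hβ : β < B
      · simp only [if_pos hβ] at h
        exact ⟨hβ, (hsup _ _ h).2⟩
      · simp only [if_neg hβ, ne_eq, not_true_eq_false] at h
    · intro β k
      by_cases hβ : β < B
      · simp only [if_pos hβ]
        exact hpar _ _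
      · simp only [if_neg hβ, zero_comp, mul_zero]
    · intro β k
      by_cases hβ : β < B
      · simp only [if_pos hβ]
        exact hdeg _ _
      · simp only [if_neg hβ, natDegree_zero]
        have := hdeg 0 0
        omega
    · intro β hβ w0 h1 h2 r hr
      simp only [if_pos hβ]
      exact hA (β + B * i) (hlt β hβ) w0 (by rw [enc_mod hβ]; exact h1) h2 r hr
  choose X hX using key
  refine ⟨fun y => ∑ i, X i y • bP i, ?_⟩
  funext β' k
  by_cases h : β' < B * x ∧ k ≤ S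
  · have hi : β' / B < x := by
      rw [Nat.div_lt_iff_lt_mul (by omega), mul_comm]
      exact h.1
    have hβ : β' % B < B := Nat.mod_lt _ (by omega)
    have h1 := hX ⟨β' / B, hi⟩ (β' % B) k h.2
    rw [if_pos hβ] at h1
    have h2 : β' % B + B * (β' / B) = β' := Nat.mod_add_div β' B
    simp only [h2] at h1
    rw [thxP_apply, ← h1]
    congr 1
    congr 1
    funext y
    have h3 : cP bP (β' / B) = bP.coord ⟨β' / B, hi⟩ := cP_fin bP ⟨β' / B, hi⟩
    rw [h3, Module.Basis.coord_apply, bP.repr_sum_self]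
  · rw [thxP_out B H S p M hB bP _ β' k h]
    by_contra h1
    exact h (hsup β' k (Ne.symm h1))

/-- value of a pair of functionals on `G` -/
noncomputable def GG (B p T : ℕ) (bP : Module.Basis (Fin x) K P) (α : P →ₗ[K] K)
    (γ : ℕ → P →ₗ[K] K) (β' l : ℕ) : PowerSeries K :=
  PowerSeries.C (α (eP bP (β' / B))) * Gs K p (2 * (β' % B) + 1) l (oddS T) 0 +
    zs K (2 * (β' % B) + 1) (oddS T) (fun n => γ n (eP bP (β' / B)))

theorem zs_sum (b : ℕ) (I : Finset ℕ) {ι : Type*} (s : Finset ι) (c : ι → K) (z : ι → ℕ → K) :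
    ∑ i ∈ s, PowerSeries.C (c i) * zs K b I (z i) =
      zs K b I (fun n => ∑ i ∈ s, c i * z i n) := by
  unfold zs
  simp only [Finset.mul_sum, map_sum, Finset.sum_mul]
  rw [Finset.sum_comm]
  refine Finset.sum_congr rfl fun n _ => Finset.sum_congr rfl fun i _ => ?_
  rw [← mul_assoc, ← map_mul]
  congr 2
  ring

theorem GG_sum (B p T : ℕ) (bP : Module.Basis (Fin x) K P) (α : P →ₗ[K] K)
    (γ : ℕ → P →ₗ[K] K) {β : ℕ} (hβ : β < B) (l : ℕ) (v : P) :
    ∑ i ∈ range x, PowerSeries.C (cP bP i v) * GG B p T bP α γ (β + B * i) l =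
      PowerSeries.C (α v) * Gs K p (2 * β + 1) l (oddS T) 0 +
        zs K (2 * β + 1) (oddS T) (fun n => γ n v) := by
  have h1 : ∀ i, PowerSeries.C (cP bP i v) * GG B p T bP α γ (β + B * i) l =
      PowerSeries.C (cP bP i v * α (eP bP i)) * Gs K p (2 * β + 1) l (oddS T) 0 +
      PowerSeries.C (cP bP i v) * zs K (2 * β + 1) (oddS T) (fun n => γ n (eP bP i)) := by
    intro i
    unfold GG
    rw [enc_mod hβ, enc_div hβ, mul_add, map_mul, mul_assoc]
  rw [Finset.sum_congr rfl fun i _ => h1 i, Finset.sum_add_distrib, ← Finset.sum_mul, ← map_sum,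
    ← eP_map, zs_sum]
  congr 2
  funext n
  exact (eP_map bP (γ n) v).symm

/-- value of a combination of rows -/
theorem rowP [CharZero K] (B H S p M T : ℕ) (bP : Module.Basis (Fin x) K P)
    (X : FI B H S p → P) (α : P →ₗ[K] K) (γ : ℕ → P →ₗ[K] K) (l m : ℕ) :
    ∑ y : FI B H S p, PowerSeries.coeff m (α (X y) •
      dRow K M p T 0 l (y.1 : ℕ) (y.2.1 : ℕ) (y.2.2 : ℕ) +
      yRow K M p T (fun n => γ n (X y)) l (y.1 : ℕ) (y.2.1 : ℕ) (y.2.2 : ℕ)) =
    PowerSeries.coeff m (∑ β' ∈ range (B * x), ∑ k ∈ range (S + 1),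
      loc K l (thxP B H S p M bP X β' k) * hs K k (GG B p T bP α γ β' l)) := by
  have h1 : ∀ y : FI B H S p, α (X y) •
      dRow K M p T 0 l (y.1 : ℕ) (y.2.1 : ℕ) (y.2.2 : ℕ) +
      yRow K M p T (fun n => γ n (X y)) l (y.1 : ℕ) (y.2.1 : ℕ) (y.2.2 : ℕ) =
      ∑ i ∈ range x, PowerSeries.C (cP bP i (X y)) * hs K (y.2.1 : ℕ)
        (hl K p l ^ ((y.2.1 : ℕ) % 2) * ev K p l (fB K M p (y.1 : ℕ) (y.2.2 : ℕ)) *
          GG B p T bP α γ ((y.1 : ℕ) + B * i) l) := by
    intro y
    have h2 : ∀ i, PowerSeries.C (cP bP i (X y)) * hs K (y.2.1 : ℕ)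
        (hl K p l ^ ((y.2.1 : ℕ) % 2) * ev K p l (fB K M p (y.1 : ℕ) (y.2.2 : ℕ)) *
          GG B p T bP α γ ((y.1 : ℕ) + B * i) l) = hs K (y.2.1 : ℕ)
        (hl K p l ^ ((y.2.1 : ℕ) % 2) * ev K p l (fB K M p (y.1 : ℕ) (y.2.2 : ℕ)) *
          (PowerSeries.C (cP bP i (X y)) * GG B p T bP α γ ((y.1 : ℕ) + B * i) l)) := by
      intro i
      rw [← hs_C_mul]
      congr 1
      ring
    rw [Finset.sum_congr rfl fun i _ => h2 i, ← hs_sum, ← Finset.mul_sum,
      GG_sum B p T bP α γ y.1.2 l (X y), mul_add (R := PowerSeries K), hs_add]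
    unfold dRow yRow
    rw [PowerSeries.smul_eq_C_mul, ← hs_C_mul]
    congr 2
    ring
  rw [Finset.sum_congr rfl fun y _ => congrArg _ (h1 y), ← map_sum, Finset.sum_comm,
    sum_range_mul']
  congr 1
  refine Finset.sum_congr rfl fun i _ => ?_
  rw [thx_row B H S p M (fun y => cP bP i (X y)) l (fun β => GG B p T bP α γ (β + B * i) l)]
  refine Finset.sum_congr rfl fun β hβ => ?_
  rw [Finset.mem_range] at hβ
  refine Finset.sum_congr rfl fun k _ => ?_
  rw [thxP_apply, enc_mod hβ, enc_div hβ]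

end Pool.Agent.DP
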