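import Pool.Agent.DP.ZEQ
import Pool.Agent.DP.ZER

/-!
# DP, zero estimate: the killers
-/

namespace Pool.Agent.DP

open Finset Polynomial Pool.Agent.ZC Pool.Agent.SI Pool.Agent.DM

variable {K : Type*} [Field K] {W : Type*} [AddCommGroup W] [Module K W]

theorem GP_add (B p T : ℕ) (eI : ℕ → W) (eZ : ℕ → ℕ → W) (φ φ' : W →ₗ[K] K) (β' l : ℕ) :
    GP B p T eI eZ (φ + φ') β' l = GP B p T eI eZ φ β' l + GP B p T eI eZ φ' β' l := by
  unfold GP thP zs
  simp only [LinearMap.add_apply, map_add, mul_add, add_mul, Finset.sum_add_distrib]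
  ring

theorem GP_smul (B p T : ℕ) (eI : ℕ → W) (eZ : ℕ → ℕ → W) (c : K) (φ : W →ₗ[K] K) (β' l : ℕ) :
    GP B p T eI eZ (c • φ) β' l = PowerSeries.C c * GP B p T eI eZ φ β' l := by
  unfold GP thP zs
  simp only [LinearMap.smul_apply, smul_eq_mul, mul_add, Finset.mul_sum]
  congr 1
  · rw [← mul_assoc, ← map_mul]
  · refine Finset.sum_congr rfl fun n _ => ?_
    rw [← mul_assoc (PowerSeries.C c), ← map_mul]
    congr 2
    ring

/-- value of an operator under the functional `φ` -/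
noncomputable def val (B S T x : ℕ) (eI : ℕ → W) (eZ : ℕ → ℕ → W) (p l : ℕ) (φ : W →ₗ[K] K)
    (Q : ℕ → ℕ → K[X]) : PowerSeries K :=
  ∑ β' ∈ range (B * x), ∑ k ∈ range (S + 1), loc K l (Q β' k) * hs K k (GP B p T eI eZ φ β' l)

theorem val_add_left (B S T x : ℕ) (eI : ℕ → W) (eZ : ℕ → ℕ → W) (p l : ℕ) (φ φ' : W →ₗ[K] K)
    (Q : ℕ → ℕ → K[X]) : val B S T x eI eZ p l (φ + φ') Q =
      val B S T x eI eZ p l φ Q + val B S T x eI eZ p l φ' Q := by
  unfold val
  simp only [GP_add, hs_add, mul_add, Finset.sum_add_distrib]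

theorem val_smul_left (B S T x : ℕ) (eI : ℕ → W) (eZ : ℕ → ℕ → W) (p l : ℕ) (c : K)
    (φ : W →ₗ[K] K) (Q : ℕ → ℕ → K[X]) : val B S T x eI eZ p l (c • φ) Q =
      PowerSeries.C c * val B S T x eI eZ p l φ Q := by
  unfold val
  simp only [GP_smul, hs_C_mul, Finset.mul_sum]
  refine Finset.sum_congr rfl fun β _ => Finset.sum_congr rfl fun k _ => ?_
  ring

theorem val_sum_left (B S T x : ℕ) (eI : ℕ → W) (eZ : ℕ → ℕ → W) (p l : ℕ) {ι : Type*}
    (s : Finset ι) (c : ι → K) (φ : ι → W →ₗ[K] K) (Q : ℕ → ℕ → K[X]) :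
    val B S T x eI eZ p l (∑ i ∈ s, c i • φ i) Q =
      ∑ i ∈ s, PowerSeries.C (c i) * val B S T x eI eZ p l (φ i) Q := by
  classical
  induction s using Finset.induction_on with
  | empty =>
    rw [Finset.sum_empty, Finset.sum_empty]
    have h := val_smul_left B S T x eI eZ p l (0 : K) (0 : W →ₗ[K] K) Q
    rw [zero_smul, map_zero, zero_mul] at h
    exact h
  | insert i s hi ih =>
    rw [Finset.sum_insert hi, Finset.sum_insert hi, val_add_left, val_smul_left, ih]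

/-- values of an operator under a family of functionals -/
noncomputable def gval (B S T x a : ℕ) (eI : ℕ → W) (eZ : ℕ → ℕ → W) (p l : ℕ) {J : Type*}
    (φ : J → W →ₗ[K] K) : (ℕ → ℕ → K[X]) →ₗ[K] (J → Fin a → K) where
  toFun Q j m := PowerSeries.coeff (m : ℕ) (val B S T x eI eZ p l (φ j) Q)
  map_add' Q Q' := by
    funext j m
    unfold val
    simp only [Pi.add_apply, map_add, add_mul, Finset.sum_add_distrib]
  map_smul' s Q := by
    have hc : ∀ f : K[X], loc K l (s • f) = PowerSeries.C s * loc K l f := by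
      intro f
      rw [smul_eq_C_mul, map_mul, loc_C]
    funext j m
    unfold val
    simp only [Pi.smul_apply, hc, mul_assoc, ← Finset.mul_sum, PowerSeries.coeff_C_mul,
      smul_eq_mul, RingHom.id_apply]

theorem gval_apply (B S T x a : ℕ) (eI : ℕ → W) (eZ : ℕ → ℕ → W) (p l : ℕ) {J : Type*}
    (φ : J → W →ₗ[K] K) (Q : ℕ → ℕ → K[X]) (j : J) (m : Fin a) :
    gval B S T x a eI eZ p l φ Q j m =
      PowerSeries.coeff (m : ℕ) (val B S T x eI eZ p l (φ j) Q) := rfl

theorem gval_eq_zero (B S T x a : ℕ) (eI : ℕ → W) (eZ : ℕ → ℕ → W) (p l : ℕ) {J : Type*}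
    (φ : J → W →ₗ[K] K) (Q : ℕ → ℕ → K[X]) : gval B S T x a eI eZ p l φ Q = 0 ↔
      ∀ j, ∀ m < a, PowerSeries.coeff m (val B S T x eI eZ p l (φ j) Q) = 0 := by
  constructor
  · intro h j m hm
    exact congrFun (congrFun h j) ⟨m, hm⟩
  · intro h
    funext j m
    exact h j m m.2

variable [FiniteDimensional K W]

/-- **killers**: the operators with all conditions and values in `K e0` -/
theorem killers [CharZero K] (B H a S s0 x : ℕ) (hB : 1 ≤ B) (hH : 1 ≤ H) (hx : 1 ≤ x)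
    (eI : ℕ → W) (eZ : ℕ → ℕ → W) (hI : LinearIndependent K fun i : Fin x => eI i)
    (hI1 : 4 * B ^ 2 * x * (S + 1) + 2 * Module.finrank K W * a + 8 * H ≤
      8 * H * (B * x * (S + 1 - s0)) + a)
    (hI2 : 8 * H * x + 16 * H + 1 ≤ a) :
    ∃ v0 : W, v0 ≠ 0 ∧ v0 ∈ Submodule.span K (Set.range fun i : Fin x => eI i) ∧ ∃ p0 : ℕ,
      ∀ p ≥ p0, ∃ (m : ℕ) (ε : Fin m → ℕ) (w : Fin m → ℕ → ℕ → K), Fam (B * x) S s0 ε w ∧
        ∃ Kil : Submodule K (Fin m → Fin (4 * H * p) → K),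
          p * a + 8 * H * p ≤ 2 * Module.finrank K Kil ∧
          (∀ v ∈ Kil, ∀ w0 : ℚ, |w0| < 4 * (p : ℚ) → ∀ β' < B * x, odp (β' % B) w0 →
            ∀ r ≤ S, (rf S (opv p (4 * H * p) ε w v β') r).eval
              (((w0 - (2 * (p : ℚ) - 1)) / 2 : ℚ) : K) = 0) ∧
          (∀ v ∈ Kil, ∀ φ : W →ₗ[K] K, φ v0 = 0 → ∀ l < p, ∀ m' < a,
            PowerSeries.coeff m' (val B S (a + S) x eI eZ p l φ (opv p (4 * H * p) ε w v)) = 0) ∧
          (∀ v ∈ Kil, (∀ φ : W →ₗ[K] K, ∀ l < p, ∀ m' < a,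
            PowerSeries.coeff m' (val B S (a + S) x eI eZ p l φ (opv p (4 * H * p) ε w v)) = 0) →
              v = 0) := by
  classical
  obtain ⟨m, ε, w, hm1, hw, hmin1, hmin2⟩ := min_famP B H a S s0 x hH eI eZ hI hx hI1
  -- the vector `v0`
  have hPE1 := PEW_pos B S s0 x eI hI ε w hw hm1
  obtain ⟨v0, hv0, hv0ne⟩ : ∃ v ∈ PEW B x eI w, v ≠ 0 := by
    by_contra hcon
    push Not at hcon
    have h1 : PEW B x eI w = ⊥ := (Submodule.eq_bot_iff _).2 hcon
    rw [h1, finrank_bot] at hPE1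
    omega
  have hPEspan : PEW B x eI w ≤ Submodule.span K (Set.range fun i : Fin x => eI i) := by
    unfold PEW
    rw [Submodule.span_le]
    rintro _ ⟨j, β, k, _, rfl⟩
    refine Submodule.sum_mem _ fun i hi => Submodule.smul_mem _ _ (Submodule.subset_span ?_)
    exact ⟨⟨i, Finset.mem_range.1 hi⟩, rfl⟩
  refine ⟨v0, hv0ne, hPEspan hv0,
    x + B * x * (S + 1) + cRelP B S a x (Module.finrank K W) + 1, fun p hp => ?_⟩
  refine ⟨m, ε, w, hw, ?_⟩
  have hp1 : 1 ≤ p := by omega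
  obtain ⟨n, hn⟩ : ∃ n, n = 4 * H * p := ⟨_, rfl⟩
  rw [← hn]
  have hnpos : 0 < n := by
    rw [hn]; positivity
  set θ : Fin (Module.finrank K (W ⧸ PEW B x eI w)) → ℕ → PowerSeries K :=
    fun j => thP B (a + S) eZ (phi (PEW B x eI w) j) with hθ
  have hθs : ∀ j β, PowerSeries.evalNegHom (θ j β) = θ j β := fun j β => zeg_sg_zs _ _ _
  set G := opv p n ε w with hG
  have hGc : ∀ v, G v = comb w (fun i => pw p (ε i) (fromc m n v i)) := fun v => rfl
  set T : ℚ → (Fin m → Fin n → K) →ₗ[K] (Fin (B * x) → Fin (S + 1) → K) ×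
      (Fin (Module.finrank K (W ⧸ PEW B x eI w)) → Fin a → K) :=
    fun w0 => cnd (B * x) S a θ (fun β' => odp (β' % B) w0) (isPole p w0)
      (((w0 - (2 * (p : ℚ) - 1)) / 2 : ℚ) : K) ∘ₗ G with hT
  set Kil : Submodule K (Fin m → Fin n → K) := ⨅ w0 ∈ posP B p, LinearMap.ker (T w0) with hKil
  have hks : ksP B S a x p eI eZ w = p * ksP B S a x 1 eI eZ w :=
    uni B p (fun A c => kapP B S a x eI eZ A c w)
  have hKil1 : n * m ≤ Module.finrank K Kil + p * ksP B S a x 1 eI eZ w := by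
    have h1 := cnt_inf (posP B p) T
    have h2 : Module.finrank K (Fin m → Fin n → K) = n * m := by
      rw [Module.finrank_pi_fintype]
      simp [mul_comm]
    have h3 : ∑ w0 ∈ posP B p, Module.finrank K (LinearMap.range (T w0)) ≤
        ksP B S a x p eI eZ w := by
      unfold ksP
      refine Finset.sum_le_sum fun w0 _ => ?_
      unfold kapP
      rw [← kap_eq (B * x) S a θ (fun β' => odp (β' % B) w0) (isPole p w0) w
        (((w0 - (2 * (p : ℚ) - 1)) / 2 : ℚ) : K)]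
      apply Submodule.finrank_mono
      rintro _ ⟨v, rfl⟩
      exact ⟨_, rfl⟩
    rw [h2] at h1
    change n * m ≤ Module.finrank K Kil + _ at h1
    rw [← hks]
    omega
  have hker : ∀ v ∈ Kil, ∀ w0 ∈ posP B p, cnd (B * x) S a θ (fun β' => odp (β' % B) w0)
      (isPole p w0) (((w0 - (2 * (p : ℚ) - 1)) / 2 : ℚ) : K) (G v) = 0 := by
    intro v hv w0 hw0
    rw [hKil] at hv
    have h1 := (Submodule.mem_iInf _).1 hv w0
    have h2 := (Submodule.mem_iInf _).1 h1 hw0
    exact h2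
  -- the conditions at all positions
  have hall : ∀ v ∈ Kil, ∀ w0 : ℚ, |w0| < 4 * (p : ℚ) → (∃ β < B, odp β w0) →
      cnd (B * x) S a θ (fun β' => odp (β' % B) w0) (isPole p w0)
        (((w0 - (2 * (p : ℚ) - 1)) / 2 : ℚ) : K) (G v) = 0 := by
    intro v hv w0 h1 h2
    rcases lt_trichotomy w0 0 with h3 | h3 | h3
    · have h4 : -w0 ∈ posP B p := by
        rw [mem_posP]
        refine ⟨by linarith, ?_, ?_⟩
        · rw [abs_of_neg h3] at h1; exact h1
        · obtain ⟨β, hβ, h5⟩ := h2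
          exact ⟨β, hβ, (odp_neg β w0).2 h5⟩
      have h5 := hker v hv _ h4
      have e1 : (fun β' => odp (β' % B) (-w0)) = fun β' => odp (β' % B) w0 :=
        funext fun β' => propext (odp_neg (β' % B) w0)
      have e2 : isPole p (-w0) = isPole p w0 := propext (isPole_neg p w0)
      rw [e1, e2] at h5
      have e3 : (((-w0 - (2 * (p : ℚ) - 1)) / 2 : ℚ) : K) = -(2 * (p : K) - 1) -
          (((w0 - (2 * (p : ℚ) - 1)) / 2 : ℚ) : K) := by
        have : (-w0 - (2 * (p : ℚ) - 1)) / 2 =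
            -(2 * (p : ℚ) - 1) - (w0 - (2 * (p : ℚ) - 1)) / 2 := by
          ring
        rw [this]
        push_cast
        ring
      rw [e3] at h5
      have h6 := cnd_refl (B * x) S a θ hθs _ _ _ _ _ h5
      have h7 : (fun β k => C ((-1) ^ k) * (G v β k).comp (C (-(2 * (p : K) - 1)) - X)) =
          G v := by
        funext β k
        rw [hG, opv_apply]
        exact comb_pw_parity (B * x) S s0 ε w hw p _ β k
      rw [h7] at h6
      exact h6
    · exfalso
      obtain ⟨β, _, k, hk⟩ := h2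
      rw [h3, mul_zero] at hk
      have : (0 : ℤ) = 2 * k + 1 := by exact_mod_cast hk
      omega
    · apply hker v hv
      rw [mem_posP]
      rw [abs_of_pos h3] at h1
      exact ⟨h3, h1, h2⟩
  have hallA : ∀ v ∈ Kil, ∀ w0 : ℚ, |w0| < 4 * (p : ℚ) → ∀ β' < B * x, odp (β' % B) w0 →
      ∀ r ≤ S, (rf S (G v β') r).eval (((w0 - (2 * (p : ℚ) - 1)) / 2 : ℚ) : K) = 0 := by
    intro v hv w0 h1 β' hβ' hodd r hr
    have h2 := hall v hv w0 h1 ⟨β' % B, Nat.mod_lt _ (by omega), hodd⟩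
    rw [cnd_eq_zero_iff] at h2
    exact h2.1 β' hβ' hodd r hr
  -- the functionals vanishing on the support
  have hkillK : ∀ v ∈ Kil, ∀ j, ∀ l < p, ∀ m' < a, PowerSeries.coeff m'
      (val B S (a + S) x eI eZ p l (phi (PEW B x eI w) j) (G v)) = 0 := by
    intro v hv j l hlp m' hm'
    have hpole : isPole p (2 * (p : ℚ) - 1 - 2 * (l : ℚ)) := by
      rw [isPole_iff]
      exact ⟨l, by omega, hp1, rfl⟩
    have h1 := hall v hv (2 * (p : ℚ) - 1 - 2 * (l : ℚ)) (by
      refine hpole.2.trans_le ?_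
      have : (0 : ℚ) ≤ p := Nat.cast_nonneg p
      linarith) ⟨0, by omega, hpole.1⟩
    rw [cnd_eq_zero_iff] at h1
    have h2 := h1.2 hpole j m' hm'
    have e1 : (((2 * (p : ℚ) - 1 - 2 * (l : ℚ) - (2 * (p : ℚ) - 1)) / 2 : ℚ) : K) =
        -(l : K) := by
      have : (2 * (p : ℚ) - 1 - 2 * (l : ℚ) - (2 * (p : ℚ) - 1)) / 2 = -(l : ℚ) := by ring
      rw [this]
      push_cast
      rfl
    rw [e1] at h2
    unfold opj at h2
    rw [jet_neg] at h2
    unfold val
    rw [hGc, GP_kill B S p (a + S) x eI eZ w _ _ (fun v hv => phi_of_mem _ _ hv) l]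
    exact h2
  -- the remaining functionals
  set U0 : Submodule K W := Submodule.span K {v0} with hU0
  have hU0le : U0 ≤ PEW B x eI w := by
    rw [hU0, Submodule.span_le, Set.singleton_subset_iff]
    exact hv0
  obtain ⟨c, hcli, hc⟩ := phi_trans hU0le
  set T2 : ℕ → Kil →ₗ[K] (Fin (Module.finrank K (W ⧸ U0)) → Fin a → K) :=
    fun l => gval B S (a + S) x a eI eZ p l (phi U0) ∘ₗ G ∘ₗ Kil.subtype with hT2
  have hT2r : ∀ l < p, Module.finrank K (LinearMap.range (T2 l)) ≤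
      Module.finrank K (LinearMap.ker (gmap (K := K) a c)) := by
    intro l hlp
    apply Submodule.finrank_mono
    rintro _ ⟨v, rfl⟩
    rw [LinearMap.mem_ker]
    funext j m'
    show ∑ i, c j i * PowerSeries.coeff (m' : ℕ)
      (val B S (a + S) x eI eZ p l (phi U0 i) (G v)) = 0
    have h1 := hkillK v v.2 j l hlp m' m'.2
    rw [hc j, val_sum_left, map_sum] at h1
    rw [← h1]
    exact Finset.sum_congr rfl fun i _ => by rw [PowerSeries.coeff_C_mul]
  have hgker := gmap_ker (K := K) a c hcli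
  rw [Fintype.card_fin, Fintype.card_fin] at hgker
  have hq1 := Submodule.finrank_quotient_add_finrank (PEW B x eI w)
  have hq2 := Submodule.finrank_quotient_add_finrank U0
  have hU01 : Module.finrank K U0 = 1 := by
    rw [hU0]
    exact finrank_span_singleton hv0ne
  set Kil2 : Submodule K Kil := ⨅ l ∈ range p, LinearMap.ker (T2 l) with hKil2
  have hcnt2 : Module.finrank K Kil ≤ Module.finrank K Kil2 +
      p * Module.finrank K (LinearMap.ker (gmap (K := K) a c)) := by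
    have h1 := cnt_inf (range p) T2
    have h2 : ∑ l ∈ range p, Module.finrank K (LinearMap.range (T2 l)) ≤
        ∑ _l ∈ range p, Module.finrank K (LinearMap.ker (gmap (K := K) a c)) :=
      Finset.sum_le_sum fun l hl => hT2r l (Finset.mem_range.1 hl)
    rw [Finset.sum_const, Finset.card_range, smul_eq_mul] at h2
    change Module.finrank K Kil ≤ Module.finrank K Kil2 + _ at h1
    omega
  have hmem2 : ∀ v : Kil, v ∈ Kil2 → ∀ j, ∀ l < p, ∀ m' < a, PowerSeries.coeff m'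
      (val B S (a + S) x eI eZ p l (phi U0 j) (G v)) = 0 := by
    intro v hv j l hlp m' hm'
    rw [hKil2] at hv
    have h1 := (Submodule.mem_iInf _).1 hv l
    have h2 := (Submodule.mem_iInf _).1 h1 (Finset.mem_range.2 hlp)
    exact congrFun (congrFun h2 j) ⟨m', hm'⟩
  refine ⟨Kil2.map Kil.subtype, ?_, ?_, ?_, ?_⟩
  · have h1 : Module.finrank K (Kil2.map Kil.subtype) = Module.finrank K Kil2 :=
      (LinearEquiv.finrank_eq (Submodule.equivMapOfInjective _ Kil.injective_subtype Kil2)).symm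
    rw [h1]
    -- arithmetic
    obtain ⟨g, hg⟩ : ∃ g, g = Module.finrank K (PEW B x eI w) := ⟨_, rfl⟩
    obtain ⟨y, hy⟩ : ∃ y, y = Module.finrank K W := ⟨_, rfl⟩
    obtain ⟨ks1, hks1⟩ : ∃ k, k = ksP B S a x 1 eI eZ w := ⟨_, rfl⟩
    obtain ⟨kr, hkr⟩ : ∃ k, k = Module.finrank K (LinearMap.ker (gmap (K := K) a c)) := ⟨_, rfl⟩
    obtain ⟨f1, hf1⟩ : ∃ k, k = Module.finrank K Kil := ⟨_, rfl⟩
    obtain ⟨f2, hf2⟩ : ∃ k, k = Module.finrank K Kil2 := ⟨_, rfl⟩
    obtain ⟨q1, hq1'⟩ : ∃ k, k = Module.finrank K (W ⧸ PEW B x eI w) := ⟨_, rfl⟩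
    obtain ⟨q2, hq2'⟩ : ∃ k, k = Module.finrank K (W ⧸ U0) := ⟨_, rfl⟩
    rw [← hq1', ← hg, ← hy] at hq1
    rw [← hq2', hU01, ← hy] at hq2
    rw [← hkr, ← hq1', ← hq2'] at hgker
    rw [← hf1, ← hf2, ← hkr] at hcnt2
    rw [← hf1, ← hks1] at hKil1
    rw [← hks1, ← hg] at hmin1
    rw [← hf2]
    have e1 : kr + q1 * a = q2 * a := hgker
    have e2 : q2 + 1 = q1 + g := by omega
    have e3 : kr + a = g * a := by
      have : (q2 + 1) * a = (q1 + g) * a := by rw [e2]
      rw [Nat.add_mul, Nat.add_mul] at this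
      omega
    have e4 : p * (2 * ks1 + 2 * (g * a) + 8 * H) ≤ p * (8 * H * m + a) :=
      Nat.mul_le_mul_left _ hmin1
    have e5 : p * (2 * ks1 + 2 * (g * a) + 8 * H) =
        2 * (p * ks1) + 2 * (p * (g * a)) + 8 * H * p := by ring
    have e6 : p * (8 * H * m + a) = 2 * (n * m) + p * a := by rw [hn]; ring
    have e7 : p * (kr + a) = p * (g * a) := by rw [e3]
    rw [Nat.mul_add] at e7
    omega
  · rintro _ ⟨v, hv, rfl⟩
    exact hallA v v.2
  · rintro _ ⟨v, hv, rfl⟩ φ hφ l hlp m' hm'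
    obtain ⟨d, hd⟩ := phi_span U0 φ (fun u hu => by
      rw [hU0, Submodule.mem_span_singleton] at hu
      obtain ⟨s, rfl⟩ := hu
      rw [map_smul, hφ, smul_zero])
    rw [hd, val_sum_left, map_sum]
    refine Finset.sum_eq_zero fun j _ => ?_
    rw [PowerSeries.coeff_C_mul]
    have h1 := hmem2 v hv j l hlp m' hm'
    rw [Submodule.subtype_apply, h1, mul_zero]
  · rintro _ ⟨v, hv, rfl⟩ hrel
    have hf := no_rel B H a S s0 x p hB hI2 hp eI eZ ε w hw hmin2
      (fromc m n (v : Fin m → Fin n → K))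
      (fun i => by rw [← hn]; exact fromc_mem m n (v : Fin m → Fin n → K) i) (fun w0 h1 β' hβ' hodd r hr => by
        rw [← hGc]
        exact hallA v v.2 w0 h1 β' hβ' hodd r hr) (fun φ l hlp => by
        rw [PowerSeries.X_pow_dvd_iff]
        intro m' hm'
        exact hrel φ l hlp m' hm')
    exact fromc_inj m n _ hf

end Pool.Agent.DP
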