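import Pool.Agent.DM.Defs
import Pool.Agent.DP.ZET

/-!
# DP: zero estimate

`P` = multiplier space, `W ⊇ P` = space containing the `zl n v` (`= ζ(n) v`); `e0` does not depend
on `p`, `M`.
-/

namespace Pool.Agent.DP

open Finset Polynomial Pool.Agent.ZC Pool.Agent.SI Pool.Agent.DM

theorem coeff_smul_row {K : Type*} [Field K] (m : ℕ) (c : K) (f g : PowerSeries K) :
    PowerSeries.coeff m (c • f + g) = c * PowerSeries.coeff m f + PowerSeries.coeff m g := by
  rw [map_add, map_smul, smul_eq_mul]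

theorem GG_eq_GP {K : Type*} [Field K] {P W : Type*} [AddCommGroup P] [Module K P]
    [AddCommGroup W] [Module K W] {x : ℕ} (bP : Module.Basis (Fin x) K P) (inc : P →ₗ[K] W)
    (zl : ℕ → P →ₗ[K] W) (B p T : ℕ) (φ : W →ₗ[K] K) (β' l : ℕ) :
    GG B p T bP (φ ∘ₗ inc) (fun n => φ ∘ₗ zl n) β' l =
      GP B p T (fun i => inc (eP bP i)) (fun n i => zl n (eP bP i)) φ β' l := rfl

/-- **zero estimate** -/
theorem dp_ze {K : Type*} [Field K] [CharZero K] {P W : Type*} [AddCommGroup P] [Module K P]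
    [FiniteDimensional K P] [AddCommGroup W] [Module K W] [FiniteDimensional K W]
    (B H a S s0 f0 : ℕ) (hB : 1 ≤ B) (hBH : B ≤ H) (hP : 1 ≤ Module.finrank K P)
    (hI1 : 4 * B ^ 2 * Module.finrank K P * (S + 1) + 2 * Module.finrank K W * a + 8 * H ≤
      8 * H * B * Module.finrank K P * (S + 1 - s0) + a)
    (hI2 : 8 * H * Module.finrank K P + 16 * H + 1 ≤ a) (hf0 : 2 * f0 ≤ a)
    (inc : P →ₗ[K] W) (hinc : Function.Injective inc) (zl : ℕ → P →ₗ[K] W) :
    ∃ e0 : P, e0 ≠ 0 ∧ ∃ p0 : ℕ, ∀ p ≥ p0, ∀ M : ℕ, 0 < M →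
      ∃ SS : Submodule K (FI B H S p → P), p * f0 ≤ Module.finrank K SS ∧ ∀ x ∈ SS,
        (∀ φ : W →ₗ[K] K, φ (inc e0) = 0 → ∀ l < p, ∀ m < a, ∑ y : FI B H S p,
          PowerSeries.coeff m (φ (inc (x y)) •
            dRow K M p (a + S) 0 l (y.1 : ℕ) (y.2.1 : ℕ) (y.2.2 : ℕ) +
            yRow K M p (a + S) (fun n => φ (zl n (x y))) l (y.1 : ℕ) (y.2.1 : ℕ) (y.2.2 : ℕ)) =
              0) ∧
        (∀ ψ : ℕ → P →ₗ[K] K, (∀ n ∈ oddS (a + S), s0 < n → ψ n = 0) → ∀ l < p, ∀ m < a,
          ∑ y : FI B H S p, PowerSeries.coeff m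
            (yRow K M p (a + S) (fun n => ψ n (x y)) l (y.1 : ℕ) (y.2.1 : ℕ) (y.2.2 : ℕ)) = 0) ∧
        (∀ φ : W →ₗ[K] K, φ (inc e0) = 1 → ∀ e : Fin (4 * H * p) → K,
          (∀ l < p, ∀ m < a, ∑ y : FI B H S p,
            PowerSeries.coeff m (φ (inc (x y)) •
              dRow K M p (a + S) 0 l (y.1 : ℕ) (y.2.1 : ℕ) (y.2.2 : ℕ) +
              yRow K M p (a + S) (fun n => φ (zl n (x y))) l (y.1 : ℕ) (y.2.1 : ℕ)
                (y.2.2 : ℕ)) +
            ∑ i, e i * PowerSeries.coeff m (ev K p l (Cn K M (i : ℕ))) = 0) → x = 0) := by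
  classical
  obtain ⟨x, hx⟩ : ∃ x, x = Module.finrank K P := ⟨_, rfl⟩
  obtain ⟨bP⟩ : Nonempty (Module.Basis (Fin x) K P) := by
    rw [hx]; exact ⟨Module.finBasis K P⟩
  rw [← hx] at hP hI1 hI2
  set eI : ℕ → W := fun i => inc (eP bP i) with heI
  set eZ : ℕ → ℕ → W := fun n i => zl n (eP bP i) with heZ
  have hI : LinearIndependent K fun i : Fin x => eI i := by
    have h1 := bP.linearIndependent.map' inc (LinearMap.ker_eq_bot.2 hinc)
    have h2 : (fun i : Fin x => eI i) = inc ∘ bP := by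
      funext i
      rw [heI]
      simp only [Function.comp_apply]
      rw [eP_fin]
    rw [h2]
    exact h1
  have hH : 1 ≤ H := by omega
  obtain ⟨v0, hv0ne, hv0s, p0, hkill⟩ := killers B H a S s0 x hB hH hP eI eZ hI
    (by
      have h1 : 8 * H * (B * x * (S + 1 - s0)) = 8 * H * B * x * (S + 1 - s0) := by ring
      rw [h1]
      exact hI1) hI2
  -- the vector `e0`
  obtain ⟨e0, he0⟩ : ∃ e0 : P, inc e0 = v0 := by
    have h1 : Submodule.span K (Set.range fun i : Fin x => eI i) ≤ LinearMap.range inc := by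
      rw [Submodule.span_le]
      rintro _ ⟨i, rfl⟩
      exact ⟨_, rfl⟩
    exact h1 hv0s
  refine ⟨e0, ?_, p0 + 1, fun p hp M hM => ?_⟩
  · rintro rfl
    rw [map_zero] at he0
    exact hv0ne he0.symm
  have hk := hkill p (by omega)
  obtain ⟨n, hn⟩ : ∃ n, n = 4 * H * p := ⟨_, rfl⟩
  have hp1 : 1 ≤ p := by omega
  have hnpos : 0 < n := by
    rw [hn]; positivity
  rw [← hn] at hk ⊢
  obtain ⟨m, ε, w, hw, Kil, hdim, hA, hU, hR⟩ := hk
  set G := opv p n ε w with hG
  have hGc : ∀ v, G v = comb w (fun i => pw p (ε i) (fromc m n v i)) := fun v => rfl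
  have hGinj : Function.Injective G := by
    rw [injective_iff_map_eq_zero]
    intro v hv
    rw [hGc] at hv
    exact fromc_inj m n v (comb_pw_inj (B * x) S s0 ε w hw p _ hv)
  -- a functional with value 1 at `v0`
  obtain ⟨φ0, hφ0⟩ : ∃ φ0 : W →ₗ[K] K, φ0 v0 = 1 := by
    obtain ⟨φ, hφ⟩ : ∃ φ : Module.Dual K W, φ v0 ≠ 0 := by
      by_contra hcon
      push Not at hcon
      exact hv0ne ((Module.forall_dual_apply_eq_zero_iff K v0).1 hcon)
    refine ⟨(φ v0)⁻¹ • φ, ?_⟩
    rw [LinearMap.smul_apply, smul_eq_mul, inv_mul_cancel₀ hφ]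
  -- relations with the `T` rows
  set Rl : ((Fin m → Fin n → K) × (Fin n → K)) →ₗ[K] (Fin p → Fin a → K) :=
    { toFun := fun ve l m' => PowerSeries.coeff (m' : ℕ)
        (val B S (a + S) x eI eZ p l φ0 (G ve.1)) +
        ∑ i, ve.2 i * PowerSeries.coeff (m' : ℕ) (ev K p l (Cn K M (i : ℕ)))
      map_add' := by
        intro u v
        funext l m'
        have h1 := congrFun (congrFun (map_add (gval B S (a + S) x a eI eZ p l
          (fun _ : Unit => φ0)) (G u.1) (G v.1)) ()) m'
        rw [gval_apply, Pi.add_apply, Pi.add_apply, gval_apply, gval_apply] at h1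
        simp only [Prod.fst_add, Prod.snd_add, map_add G, Pi.add_apply, add_mul,
          Finset.sum_add_distrib]
        rw [h1]
        ring
      map_smul' := by
        intro s u
        funext l m'
        have h1 := congrFun (congrFun (map_smul (gval B S (a + S) x a eI eZ p l
          (fun _ : Unit => φ0)) s (G u.1)) ()) m'
        rw [gval_apply, Pi.smul_apply, Pi.smul_apply, gval_apply] at h1
        simp only [Prod.smul_fst, Prod.smul_snd, map_smul G, Pi.smul_apply, smul_eq_mul,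
          RingHom.id_apply, mul_add, Finset.mul_sum] at h1 ⊢
        rw [h1]
        congr 1
        exact Finset.sum_congr rfl fun i _ => by ring } with hRl
  have hRl0 : ∀ v e, Rl (v, e) = 0 ↔ ∀ l < p, ∀ m' < a, PowerSeries.coeff m'
      (val B S (a + S) x eI eZ p l φ0 (G v)) +
        ∑ i, e i * PowerSeries.coeff m' (ev K p l (Cn K M (i : ℕ))) = 0 := by
    intro v e
    constructor
    · intro h l hl m' hm'
      exact congrFun (congrFun h ⟨l, hl⟩) ⟨m', hm'⟩
    · intro h
      funext l m'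
      exact h l l.2 m' m'.2
  -- all functionals
  have hφall : ∀ v ∈ Kil, ∀ φ : W →ₗ[K] K, ∀ l < p, ∀ m' < a, PowerSeries.coeff m'
      (val B S (a + S) x eI eZ p l φ (G v)) = φ v0 * PowerSeries.coeff m'
      (val B S (a + S) x eI eZ p l φ0 (G v)) := by
    intro v hv φ l hl m' hm'
    have h1 : φ = φ v0 • φ0 + (1 : K) • (φ - φ v0 • φ0) := by rw [one_smul]; abel
    have h2 : (φ - φ v0 • φ0) v0 = 0 := by
      rw [LinearMap.sub_apply, LinearMap.smul_apply, hφ0, smul_eq_mul, mul_one, sub_self]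
    have h3 := hU v hv _ h2 l hl m' hm'
    conv_lhs => rw [h1]
    rw [val_add_left, val_smul_left, one_smul, map_add, h3, add_zero, PowerSeries.coeff_C_mul]
  set N : Submodule K ((Fin m → Fin n → K) × (Fin n → K)) :=
    LinearMap.ker Rl ⊓ Kil.comap (LinearMap.fst K _ _) with hN
  have hNinj : Function.Injective ((LinearMap.snd K (Fin m → Fin n → K) (Fin n → K)) ∘ₗ
      N.subtype) := by
    rw [injective_iff_map_eq_zero]
    rintro ⟨⟨v, e⟩, hve⟩ h
    have he : e = 0 := h
    subst he
    obtain ⟨h1, h2⟩ := Submodule.mem_inf.1 hve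
    have h3 : v ∈ Kil := h2
    rw [LinearMap.mem_ker, hRl0] at h1
    have h4 : v = 0 := hR v h3 (fun φ l hl m' hm' => by
      rw [hφall v h3 φ l hl m' hm']
      have h5 := h1 l hl m' hm'
      simp only [Pi.zero_apply, zero_mul, Finset.sum_const_zero, add_zero] at h5
      rw [h5, mul_zero])
    subst h4
    rfl
  have hNdim : Module.finrank K N ≤ n := by
    have h1 := LinearMap.finrank_le_finrank_of_injective hNinj
    simpa using h1
  set KT : Submodule K (Fin m → Fin n → K) := N.map (LinearMap.fst K _ _) with hKT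
  have hKTdim : Module.finrank K KT ≤ n := (Submodule.finrank_map_le _ _).trans hNdim
  have hKTle : KT ≤ Kil := by
    rintro _ ⟨⟨v, e⟩, hve, rfl⟩
    exact (Submodule.mem_inf.1 hve).2
  obtain ⟨C0, hC0⟩ := Submodule.exists_isCompl (KT.comap Kil.subtype)
  set SS0 : Submodule K (Fin m → Fin n → K) := C0.map Kil.subtype with hSS0
  have hSS0le : SS0 ≤ Kil := by
    rintro _ ⟨v, _, rfl⟩
    exact v.2
  have hSS0dim : Module.finrank K Kil ≤ Module.finrank K SS0 + n := by
    have h1 := Submodule.finrank_add_eq_of_isCompl hC0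
    have h2 : Module.finrank K SS0 = Module.finrank K C0 :=
      (LinearEquiv.finrank_eq (Submodule.equivMapOfInjective _ Kil.injective_subtype C0)).symm
    have h3 : Module.finrank K (KT.comap Kil.subtype) ≤ Module.finrank K KT := by
      refine LinearMap.finrank_le_finrank_of_injective
        (f := (Kil.subtype ∘ₗ (KT.comap Kil.subtype).subtype).codRestrict KT
          (fun v => v.2)) ?_
      intro v v' h
      have h4 := congrArg (fun u : KT => (u : Fin m → Fin n → K)) h
      exact Subtype.ext (Subtype.ext h4)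
    omega
  have hSS0KT : ∀ v ∈ SS0, v ∈ KT → v = 0 := by
    rintro _ ⟨v, hv, rfl⟩ h
    have h1 : v ∈ KT.comap Kil.subtype ⊓ C0 := ⟨h, hv⟩
    rw [hC0.inf_eq_bot] at h1
    rw [(Submodule.mem_bot K).1 h1, map_zero]
  -- the dictionary
  have hrange : SS0.map G ≤ LinearMap.range (thxP B H S p M bP) := by
    rintro _ ⟨v, hv, rfl⟩
    have hv' := hSS0le hv
    obtain ⟨X, hX⟩ := thxP_surj B H S p M hB hBH hM hp1 bP (G v)
      (by
        intro β k h0
        by_contra hcon
        apply h0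
        rw [hGc]
        show ∑ i, pw p (ε i) (fromc m n v i) * C (w i β k) = 0
        refine Finset.sum_eq_zero fun i _ => ?_
        have h1 : w i β k = 0 := by
          by_contra h2
          have h3 := hw.2 i β k h2
          exact hcon ⟨h3.1, h3.2.2.1⟩
        rw [h1, C_0, mul_zero])
      (fun β k => by
        rw [hGc]
        exact comb_pw_parity (B * x) S s0 ε w hw p _ β k)
      (fun β k => by
        rw [hGc, ← hn]
        exact comb_pw_natDegree (B * x) S s0 ε w hw p n hnpos _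
          (fun i => fromc_mem m n v i) β k)
      (fun β' hβ' w0 h1 h2 r hr => hA v hv' w0 h2 β' hβ' h1 r hr)
    exact ⟨X, hX⟩
  have hlow : ∀ v β k, k < s0 → G v β k = 0 := by
    intro v β k hk
    rw [hGc]
    show ∑ i, pw p (ε i) (fromc m n v i) * C (w i β k) = 0
    refine Finset.sum_eq_zero fun i _ => ?_
    have h1 : w i β k = 0 := by
      by_contra h2
      have h3 := hw.2 i β k h2
      omega
    rw [h1, C_0, mul_zero]
  refine ⟨(SS0.map G).comap (thxP B H S p M bP), ?_, ?_⟩
  · have h1 := Submodule.map_comap_eq_self hrange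
    have h2 : Module.finrank K (SS0.map G) = Module.finrank K SS0 :=
      (LinearEquiv.finrank_eq (Submodule.equivMapOfInjective G hGinj SS0)).symm
    have h3 := Submodule.finrank_map_le (thxP (K := K) B H S p M bP)
      ((SS0.map G).comap (thxP B H S p M bP))
    rw [h1, h2] at h3
    have h4 : p * (2 * f0) ≤ p * a := Nat.mul_le_mul_left _ hf0
    have h5 : p * (2 * f0) = 2 * (p * f0) := by ring
    have h6 : 8 * H * p = 2 * n := by rw [hn]; ring
    omega
  · intro X hX
    obtain ⟨v, hv, hvX⟩ := hX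
    have hvX' : thxP B H S p M bP X = G v := hvX.symm
    have hv' := hSS0le hv
    have hval : ∀ (φ : W →ₗ[K] K) (l m' : ℕ), ∑ y : FI B H S p,
        PowerSeries.coeff m' (φ (inc (X y)) •
          dRow K M p (a + S) 0 l (y.1 : ℕ) (y.2.1 : ℕ) (y.2.2 : ℕ) +
          yRow K M p (a + S) (fun n => φ (zl n (X y))) l (y.1 : ℕ) (y.2.1 : ℕ) (y.2.2 : ℕ)) =
        PowerSeries.coeff m' (val B S (a + S) x eI eZ p l φ (G v)) := by
      intro φ l m'
      have h1 := rowP B H S p M (a + S) bP X (φ ∘ₗ inc) (fun n => φ ∘ₗ zl n) l m'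
      rw [hvX'] at h1
      exact h1
    refine ⟨?_, ?_, ?_⟩
    · intro φ hφ l hl m' hm'
      rw [he0] at hφ
      rw [hval φ l m']
      exact hU v hv' φ hφ l hl m' hm'
    · intro ψ hψ l _ m' _
      have h1 := rowP B H S p M (a + S) bP X 0 ψ l m'
      rw [hvX'] at h1
      simp only [LinearMap.zero_apply, zero_smul, zero_add] at h1
      rw [h1, map_sum]
      refine Finset.sum_eq_zero fun β' _ => ?_
      rw [map_sum]
      refine Finset.sum_eq_zero fun k _ => ?_
      by_cases hk : k < s0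
      · rw [hlow v β' k hk, map_zero, zero_mul, map_zero]
      · have h2 : hs K k (GG B p (a + S) bP (0 : P →ₗ[K] K) ψ β' l) = 0 := by
          unfold GG
          rw [LinearMap.zero_apply, map_zero, zero_mul, zero_add]
          refine zeg_hs_zero _ _ s0 k (by omega) _ fun i hi hi2 => ?_
          rw [hψ i hi hi2, LinearMap.zero_apply]
        rw [h2, mul_zero, map_zero]
    · intro φ hφ e he
      rw [he0] at hφ
      have hvKT : v ∈ KT := by
        refine ⟨(v, e), Submodule.mem_inf.2 ⟨?_, hv'⟩, rfl⟩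
        rw [LinearMap.mem_ker, hRl0]
        intro l hl m' hm'
        have h1 := he l hl m' hm'
        rw [hval φ l m', hφall v hv' φ l hl m' hm', hφ, one_mul] at h1
        exact h1
      have hv0 := hSS0KT v hv hvKT
      apply thxP_inj B H S p M hB hM bP X
      rw [hvX', hv0, map_zero]

end Pool.Agent.DP
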