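import Pool.Agent.DP.PRW
import Pool.Agent.DP.BDP
import Pool.Agent.DP.ZEP
import Pool.Agent.DM.ONE

/-!
# DP: the determinant inequality for fixed data and `M` large

`det_ineq_joint` with `T` rows `Cn_j e0`, `F` rows `(FI, i)`, `i < x = dim P`; the coordinate `e0` is
the shorn one: the other coordinates of `W` (basis `b` containing `e0`, real numbers `b k / e0`) and
the low zeta values `n ≤ s0` (coordinates `(n, i')`, real numbers `ζ(n) b_i' / e0`) are the extra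
columns. After the shear the row `(y, i)` is `(b_i / e0) *` the real row with the true zeta values.
-/

namespace Pool.Agent.DP

open Finset Pool.Agent.ZC Pool.Agent.SI Pool.Agent.DM Pool.Agent.DK Module

/-- multiplication by `ζ(n)` from `P` to `W` -/
noncomputable def zmul (P W : Submodule ℚ ℝ) (n : ℕ) (h : ∀ v ∈ P, zr n * v ∈ W) : P →ₗ[ℚ] W where
  toFun v := ⟨zr n * v, h v v.2⟩
  map_add' u v := by
    ext
    simp [mul_add]
  map_smul' c v := by
    ext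
    simp

/-- a basis containing a given non-zero vector -/
theorem exists_basis_with {W : Type} [AddCommGroup W] [Module ℚ W] [FiniteDimensional ℚ W] (w0 : W)
    (h : w0 ≠ 0) : ∃ (ι : Type) (_ : Fintype ι) (b : Basis ι ℚ W) (i0 : ι), b i0 = w0 := by
  have hli : LinearIndepOn ℚ id ({w0} : Set W) := by
    rw [linearIndepOn_singleton_iff]
    exact h
  have hmem0 : w0 ∈ hli.extend (Set.subset_univ _) := hli.subset_extend _ (Set.mem_singleton _)
  exact ⟨_, FiniteDimensional.fintypeBasisIndex (Basis.extend hli), Basis.extend hli,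
    ⟨w0, hmem0⟩, Basis.extend_apply_self hli _⟩

theorem dp_one (P W : Submodule ℚ ℝ) [FiniteDimensional ℚ P] [FiniteDimensional ℚ W] (hPW : P ≤ W)
    (B H a S s0 f0 : ℕ) (hB : 1 ≤ B) (hBH : B ≤ H) (hP : 1 ≤ finrank ℚ P)
    (hI1 : 4 * B ^ 2 * finrank ℚ P * (S + 1) + 2 * finrank ℚ W * a + 8 * H ≤
      8 * H * B * finrank ℚ P * (S + 1 - s0) + a)
    (hI2 : 8 * H * finrank ℚ P + 16 * H + 1 ≤ a) (hf0 : 2 * f0 ≤ a)
    (hmul : ∀ n ∈ oddS (a + S), s0 < n → ∀ v ∈ P, zr n * v ∈ W) :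
    ∃ D0 : ℕ, 0 < D0 ∧ ∃ Λ : ℝ, 1 ≤ Λ ∧ ∃ M0 : ℕ, ∀ M ≥ M0,
      1 ≤ (((D0 * Nat.lcmUpto M ^ (a + S + 1) : ℕ) : ℝ) *
          (Λ * (1000 * (H : ℝ) * (a + S + 1)) ^ (5 * (4 * H * ((a + S + 1) * M))))) ^
            (4 * H * (finrank ℚ P * (B * (S + 1)) + 1) * ((a + S + 1) * M)) *
        (((((finrank ℚ W + finrank ℚ P * (a + S + 1)) * (((a + S + 1) * M) * a)).factorial : ℕ) : ℝ) *
          Λ ^ ((finrank ℚ W + finrank ℚ P * (a + S + 1)) * (((a + S + 1) * M) * a))) *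
        (4 / 5 : ℝ) ^ ((((a + S + 1) * M) * f0) * ((((a + S + 1) * M) * f0) - 1) / 2) := by
  classical
  have hH : 1 ≤ H := hB.trans hBH
  have ha : 1 ≤ a := by omega
  set T := a + S with hTdef
  -- multiplication maps
  set inc : P →ₗ[ℚ] W := Submodule.inclusion hPW with hinc
  set zl : ℕ → P →ₗ[ℚ] W := fun n =>
    if h : n ∈ oddS T ∧ s0 < n then zmul P W n (hmul n h.1 h.2) else 0 with hzl
  have hzl1 : ∀ n ∈ oddS T, s0 < n → ∀ v : P, ((zl n v : W) : ℝ) = zr n * v := by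
    intro n hn hs v
    simp only [hzl]
    rw [dif_pos ⟨hn, hs⟩]
    rfl
  have hzl0 : ∀ n, ¬ s0 < n → zl n = 0 := by
    intro n hs
    simp only [hzl]
    rw [dif_neg (fun h => hs h.2)]
  obtain ⟨e0, he0, p0, hp0⟩ := dp_ze (K := ℚ) B H a S s0 f0 hB hBH hP hI1 hI2 hf0 inc
    (Submodule.inclusion_injective hPW) zl
  -- bases
  set w0 : W := inc e0 with hw0
  have hw00 : w0 ≠ 0 := by
    intro h
    exact he0 (Submodule.inclusion_injective hPW (by rw [map_zero]; exact h))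
  have he0r : (e0 : ℝ) ≠ 0 := by
    intro h
    exact he0 (Subtype.ext h)
  obtain ⟨ι, _, b, i0, hb0⟩ := exists_basis_with w0 hw00
  have hcoord : ∀ k : ι, b.coord k w0 = if k = i0 then 1 else 0 := by
    intro k
    rw [← hb0, Basis.coord_apply, Basis.repr_self, Finsupp.single_apply]
    simp only [eq_comm]
  have hcardι : Fintype.card ι = finrank ℚ W := (finrank_eq_card_basis b).symm
  set bP := finBasis ℚ P with hbP
  set x := finrank ℚ P with hx
  set y := finrank ℚ W with hy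
  have hsum : ∀ w : W, (w : ℝ) = ∑ k : ι, (b.coord k w : ℝ) * ((b k : W) : ℝ) := by
    intro w
    have h1 := congrArg (fun u : W => (u : ℝ)) (b.sum_repr w)
    simp only [Submodule.coe_sum, Submodule.coe_smul] at h1
    rw [← h1]
    refine sum_congr rfl fun k _ => ?_
    rw [Rat.smul_def, Basis.coord_apply]
  set Low := (oddS T).filter (fun n => n ≤ s0) with hLow
  set J : Type := {k : ι // k ≠ i0} ⊕ (Low × Fin x) with hJ
  -- functionals
  set qJ : J → P →ₗ[ℚ] ℚ := Sum.elim (fun k => (b.coord k.1).comp inc) (fun _ => 0) with hqJ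
  set cJ : J → ℕ → P →ₗ[ℚ] ℚ := Sum.elim (fun k n => (b.coord k.1).comp (zl n))
    (fun e n => if n = (e.1 : ℕ) then bP.coord e.2 else 0) with hcJ
  set q0 : P →ₗ[ℚ] ℚ := (b.coord i0).comp inc with hq0
  set c0 : ℕ → P →ₗ[ℚ] ℚ := fun n => (b.coord i0).comp (zl n) with hc0
  set vJ : J → ℝ := Sum.elim (fun k => ((b k.1 : W) : ℝ) / e0)
    (fun e => zr (e.1 : ℕ) * ((bP e.2 : P) : ℝ) / e0) with hvJ
  -- denominators
  obtain ⟨D0, hD0, hDen⟩ := common_den
    ((univ : Finset (Option J × Fin x × Option (Fin (T + 1)))))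
    (fun e => match e.1, e.2.2 with
      | none, none => q0 (bP e.2.1)
      | some j, none => qJ j (bP e.2.1)
      | none, some n => c0 n (bP e.2.1)
      | some j, some n => cJ j n (bP e.2.1))
  have hD0q : ∀ i, ∃ w : ℤ, (D0 : ℚ) * q0 (bP i) = w := fun i =>
    hDen (none, i, none) (mem_univ _)
  have hDJq : ∀ j i, ∃ w : ℤ, (D0 : ℚ) * qJ j (bP i) = w := fun j i =>
    hDen (some j, i, none) (mem_univ _)
  have hlt : ∀ n ∈ oddS T, n < T + 1 := fun n hn => by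
    simp only [oddS, mem_filter, mem_Icc] at hn
    omega
  have hD0c : ∀ i, ∀ n ∈ oddS T, ∃ w : ℤ, (D0 : ℚ) * c0 n (bP i) = w := fun i n hn =>
    hDen (none, i, some ⟨n, hlt n hn⟩) (mem_univ _)
  have hDJc : ∀ j i, ∀ n ∈ oddS T, ∃ w : ℤ, (D0 : ℚ) * cJ j n (bP i) = w := fun j i n hn =>
    hDen (some j, i, some ⟨n, hlt n hn⟩) (mem_univ _)
  -- constants
  obtain ⟨M2, hM2⟩ := dm_bd_t H a S hH ha
  obtain ⟨M3, hM3⟩ := dp_bd_g B H a S T hB hBH ha
  choose M4 hM4 using fun n : ℕ => dm_bd_y B H a S T hB hBH ha (Pi.single n 1)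
  set Λ1 : ℝ := 1 + ∑ i : Fin x, |((bP i : P) : ℝ) / e0| +
    ∑ j : J, ∑ i : Fin x, (|(qJ j (bP i) : ℝ)| + ∑ n ∈ oddS T, |(cJ j n (bP i) : ℝ)|) with hΛ1
  have hA0 : (0 : ℝ) ≤ ∑ i : Fin x, |((bP i : P) : ℝ) / e0| := sum_nonneg fun _ _ => abs_nonneg _
  have hB00 : ∀ (j : J) (i : Fin x), (0 : ℝ) ≤ |(qJ j (bP i) : ℝ)| +
      ∑ n ∈ oddS T, |(cJ j n (bP i) : ℝ)| := fun j i =>
    add_nonneg (abs_nonneg _) (sum_nonneg fun _ _ => abs_nonneg _)
  have hB0 : (0 : ℝ) ≤ ∑ j : J, ∑ i : Fin x, (|(qJ j (bP i) : ℝ)| +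
      ∑ n ∈ oddS T, |(cJ j n (bP i) : ℝ)|) := sum_nonneg fun j _ => sum_nonneg fun i _ => hB00 j i
  have hΛ1a : ∀ i, |((bP i : P) : ℝ) / e0| ≤ Λ1 := fun i => by
    have := single_le_sum (f := fun i : Fin x => |((bP i : P) : ℝ) / e0|)
      (fun _ _ => abs_nonneg _) (mem_univ i)
    linarith
  have hΛ1b : ∀ j i, |(qJ j (bP i) : ℝ)| + ∑ n ∈ oddS T, |(cJ j n (bP i) : ℝ)| ≤ Λ1 := fun j i => by
    have h1 := single_le_sum (f := fun i : Fin x => |(qJ j (bP i) : ℝ)| +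
      ∑ n ∈ oddS T, |(cJ j n (bP i) : ℝ)|) (fun i _ => hB00 j i) (mem_univ i)
    have h2 := single_le_sum (f := fun j : J => ∑ i : Fin x, (|(qJ j (bP i) : ℝ)| +
      ∑ n ∈ oddS T, |(cJ j n (bP i) : ℝ)|)) (fun j _ => sum_nonneg fun i _ => hB00 j i) (mem_univ j)
    linarith
  have hΛ11 : 1 ≤ Λ1 := by linarith
  have hv0 : (0 : ℝ) ≤ ∑ j, |vJ j| := sum_nonneg fun _ _ => abs_nonneg _
  set Λ : ℝ := 10 * Λ1 + ∑ j, |vJ j| with hΛ
  have hΛge1 : 10 * Λ1 ≤ Λ := by linarith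
  have hΛge2 : 1 + ∑ j, |vJ j| ≤ Λ := by linarith
  have hΛone : 1 ≤ Λ := by linarith
  refine ⟨D0, hD0, Λ, hΛone, p0 + M2 + M3 + (∑ n ∈ oddS T, M4 n) + 1, fun M hM => ?_⟩
  have hMM4 : ∀ n ∈ oddS T, M4 n ≤ M := fun n hn => by
    have := single_le_sum (f := M4) (fun _ _ => Nat.zero_le _) hn
    omega
  have hTr := hM2 M (by omega)
  have hGr := hM3 M (by omega)
  have hYr := fun n hn => hM4 n M (hMM4 n hn)
  have hMpos : 0 < M := by omega
  obtain ⟨p, hp⟩ : ∃ p, p = (T + 1) * M := ⟨_, rfl⟩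
  have hpM : M ≤ p := by rw [hp]; exact Nat.le_mul_of_pos_left _ (by omega)
  have hp1 : 1 ≤ p := by omega
  have hTc : ((T : ℕ) : ℝ) = (a : ℝ) + S := by rw [hTdef]; push_cast; ring
  rw [← hp] at hTr hGr hYr ⊢
  obtain ⟨SS, hSS1, hSS2⟩ := hp0 p (by omega) M hMpos
  set dd := Nat.lcmUpto M with hdd
  have hdd0 : 0 < dd := Nat.lcmUpto_pos _
  have hdv : ∀ q : ℕ, 1 ≤ q → q ≤ M → q ∣ dd := fun q h1 h2 => dvd_lcmUpto h1 h2
  have hHr : (1 : ℝ) ≤ H := by exact_mod_cast hH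
  set N0 : ℝ := (1000 * (H : ℝ) * (a + S + 1)) ^ (5 * (4 * H * p)) with hN0
  have hN1 : (1 : ℝ) ≤ N0 := by
    apply one_le_pow₀
    have h1 : (1 : ℝ) ≤ (a : ℝ) + S + 1 := by
      have h2 : (0 : ℝ) ≤ a := by positivity
      have h3 : (0 : ℝ) ≤ S := by positivity
      linarith
    nlinarith
  have hsingle : ∀ n : ℕ, (fun k => (((Pi.single n 1 : ℕ → ℚ) k : ℚ) : ℝ)) =
      (Pi.single n 1 : ℕ → ℝ) := cast_single ℝ
  -- bounds of the two kinds of entries
  have hbG : ∀ (f : FI B H S p) (c : Fin p × Fin a),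
      |((PowerSeries.coeff (c.2 : ℕ) (dRow ℚ M p T 0 c.1 f.1 f.2.1 f.2.2) : ℚ) : ℝ)| ≤ N0 := by
    intro f c
    rw [dm_cast_d]
    have h1 := hGr f.1 f.1.2 f.2.1 (Nat.lt_succ_iff.1 f.2.1.2) f.2.2 f.2.2.2 c.1 c.1.2 c.2 c.2.2
    have e : (fun i => (((0 : ℕ → ℚ) i : ℚ) : ℝ)) = (0 : ℕ → ℝ) := by
      funext i
      simp
    rw [e]
    exact h1
  have hbY : ∀ (f : FI B H S p) (c : Fin p × Fin a), ∀ n ∈ oddS T,
      |((PowerSeries.coeff (c.2 : ℕ) (yRow ℚ M p T (Pi.single n 1) c.1 f.1 f.2.1 f.2.2) : ℚ) : ℝ)| ≤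
        N0 := by
    intro f c n hn
    rw [dm_cast_y, hsingle]
    exact hYr n hn f.1 f.1.2 f.2.1 (Nat.lt_succ_iff.1 f.2.1.2) f.2.2 f.2.2.2 c.1 c.1.2 c.2 c.2.2
  -- transfer of `SS`
  set L : ((FI B H S p × Fin x) → ℚ) →ₗ[ℚ] (FI B H S p → P) :=
    { toFun := fun s f => ∑ i, s (f, i) • bP i
      map_add' := by
        intro s t
        funext f
        show ∑ i, (s + t) (f, i) • bP i = ∑ i, s (f, i) • bP i + ∑ i, t (f, i) • bP i
        rw [← sum_add_distrib]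
        exact sum_congr rfl fun i _ => by rw [Pi.add_apply, add_smul]
      map_smul' := by
        intro c s
        funext f
        show ∑ i, (c • s) (f, i) • bP i = c • ∑ i, s (f, i) • bP i
        rw [smul_sum]
        exact sum_congr rfl fun i _ => by rw [Pi.smul_apply, smul_eq_mul, mul_smul] } with hL
  have hLinj : ∀ s, L s = 0 → s = 0 := by
    intro s hs
    funext e
    obtain ⟨f, i⟩ := e
    have h1 := congrFun hs f
    simp only [hL, LinearMap.coe_mk, AddHom.coe_mk, Pi.zero_apply] at h1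
    exact Fintype.linearIndependent_iff.1 bP.linearIndependent (fun i => s (f, i)) h1 i
  have hLker : LinearMap.ker L = ⊥ := by
    rw [LinearMap.ker_eq_bot']
    exact hLinj
  have hLdim : finrank ℚ ((FI B H S p × Fin x) → ℚ) = finrank ℚ (FI B H S p → P) := by
    rw [finrank_pi, Module.finrank_pi_fintype]
    simp only [Fintype.card_prod, Fintype.card_fin, sum_const, card_univ, smul_eq_mul]
    rfl
  set Le := LinearEquiv.ofInjectiveOfFinrankEq L (LinearMap.ker_eq_bot.1 hLker) hLdim with hLe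
  have hLe' : ∀ s, Le s = L s := fun s => rfl
  set SS' : Submodule ℚ ((FI B H S p × Fin x) → ℚ) := SS.map (Le.symm : _ →ₗ[ℚ] _) with hSS'
  have hSS'1 : p * f0 ≤ finrank ℚ SS' := by
    rw [hSS', LinearEquiv.finrank_map_eq]
    exact hSS1
  have hSS'2 : ∀ s ∈ SS', L s ∈ SS := by
    intro s hs
    rw [hSS', Submodule.mem_map] at hs
    obtain ⟨u, hu, rfl⟩ := hs
    have : L ((Le.symm : _ →ₗ[ℚ] _) u) = u := by
      rw [← hLe']
      exact Le.apply_symm_apply u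
    rw [this]
    exact hu
  have hrow : ∀ (q : P →ₗ[ℚ] ℚ) (c : ℕ → P →ₗ[ℚ] ℚ) (s : (FI B H S p × Fin x) → ℚ)
      (cc : Fin p × Fin a), ∑ e : FI B H S p × Fin x, s e * prow M p T q c (bP e.2) cc.1 e.1.1
        e.1.2.1 e.1.2.2 cc.2 = ∑ f : FI B H S p, prow M p T q c (L s f) cc.1 f.1 f.2.1 f.2.2 cc.2 := by
    intro q c s cc
    rw [Fintype.sum_prod_type]
    refine sum_congr rfl fun f _ => ?_
    simp only [hL, LinearMap.coe_mk, AddHom.coe_mk]
    rw [prow_sum]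
  -- series
  have hser : ∀ f : FI B H S p, ∃ α : Fin (4 * H * p) → ℝ, ∀ c : Fin p × Fin a,
      HasSum (fun κ : ℕ => dlam (4 * H * p) p (2 * (f.1 : ℕ) + 1) f.2.1
          (fB ℝ M p f.1 f.2.2) κ * PowerSeries.coeff (c.2 : ℕ) (yl ℝ p c.1 ^ (4 * H * p + κ)))
        (PowerSeries.coeff (c.2 : ℕ) (dRow ℝ M p T zr c.1 f.1 f.2.1 f.2.2) -
          ∑ i, α i * PowerSeries.coeff (c.2 : ℕ) (ev ℝ p c.1 (Cn ℝ M i))) := by
    intro f
    obtain ⟨Q, hQ, hser⟩ := dm_level p (2 * (f.1 : ℕ) + 1) (4 * H * p) T S f.2.1 hp1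
      (by omega) (Nat.lt_succ_iff.1 f.2.1.2) (fB ℝ M p f.1 f.2.2)
      (fB_mem H M p f.1 f.2.2 f.2.2.2)
      (fun k hk hkp => by
        rw [fB, Polynomial.eval_mul, an_root M p _ k hp1 (odd_two_mul_add_one _) hk hkp, zero_mul])
    obtain ⟨α, hα⟩ := exists_comb ℝ M (4 * H * p) Q hQ
    refine ⟨α, fun c => ?_⟩
    have h1 := hser c.1 c.1.2 c.2 (by
      have h2 := c.2.2
      omega)
    convert h1 using 1
    have h6 : PowerSeries.coeff (c.2 : ℕ) (ev ℝ p c.1 Q) =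
        ∑ i, α i * PowerSeries.coeff (c.2 : ℕ) (ev ℝ p c.1 (Cn ℝ M i)) := by
      rw [hα, ONE_ev_sum, map_sum]
      refine sum_congr rfl fun i _ => ?_
      rw [ONE_ev_mul, ONE_ev_C, PowerSeries.coeff_C_mul]
    rw [h6]
    rfl
  have hbd : ∀ f : FI B H S p, ∀ κ : ℕ, ∀ c : Fin p × Fin a,
      |dlam (4 * H * p) p (2 * (f.1 : ℕ) + 1) f.2.1 (fB ℝ M p f.1 f.2.2) κ *
        PowerSeries.coeff (c.2 : ℕ) (yl ℝ p c.1 ^ (4 * H * p + κ))| ≤
        N0 * (4 / 5 : ℝ) ^ (2 * κ) := by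
    intro f κ c
    have h1 := bd_dlam (4 * H * (T + 1)) M H p S (Nat.mul_pos (by omega) (by omega)) hH
      (by nlinarith) hp1 hMpos (by rw [hp]; exact (by ring_nf; exact le_rfl))
      (by nlinarith) (by nlinarith) f.1
      (lt_of_lt_of_le f.1.2 hBH) f.2.2 f.2.2.2 c.1 c.1.2 f.2.1 (Nat.lt_succ_iff.1 f.2.1.2) c.2 κ
    refine h1.trans ?_
    have h2 : (100 * ((4 * H * (T + 1) : ℕ) : ℝ)) ^ (5 * (4 * H * p)) ≤ N0 := by
      refine pow_le_pow_left₀ (by positivity) ?_ _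
      push_cast
      rw [hTc]
      have h3 : (0 : ℝ) ≤ (H : ℝ) * (a + S + 1) := by positivity
      linarith
    exact mul_le_mul_of_nonneg_right h2 (by positivity)
  -- the shear
  have hshear : ∀ (v : P) (f : FI B H S p) (c : Fin p × Fin a),
      ((prow M p T q0 c0 v c.1 f.1 f.2.1 f.2.2 c.2 : ℚ) : ℝ) +
        ∑ k : {k : ι // k ≠ i0}, ((b k.1 : W) : ℝ) / e0 *
          ((prow M p T ((b.coord k.1).comp inc) (fun n => (b.coord k.1).comp (zl n)) v
            c.1 f.1 f.2.1 f.2.2 c.2 : ℚ) : ℝ) =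
      (v : ℝ) / e0 * ((PowerSeries.coeff (c.2 : ℕ) (dRow ℚ M p T 0 c.1 f.1 f.2.1 f.2.2) : ℚ) : ℝ) +
        ∑ n ∈ oddS T, ((zl n v : W) : ℝ) / e0 *
          ((PowerSeries.coeff (c.2 : ℕ) (yRow ℚ M p T (Pi.single n 1) c.1 f.1 f.2.1 f.2.2) : ℚ) :
            ℝ) := by
    intro v f c
    set Dg : ℝ := ((PowerSeries.coeff (c.2 : ℕ) (dRow ℚ M p T 0 c.1 f.1 f.2.1 f.2.2) : ℚ) : ℝ)
      with hDg
    set E : ℕ → ℝ := fun n =>
      ((PowerSeries.coeff (c.2 : ℕ) (yRow ℚ M p T (Pi.single n 1) c.1 f.1 f.2.1 f.2.2) : ℚ) : ℝ)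
      with hE
    have e1 : ∀ k : ι, ((prow M p T ((b.coord k).comp inc) (fun n => (b.coord k).comp (zl n)) v
            c.1 f.1 f.2.1 f.2.2 c.2 : ℚ) : ℝ) = (b.coord k (inc v) : ℝ) * Dg +
            ∑ n ∈ oddS T, (b.coord k (zl n v) : ℝ) * E n := by
      intro k
      rw [prow_real]
      rfl
    have e2 : ((b i0 : W) : ℝ) / e0 = 1 := by
      rw [hb0, hw0]
      exact div_self he0r
    have e3 : ((prow M p T q0 c0 v c.1 f.1 f.2.1 f.2.2 c.2 : ℚ) : ℝ) +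
        ∑ k : {k : ι // k ≠ i0}, ((b k.1 : W) : ℝ) / e0 *
          ((prow M p T ((b.coord k.1).comp inc) (fun n => (b.coord k.1).comp (zl n)) v
            c.1 f.1 f.2.1 f.2.2 c.2 : ℚ) : ℝ) =
        ∑ k : ι, ((b k : W) : ℝ) / e0 * ((b.coord k (inc v) : ℝ) * Dg +
            ∑ n ∈ oddS T, (b.coord k (zl n v) : ℝ) * E n) := by
      have h1 := Fintype.sum_eq_add_sum_subtype_ne
        (fun k : ι => ((b k : W) : ℝ) / e0 * ((b.coord k (inc v) : ℝ) * Dg +
            ∑ n ∈ oddS T, (b.coord k (zl n v) : ℝ) * E n)) i0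
      rw [h1, e2, one_mul, ← e1 i0]
      congr 1
      exact sum_congr rfl fun k _ => by rw [e1]
    rw [e3]
    have e4 : ∀ w : W, ∑ k : ι, ((b k : W) : ℝ) / e0 * (b.coord k w : ℝ) = (w : ℝ) / e0 := by
      intro w
      rw [hsum w, sum_div]
      exact sum_congr rfl fun k _ => by ring
    have e5 : ((inc v : W) : ℝ) = v := rfl
    simp only [mul_add, sum_add_distrib, mul_sum]
    congr 1
    · rw [← e5, ← e4, sum_mul]
      exact sum_congr rfl fun k _ => by ring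
    · rw [sum_comm]
      refine sum_congr rfl fun n _ => ?_
      rw [← e4, sum_mul]
      exact sum_congr rfl fun k _ => by ring
  have hlow : ∀ (i : Fin x) (f : FI B H S p) (c : Fin p × Fin a),
      ∑ e : Low × Fin x, zr (e.1 : ℕ) * ((bP e.2 : P) : ℝ) / e0 *
        ((prow M p T 0 (fun n => if n = (e.1 : ℕ) then bP.coord e.2 else 0) (bP i)
          c.1 f.1 f.2.1 f.2.2 c.2 : ℚ) : ℝ) =
      ∑ n ∈ Low, zr n * ((bP i : P) : ℝ) / e0 *
          ((PowerSeries.coeff (c.2 : ℕ) (yRow ℚ M p T (Pi.single n 1) c.1 f.1 f.2.1 f.2.2) : ℚ) :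
            ℝ) := by
    intro i f c
    rw [Fintype.sum_prod_type, ← sum_coe_sort Low]
    refine sum_congr rfl fun n _ => ?_
    have h1 : ∀ i' : Fin x, ((prow M p T 0 (fun n' => if n' = (n : ℕ) then bP.coord i' else 0) (bP i)
          c.1 f.1 f.2.1 f.2.2 c.2 : ℚ) : ℝ) = if i' = i then
          ((PowerSeries.coeff (c.2 : ℕ)
            (yRow ℚ M p T (Pi.single (n : ℕ) 1) c.1 f.1 f.2.1 f.2.2) : ℚ) : ℝ) else 0 := by
      intro i'
      rw [prow_real, LinearMap.zero_apply, Rat.cast_zero, zero_mul, zero_add,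
        sum_eq_single (n : ℕ)]
      · rw [if_pos rfl, Basis.coord_apply, Basis.repr_self, Finsupp.single_apply]
        by_cases h : i' = i
        · rw [if_pos h, if_pos h.symm, Rat.cast_one, one_mul]
        · rw [if_neg h, if_neg (fun h' => h h'.symm), Rat.cast_zero, zero_mul]
      · intro n' _ hn'
        rw [if_neg hn', LinearMap.zero_apply, Rat.cast_zero, zero_mul]
      · intro h
        exact absurd (mem_filter.1 n.2).1 h
    rw [sum_eq_single i]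
    · rw [h1, if_pos rfl]
    · intro i' _ hi'
      rw [h1, if_neg hi', mul_zero]
    · intro h
      exact absurd (mem_univ _) h
  have htot : ∀ (i : Fin x) (f : FI B H S p) (c : Fin p × Fin a),
      ((prow M p T q0 c0 (bP i) c.1 f.1 f.2.1 f.2.2 c.2 : ℚ) : ℝ) +
        ∑ j : J, vJ j * ((prow M p T (qJ j) (cJ j) (bP i) c.1 f.1 f.2.1 f.2.2 c.2 : ℚ) : ℝ) =
      ((bP i : P) : ℝ) / e0 *
        PowerSeries.coeff (c.2 : ℕ) (dRow ℝ M p T zr c.1 f.1 f.2.1 f.2.2) := by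
    intro i f c
    have h1 : ∑ j : J, vJ j * ((prow M p T (qJ j) (cJ j) (bP i) c.1 f.1 f.2.1 f.2.2 c.2 : ℚ) : ℝ) =
        ∑ k : {k : ι // k ≠ i0}, ((b k.1 : W) : ℝ) / e0 *
          ((prow M p T ((b.coord k.1).comp inc) (fun n => (b.coord k.1).comp (zl n)) (bP i)
            c.1 f.1 f.2.1 f.2.2 c.2 : ℚ) : ℝ) +
        ∑ e : Low × Fin x, zr (e.1 : ℕ) * ((bP e.2 : P) : ℝ) / e0 *
        ((prow M p T 0 (fun n => if n = (e.1 : ℕ) then bP.coord e.2 else 0) (bP i)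
          c.1 f.1 f.2.1 f.2.2 c.2 : ℚ) : ℝ) := by
      rw [Fintype.sum_sum_type]
      rfl
    have h2 : ∑ n ∈ oddS T, ((zl n (bP i) : W) : ℝ) / e0 *
        ((PowerSeries.coeff (c.2 : ℕ) (yRow ℚ M p T (Pi.single n 1) c.1 f.1 f.2.1 f.2.2) : ℚ) :
            ℝ) = ∑ n ∈ (oddS T).filter (fun n => ¬ n ≤ s0), zr n * ((bP i : P) : ℝ) / e0 *
        ((PowerSeries.coeff (c.2 : ℕ) (yRow ℚ M p T (Pi.single n 1) c.1 f.1 f.2.1 f.2.2) : ℚ) :
            ℝ) := by
      rw [← sum_filter_add_sum_filter_not (oddS T) (fun n => n ≤ s0)]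
      rw [sum_eq_zero, zero_add]
      · refine sum_congr rfl fun n hn => ?_
        rw [mem_filter] at hn
        rw [hzl1 n hn.1 (by omega)]
      · intro n hn
        rw [mem_filter] at hn
        rw [hzl0 n (by omega)]
        simp
    have h3 : ((bP i : P) : ℝ) / e0 * ∑ n ∈ oddS T, zr n *
        ((PowerSeries.coeff (c.2 : ℕ) (yRow ℚ M p T (Pi.single n 1) c.1 f.1 f.2.1 f.2.2) : ℚ) :
            ℝ) = ∑ n ∈ Low, zr n * ((bP i : P) : ℝ) / e0 *
        ((PowerSeries.coeff (c.2 : ℕ) (yRow ℚ M p T (Pi.single n 1) c.1 f.1 f.2.1 f.2.2) : ℚ) :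
            ℝ) + ∑ n ∈ (oddS T).filter (fun n => ¬ n ≤ s0), zr n * ((bP i : P) : ℝ) / e0 *
        ((PowerSeries.coeff (c.2 : ℕ) (yRow ℚ M p T (Pi.single n 1) c.1 f.1 f.2.1 f.2.2) : ℚ) :
            ℝ) := by
      rw [hLow, sum_filter_add_sum_filter_not (oddS T) (fun n => n ≤ s0), mul_sum]
      exact sum_congr rfl fun n _ => by ring
    have h4 := hshear (bP i) f c
    have h5 := hlow i f c
    have h6 := dk_lin_d ℝ M p T zr c.1 f.1 f.2.1 f.2.2 c.2
    rw [h1, h5, h6]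
    have h7 : ∀ u v w : ℝ, u * (v + w) = u * v + u * w := fun u v w => mul_add u v w
    rw [h7, h3]
    linarith
  have hmain := det_ineq_joint (Tt := Fin (4 * H * p)) (Fi := FI B H S p × Fin x)
    (Col := Fin p × Fin a) (J := J)
    (fun i c => PowerSeries.coeff (c.2 : ℕ) (ev ℚ p c.1 (Cn ℚ M i)))
    (fun e c => prow M p T q0 c0 (bP e.2) c.1 e.1.1 e.1.2.1 e.1.2.2 c.2)
    (fun e j c => prow M p T (qJ j) (cJ j) (bP e.2) c.1 e.1.1 e.1.2.1 e.1.2.2 c.2)
    vJ (D0 * dd ^ (a + S + 1)) (by positivity)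
    (fun i c => dm_int_t hMpos hdv p D0 c.1 i c.2 c.2.2)
    (fun e c => prow_int hMpos hdv p T D0 q0 c0 (bP e.2) (hD0q _) (hD0c _) c.1 e.1.1 e.1.2.1
      e.1.2.2 c.2 c.1.2 (Nat.lt_succ_iff.1 e.1.2.1.2) c.2.2)
    (fun e j c => prow_int hMpos hdv p T D0 (qJ j) (cJ j) (bP e.2) (hDJq _ _) (hDJc _ _) c.1 e.1.1
      e.1.2.1 e.1.2.2 c.2 c.1.2 (Nat.lt_succ_iff.1 e.1.2.1.2) c.2.2)
    (Λ1 * N0) (4 / 5) (by nlinarith) (by norm_num) (by norm_num)
    (fun e κ => ((bP e.2 : P) : ℝ) / e0 *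
      dlam (4 * H * p) p (2 * (e.1.1 : ℕ) + 1) e.1.2.1 (fB ℝ M p e.1.1 e.1.2.2) κ)
    (fun κ c => PowerSeries.coeff (c.2 : ℕ) (yl ℝ p c.1 ^ (4 * H * p + κ)))
    (by
      intro i c
      have h1 := hTr i i.2 c.1 c.1.2 c.2
      rw [← map_Cn, ← map_ev, PowerSeries.coeff_map] at h1
      have h2 : N0 ≤ Λ1 * N0 := by nlinarith
      exact le_trans h1 h2)
    (by
      intro e j c
      refine (prow_bd M p T (qJ j) (cJ j) (bP e.2) c.1 e.1.1 e.1.2.1 e.1.2.2 c.2 N0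
        (hbG e.1 c) (hbY e.1 c)).trans ?_
      exact mul_le_mul_of_nonneg_right (hΛ1b j e.2) (by linarith))
    (by
      intro e κ c
      have h5 : ∀ u v w : ℝ, u * v * w = u * (v * w) := fun u v w => mul_assoc u v w
      rw [h5, abs_mul, h5 Λ1]
      exact mul_le_mul (hΛ1a e.2) (hbd e.1 κ c) (abs_nonneg _) (by linarith))
    (by
      intro e
      obtain ⟨α, hα⟩ := hser e.1
      refine ⟨fun i => ((bP e.2 : P) : ℝ) / e0 * α i, fun c => ?_⟩
      have h1 := (hα c).mul_left (((bP e.2 : P) : ℝ) / e0)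
      have h2 : (fun κ : ℕ => ((bP e.2 : P) : ℝ) / e0 *
          dlam (4 * H * p) p (2 * (e.1.1 : ℕ) + 1) e.1.2.1 (fB ℝ M p e.1.1 e.1.2.2) κ *
          PowerSeries.coeff (c.2 : ℕ) (yl ℝ p c.1 ^ (4 * H * p + κ))) =
          fun κ : ℕ => ((bP e.2 : P) : ℝ) / e0 *
          (dlam (4 * H * p) p (2 * (e.1.1 : ℕ) + 1) e.1.2.1 (fB ℝ M p e.1.1 e.1.2.2) κ *
          PowerSeries.coeff (c.2 : ℕ) (yl ℝ p c.1 ^ (4 * H * p + κ))) := by
        funext κ
        rw [mul_assoc (((bP e.2 : P) : ℝ) / e0)]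
      have h3 := htot e.2 e.1 c
      have h4 : ∑ i, ((bP e.2 : P) : ℝ) / e0 * α i *
          ((PowerSeries.coeff (c.2 : ℕ) (ev ℚ p c.1 (Cn ℚ M i)) : ℚ) : ℝ) =
          ((bP e.2 : P) : ℝ) / e0 *
          ∑ i, α i * PowerSeries.coeff (c.2 : ℕ) (ev ℝ p c.1 (Cn ℝ M i)) := by
        rw [mul_sum]
        refine sum_congr rfl fun i _ => ?_
        rw [mul_assoc (((bP e.2 : P) : ℝ) / e0), ← map_Cn, ← map_ev, PowerSeries.coeff_map]
        rfl
      rw [h2]
      simp only [h3, h4]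
      rw [← mul_sub]
      exact h1)
    (p * f0) SS' hSS'1
    (by
      intro s hs
      obtain ⟨h1, h2, h3⟩ := hSS2 (L s) (hSS'2 s hs)
      refine ⟨fun j c => ?_, fun e he => ?_⟩
      · rw [hrow]
        rcases j with k | e
        · have h4 := h1 (b.coord k.1) (by rw [hcoord, if_neg k.2]) c.1 c.1.2 c.2 c.2.2
          exact h4
        · have h4 := h2 (fun n => if n = (e.1 : ℕ) then bP.coord e.2 else 0)
            (by
              intro n _ hn
              rw [if_neg]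
              have := (mem_filter.1 e.1.2).2
              omega) c.1 c.1.2 c.2 c.2.2
          refine Eq.trans (sum_congr rfl fun f _ => ?_) h4
          rw [prow]
          have h5 : qJ (Sum.inr e) = 0 := rfl
          rw [h5, LinearMap.zero_apply, zero_smul, zero_add]
          rfl
      · refine hLinj s ?_
        refine h3 (b.coord i0) (by rw [hcoord, if_pos rfl]) e fun l hl m hm => ?_
        have h4 := he (⟨l, hl⟩, ⟨m, hm⟩)
        rw [hrow] at h4
        exact h4)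
  have hcT : Fintype.card (Fin (4 * H * p)) = 4 * H * p := Fintype.card_fin _
  have hcC : Fintype.card (Fin p × Fin a) = p * a := by
    simp only [Fintype.card_prod, Fintype.card_fin]
  have hcF : Fintype.card (FI B H S p × Fin x) ≤ x * (B * (S + 1)) * (4 * H * p) := by
    rw [Fintype.card_prod, Fintype.card_fin]
    have := card_FI_le B H S p
    calc Fintype.card (FI B H S p) * x ≤ (B * (S + 1) * (4 * H * p)) * x :=
          Nat.mul_le_mul_right _ this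
      _ = x * (B * (S + 1)) * (4 * H * p) := by ring
  have hcLow : Fintype.card Low ≤ a + S + 1 - 1 := by
    rw [Fintype.card_coe]
    refine (card_le_card (filter_subset _ _)).trans ?_
    have h1 : (oddS T).card ≤ (Icc 1 T).card := card_le_card fun n hn => by
      simp only [oddS, mem_filter, mem_Icc] at hn ⊢
      omega
    rw [Nat.card_Icc] at h1
    omega
  have hcJ' : Fintype.card J + 1 ≤ y + x * (a + S + 1) := by
    have h1 : Fintype.card J = Fintype.card {k : ι // k ≠ i0} + Fintype.card (Low × Fin x) :=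
      Fintype.card_sum
    have h2 : Fintype.card {k : ι // k ≠ i0} + 1 = Fintype.card ι := by
      have h3 := Fintype.card_subtype_compl (fun k : ι => k = i0)
      have h4 : Fintype.card {k : ι // k = i0} = 1 := Fintype.card_subtype_eq i0
      have h5 : 0 < Fintype.card ι := Fintype.card_pos_iff.2 ⟨i0⟩
      have h6 : Fintype.card {k : ι // k ≠ i0} = Fintype.card {k : ι // ¬ k = i0} := rfl
      omega
    have h3 : Fintype.card (Low × Fin x) ≤ x * (a + S + 1) := by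
      rw [Fintype.card_prod, Fintype.card_fin, mul_comm]
      exact Nat.mul_le_mul_left _ (by omega)
    omega
  rw [hcT, hcC] at hmain
  refine hmain.trans ?_
  set Dr : ℝ := ((D0 * dd ^ (a + S + 1) : ℕ) : ℝ) with hDr
  have hDr1 : 1 ≤ Dr := by
    have h1 : 1 ≤ D0 * dd ^ (a + S + 1) := Nat.succ_le_of_lt (by positivity)
    rw [hDr]
    exact Nat.one_le_cast.2 h1
  have hb1 : Dr * (2 * (Λ1 * N0)) * (1 / (1 - 4 / 5)) ≤ Dr * (Λ * N0) := by
    have h1 : (1 / (1 - 4 / 5) : ℝ) = 5 := by norm_num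
    rw [h1]
    have h2 : 10 * Λ1 * N0 ≤ Λ * N0 := mul_le_mul_of_nonneg_right hΛge1 (by linarith)
    have h3 : Dr * (2 * (Λ1 * N0)) * 5 = Dr * (10 * Λ1 * N0) := by ring
    rw [h3]
    exact mul_le_mul_of_nonneg_left h2 (by linarith)
  have hb2 : 1 ≤ Dr * (Λ * N0) := by
    have h1 : 1 ≤ Λ * N0 := one_le_mul_of_one_le_of_one_le hΛone hN1
    exact one_le_mul_of_one_le_of_one_le hDr1 h1
  have hb3 : 0 ≤ Dr * (2 * (Λ1 * N0)) * (1 / (1 - 4 / 5)) := by
    have h1 : (0 : ℝ) ≤ 1 / (1 - 4 / 5) := by norm_num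
    have h2 : 0 ≤ Λ1 * N0 := mul_nonneg (by linarith) (by linarith)
    have h3 : 0 ≤ Dr := by linarith
    positivity
  have hexp : 4 * H * p + Fintype.card (FI B H S p × Fin x) ≤
      4 * H * (x * (B * (S + 1)) + 1) * p := by
    calc 4 * H * p + Fintype.card (FI B H S p × Fin x) ≤
          4 * H * p + x * (B * (S + 1)) * (4 * H * p) := Nat.add_le_add_left hcF _
      _ = 4 * H * (x * (B * (S + 1)) + 1) * p := by ring
  have hpw : (Dr * (2 * (Λ1 * N0)) * (1 / (1 - 4 / 5))) ^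
      (4 * H * p + Fintype.card (FI B H S p × Fin x)) ≤
      (Dr * (Λ * N0)) ^ (4 * H * (x * (B * (S + 1)) + 1) * p) :=
    (pow_le_pow_left₀ hb3 hb1 _).trans (pow_le_pow_right₀ hb2 hexp)
  have hfa : ((((Fintype.card J + 1) * (p * a)).factorial : ℕ) : ℝ) ≤
      ((((y + x * (a + S + 1)) * (p * a)).factorial : ℕ) : ℝ) := by
    exact_mod_cast Nat.factorial_le (Nat.mul_le_mul_right _ hcJ')
  have hvv : (1 + ∑ j, |vJ j|) ^ ((Fintype.card J + 1) * (p * a)) ≤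
      Λ ^ ((y + x * (a + S + 1)) * (p * a)) :=
    (pow_le_pow_left₀ (by linarith) hΛge2 _).trans
      (pow_le_pow_right₀ hΛone (Nat.mul_le_mul_right _ hcJ'))
  have hs0 : (0 : ℝ) ≤ 1 + ∑ j, |vJ j| := by linarith
  gcongr

end Pool.Agent.DP
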