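import Pool.Agent.DK.LINK
import Pool.Agent.DM.ENT
import Pool.Agent.DM.LIN

/-!
# DP: the coordinates of the rows

Coordinate of the row of `v ∈ P`, given by a functional `q` (multiplier of the `g` part) and
functionals `c n` (coefficient of `ζ(n)`).
-/

namespace Pool.Agent.DP

open Finset Pool.Agent.ZC Pool.Agent.SI Pool.Agent.DM Pool.Agent.DK

section

variable {P : Type*} [AddCommGroup P] [Module ℚ P]

/-- a coordinate of the row of `v` -/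
noncomputable def prow (M p T : ℕ) (q : P →ₗ[ℚ] ℚ) (c : ℕ → P →ₗ[ℚ] ℚ) (v : P)
    (l β r j m : ℕ) : ℚ :=
  PowerSeries.coeff m (q v • dRow ℚ M p T 0 l β r j + yRow ℚ M p T (fun n => c n v) l β r j)

theorem prow_eq (M p T : ℕ) (q : P →ₗ[ℚ] ℚ) (c : ℕ → P →ₗ[ℚ] ℚ) (v : P) (l β r j m : ℕ) :
    prow M p T q c v l β r j m = q v * PowerSeries.coeff m (dRow ℚ M p T 0 l β r j) +
      ∑ n ∈ oddS T, c n v * PowerSeries.coeff m (yRow ℚ M p T (Pi.single n 1) l β r j) := by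
  rw [prow, map_add, PowerSeries.coeff_smul, dk_lin_y ℚ]
  simp only [Rat.cast_id, smul_eq_mul]

theorem prow_sum (M p T : ℕ) (q : P →ₗ[ℚ] ℚ) (c : ℕ → P →ₗ[ℚ] ℚ) {ι : Type*} (s : Finset ι)
    (a : ι → ℚ) (v : ι → P) (l β r j m : ℕ) :
    prow M p T q c (∑ i ∈ s, a i • v i) l β r j m =
      ∑ i ∈ s, a i * prow M p T q c (v i) l β r j m := by
  simp only [prow_eq, map_sum, map_smul, smul_eq_mul, mul_add, sum_mul, mul_sum, sum_add_distrib]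
  congr 1
  · exact sum_congr rfl fun i _ => by ring
  · rw [sum_comm]
    exact sum_congr rfl fun i _ => sum_congr rfl fun n _ => by ring

theorem prow_int {a S d M : ℕ} (hM : 0 < M) (hd : ∀ q : ℕ, 1 ≤ q → q ≤ M → q ∣ d) (p T Q : ℕ)
    (q : P →ₗ[ℚ] ℚ) (c : ℕ → P →ₗ[ℚ] ℚ) (v : P) (hq : ∃ w : ℤ, (Q : ℚ) * q v = w)
    (hc : ∀ n ∈ oddS T, ∃ w : ℤ, (Q : ℚ) * c n v = w)
    (l β r j m : ℕ) (hl : l < p) (hr : r ≤ S) (hm : m < a) :
    ∃ w : ℤ, ((Q * d ^ (a + S + 1) : ℕ) : ℚ) * prow M p T q c v l β r j m = w := by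
  have h1 : ∃ w : ℤ, ((1 * d ^ (a + S + 1) : ℕ) : ℚ) *
      PowerSeries.coeff m (dRow ℚ M p T 0 l β r j) = w :=
    dm_int_d hM hd p T 0 1 (fun i _ => ⟨0, by simp⟩) l β r j m hl hr hm
  have h2 : ∃ w : ℤ, ((Q * d ^ (a + S + 1) : ℕ) : ℚ) *
      PowerSeries.coeff m (yRow ℚ M p T (fun n => c n v) l β r j) = w :=
    dm_int_y hM hd p T (fun n => c n v) Q hc l β r j m hr hm
  obtain ⟨w0, hw0⟩ := hq
  obtain ⟨w1, hw1⟩ := h1
  obtain ⟨w2, hw2⟩ := h2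
  refine ⟨w0 * w1 + w2, ?_⟩
  rw [prow, map_add, PowerSeries.coeff_smul, smul_eq_mul, mul_add, hw2]
  push_cast
  rw [← hw0, ← hw1]
  push_cast
  ring

theorem prow_real (M p T : ℕ) (q : P →ₗ[ℚ] ℚ) (c : ℕ → P →ₗ[ℚ] ℚ) (v : P) (l β r j m : ℕ) :
    ((prow M p T q c v l β r j m : ℚ) : ℝ) =
      (q v : ℝ) * ((PowerSeries.coeff m (dRow ℚ M p T 0 l β r j) : ℚ) : ℝ) +
      ∑ n ∈ oddS T, (c n v : ℝ) *
        ((PowerSeries.coeff m (yRow ℚ M p T (Pi.single n 1) l β r j) : ℚ) : ℝ) := by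
  rw [prow_eq]
  push_cast
  rfl

theorem prow_bd (M p T : ℕ) (q : P →ₗ[ℚ] ℚ) (c : ℕ → P →ₗ[ℚ] ℚ) (v : P) (l β r j m : ℕ) (N : ℝ)
    (h1 : |((PowerSeries.coeff m (dRow ℚ M p T 0 l β r j) : ℚ) : ℝ)| ≤ N)
    (h2 : ∀ n ∈ oddS T,
      |((PowerSeries.coeff m (yRow ℚ M p T (Pi.single n 1) l β r j) : ℚ) : ℝ)| ≤ N) :
    |((prow M p T q c v l β r j m : ℚ) : ℝ)| ≤
      (|(q v : ℝ)| + ∑ n ∈ oddS T, |(c n v : ℝ)|) * N := by
  rw [prow_real, add_mul, sum_mul]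
  refine (abs_add_le _ _).trans (add_le_add ?_ ?_)
  · rw [abs_mul]
    exact mul_le_mul_of_nonneg_left h1 (abs_nonneg _)
  · refine (abs_sum_le_sum_abs _ _).trans (sum_le_sum fun n hn => ?_)
    rw [abs_mul]
    exact mul_le_mul_of_nonneg_left (h2 n hn) (abs_nonneg _)

end

/-- a rational combination of finitely many rationals has a common denominator -/
theorem common_den {ι : Type*} (s : Finset ι) (f : ι → ℚ) :
    ∃ Q : ℕ, 0 < Q ∧ ∀ i ∈ s, ∃ w : ℤ, (Q : ℚ) * f i = w := by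
  classical
  refine ⟨∏ i ∈ s, (f i).den, prod_pos fun i _ => (f i).den_pos, fun i hi => ?_⟩
  refine ⟨(∏ k ∈ s.erase i, ((f k).den : ℤ)) * (f i).num, ?_⟩
  rw [← mul_prod_erase s (fun i => (f i).den) hi]
  push_cast
  have h1 : ((f i).den : ℚ) * f i = (f i).num := by
    rw [mul_comm]
    exact Rat.mul_den_eq_num (f i)
  rw [mul_assoc, mul_comm, mul_assoc, mul_comm (f i), h1]

end Pool.Agent.DP
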