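import Pool.Agent.DP.FAMP

/-!
# DP, zero estimate: a relation gives a family with few conditions
-/

namespace Pool.Agent.DP

open Finset Polynomial Pool.Agent.ZC Pool.Agent.SI Pool.Agent.DM

theorem sum_range_mul' {M : Type*} [AddCommMonoid M] (B x : ℕ) (F : ℕ → M) :
    ∑ β' ∈ range (B * x), F β' = ∑ i ∈ range x, ∑ β ∈ range B, F (β + B * i) := by
  induction x with
  | zero => simp
  | succ x ih =>
    rw [Nat.mul_succ, Finset.sum_range_add, ih, Finset.sum_range_succ]
    congr 1
    exact Finset.sum_congr rfl fun β _ => by rw [add_comm]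

theorem enc_mod {B β i : ℕ} (h : β < B) : (β + B * i) % B = β := by
  rw [Nat.add_mul_mod_self_left, Nat.mod_eq_of_lt h]

theorem enc_div {B β i : ℕ} (h : β < B) : (β + B * i) / B = i := by
  rw [Nat.add_mul_div_left _ _ (by omega), Nat.div_eq_of_lt h, zero_add]

variable {K : Type*} [Field K] {W : Type*} [AddCommGroup W] [Module K W]

/-- for a functional vanishing on the support of the family the part `g` disappears -/
theorem GP_kill (B S p T x : ℕ) (eI : ℕ → W) (eZ : ℕ → ℕ → W) {m : ℕ} (w : Fin m → ℕ → ℕ → K)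
    (f : Fin m → K[X]) (φ : W →ₗ[K] K) (hφ : ∀ v ∈ PEW B x eI w, φ v = 0) (l : ℕ) :
    ∑ β' ∈ range (B * x), ∑ k ∈ range (S + 1), loc K l (comb w f β' k) *
      hs K k (GP B p T eI eZ φ β' l) =
    ∑ β' ∈ range (B * x), ∑ k ∈ range (S + 1), loc K l (comb w f β' k) *
      hs K k (thP B T eZ φ β') := by
  have h1 : ∑ β' ∈ range (B * x), ∑ k ∈ range (S + 1), loc K l (comb w f β' k) *
      hs K k (PowerSeries.C (φ (eI (β' / B))) * Gs K p (2 * (β' % B) + 1) l (oddS T) 0) = 0 := by
    rw [sum_range_mul', Finset.sum_comm]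
    refine Finset.sum_eq_zero fun β hβ => ?_
    rw [Finset.sum_comm]
    refine Finset.sum_eq_zero fun k _ => ?_
    rw [Finset.mem_range] at hβ
    have h2 : ∀ i, loc K l (comb w f (β + B * i) k) * hs K k (PowerSeries.C
        (φ (eI ((β + B * i) / B))) * Gs K p (2 * ((β + B * i) % B) + 1) l (oddS T) 0) =
        (∑ j, loc K l (f j) * PowerSeries.C (w j (β + B * i) k * φ (eI i))) *
          hs K k (Gs K p (2 * β + 1) l (oddS T) 0) := by
      intro i
      rw [enc_mod hβ, enc_div hβ, hs_C_mul, comb_apply, map_sum, Finset.sum_mul, Finset.sum_mul]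
      refine Finset.sum_congr rfl fun j _ => ?_
      rw [map_mul, loc_C, map_mul]
      ring
    rw [Finset.sum_congr rfl fun i _ => h2 i, ← Finset.sum_mul, Finset.sum_comm]
    have h3 : ∑ j, ∑ i ∈ range x, loc K l (f j) *
        PowerSeries.C (w j (β + B * i) k * φ (eI i)) = 0 := by
      refine Finset.sum_eq_zero fun j _ => ?_
      rw [← Finset.mul_sum, ← map_sum]
      have h4 : ∑ i ∈ range x, w j (β + B * i) k * φ (eI i) = φ (wvW B x eI (w j) β k) := by
        unfold wvW
        rw [map_sum]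
        exact Finset.sum_congr rfl fun i _ => by rw [map_smul, smul_eq_mul]
      rw [h4, hφ _ (Submodule.subset_span ⟨j, β, k, hβ, rfl⟩), map_zero, mul_zero]
    rw [h3, zero_mul]
  have h5 : ∀ β' k, loc K l (comb w f β' k) * hs K k (GP B p T eI eZ φ β' l) =
      loc K l (comb w f β' k) * hs K k (PowerSeries.C (φ (eI (β' / B))) *
        Gs K p (2 * (β' % B) + 1) l (oddS T) 0) +
      loc K l (comb w f β' k) * hs K k (thP B T eZ φ β') := by
    intro β' k
    unfold GP
    rw [hs_add, mul_add]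
  simp only [h5, Finset.sum_add_distrib]
  rw [h1, zero_add]

theorem num_psi (B x S : ℕ) (eI : ℕ → W) (w : ℕ → ℕ → K) {g : ℕ} (c : Fin g → K)
    (φ : Fin g → W →ₗ[K] K) (N : ℕ → ℕ → K[X]) :
    ∑ e, C (c e) * ∑ β' ∈ range (B * x), ∑ k ∈ range (S + 1),
      C (w β' k * φ e (eI (β' / B))) * N (β' % B) k =
    ∑ β ∈ range B, ∑ k ∈ range (S + 1), C ((∑ e, c e • φ e) (wvW B x eI w β k)) * N β k := by
  have h1 : ∀ e, C (c e) * ∑ β' ∈ range (B * x), ∑ k ∈ range (S + 1),
      C (w β' k * φ e (eI (β' / B))) * N (β' % B) k =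
      ∑ β ∈ range B, ∑ k ∈ range (S + 1), C (c e * φ e (wvW B x eI w β k)) * N β k := by
    intro e
    rw [sum_range_mul', Finset.sum_comm, Finset.mul_sum]
    refine Finset.sum_congr rfl fun β hβ => ?_
    rw [Finset.mem_range] at hβ
    rw [Finset.sum_comm, Finset.mul_sum]
    refine Finset.sum_congr rfl fun k _ => ?_
    have h2 : φ e (wvW B x eI w β k) = ∑ i ∈ range x, w (β + B * i) k * φ e (eI i) := by
      unfold wvW
      rw [map_sum]
      exact Finset.sum_congr rfl fun i _ => by rw [map_smul, smul_eq_mul]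
    rw [h2, map_mul, map_sum, mul_assoc, Finset.sum_mul]
    congr 1
    refine Finset.sum_congr rfl fun i _ => ?_
    rw [enc_mod hβ, enc_div hβ]
  rw [Finset.sum_congr rfl fun e _ => h1 e, Finset.sum_comm]
  refine Finset.sum_congr rfl fun β _ => ?_
  rw [Finset.sum_comm]
  refine Finset.sum_congr rfl fun k _ => ?_
  rw [← Finset.sum_mul, LinearMap.sum_apply, map_sum]
  rfl

theorem PEW_le (B x : ℕ) (eI : ℕ → W) {m : ℕ} (w : Fin m → ℕ → ℕ → K) :
    Module.finrank K (PEW B x eI w) ≤ x := by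
  classical
  have h1 : PEW B x eI w ≤ Submodule.span K ((range x).image eI : Set W) := by
    unfold PEW
    rw [Submodule.span_le]
    rintro _ ⟨j, β, k, _, rfl⟩
    refine Submodule.sum_mem _ fun i hi => Submodule.smul_mem _ _ (Submodule.subset_span ?_)
    exact Finset.mem_coe.2 (Finset.mem_image_of_mem _ hi)
  refine (Submodule.finrank_mono h1).trans ((finrank_span_finset_le_card _).trans ?_)
  exact Finset.card_image_le.trans (by rw [Finset.card_range])

/-- constant in the estimate -/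
def cRelP (B S a x y : ℕ) : ℕ :=
  (x + B * x * (S + 1)) * (x * (2 * B ^ 2 * (S + 1)) + (1 + B ^ 2) * (B * x * (S + 1) + y * a) +
    x * a)

variable [FiniteDimensional K W]

theorem relP [CharZero K] (B H a S s0 p x : ℕ) (hB : 1 ≤ B)
    (hp : x + B * x * (S + 1) + 1 ≤ p) (eI : ℕ → W) (eZ : ℕ → ℕ → W) {m : ℕ} (ε : Fin m → ℕ)
    (w : Fin m → ℕ → ℕ → K) (hw : Fam (B * x) S s0 ε w) (f : Fin m → K[X])
    (hf : ∀ i, f i ∈ degreeLT K (4 * H * p)) (hne : f ≠ 0)
    (hA : ∀ w0 : ℚ, |w0| < 4 * (p : ℚ) → ∀ β' < B * x, odp (β' % B) w0 → ∀ r ≤ S,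
      (rf S (comb w (fun i => pw p (ε i) (f i)) β') r).eval
        (((w0 - (2 * (p : ℚ) - 1)) / 2 : ℚ) : K) = 0)
    (hrel : ∀ φ : W →ₗ[K] K, ∀ l ≤ 2 * p - 1, (PowerSeries.X : PowerSeries K) ^ a ∣
      ∑ β' ∈ range (B * x), ∑ k ∈ range (S + 1),
        loc K l (comb w (fun i => pw p (ε i) (f i)) β' k) *
          hs K k (GP B p (a + S) eI eZ φ β' l)) :
    ∃ (ζ : ℕ) (ε' : Fin ζ → ℕ) (w' : Fin ζ → ℕ → ℕ → K), 1 ≤ ζ ∧ ζ ≤ m ∧
      Fam (B * x) S s0 ε' w' ∧
      2 * ksP B S a x p eI eZ w' + 2 * p * (Module.finrank K (PEW B x eI w') * a) ≤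
        2 * (4 * H * p) * (ζ + Module.finrank K (PEW B x eI w')) +
          cRelP B S a x (Module.finrank K W) := by
  classical
  obtain ⟨ζ, ε', w', u, hζ0, hζm, hw', hu, huD, hcomb⟩ :=
    ext_fam (B * x) S s0 ε w hw p (4 * H * p) f hf hne
  have hmB := card_fam_le (B * x) S s0 ε w hw
  refine ⟨ζ, ε', w', hζ0, hζm, hw', ?_⟩
  set P := comb w (fun i => pw p (ε i) (f i)) with hP
  set L := 2 * p - 1 with hL
  have hp1 : 1 ≤ p := by omega
  have hcinj : Function.Injective (fun r : ℚ => (r : K)) := Rat.cast_injective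
  -- the support and its coordinates
  obtain ⟨g, hg⟩ : ∃ g, g = Module.finrank K (PEW B x eI w') := ⟨_, rfl⟩
  have hgx : g ≤ x := by rw [hg]; exact PEW_le B x eI w'
  obtain ⟨bs⟩ : Nonempty (Module.Basis (Fin g) K (PEW B x eI w')) := by
    rw [hg]; exact ⟨Module.finBasis K _⟩
  have hext : ∀ e : Fin g, ∃ φ : W →ₗ[K] K, φ ∘ₗ (PEW B x eI w').subtype = bs.coord e :=
    fun e => LinearMap.exists_extend _
  choose φ hφ using hext
  have hφb : ∀ e e' : Fin g, φ e (bs e' : PEW B x eI w') = if e' = e then 1 else 0 := by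
    intro e e'
    have h1 := LinearMap.congr_fun (hφ e) (bs e')
    rw [LinearMap.comp_apply, Submodule.subtype_apply, Module.Basis.coord_apply,
      Module.Basis.repr_self, Finsupp.single_apply] at h1
    exact h1
  -- the data of the Casorati estimate
  set η : Fin g → Fin ζ → ℕ → PowerSeries K := fun e y l => ∑ β' ∈ range (B * x),
    ∑ k ∈ range (S + 1), PowerSeries.C (w' y β' k) * hs K k (GP B p (a + S) eI eZ (φ e) β' l)
    with hη
  set num : Fin g → Fin ζ → K[X] := fun e y => ∑ β' ∈ range (B * x), ∑ k ∈ range (S + 1),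
    C (w' y β' k * φ e (eI (β' / B))) * numd K B p S (β' % B) k with hnum
  have hη1 : ∀ (ψ : W →ₗ[K] K) (l : ℕ), ∑ y, loc K l (u y) * ∑ β' ∈ range (B * x),
      ∑ k ∈ range (S + 1), PowerSeries.C (w' y β' k) * hs K k (GP B p (a + S) eI eZ ψ β' l) =
      ∑ β' ∈ range (B * x), ∑ k ∈ range (S + 1),
      loc K l (P β' k) * hs K k (GP B p (a + S) eI eZ ψ β' l) := by
    intro ψ l
    simp only [Finset.mul_sum]
    rw [Finset.sum_comm]
    refine Finset.sum_congr rfl fun β _ => ?_
    rw [Finset.sum_comm]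
    refine Finset.sum_congr rfl fun k _ => ?_
    have h1 : P β k = ∑ y, u y * C (w' y β k) := by
      rw [← hcomb]; rfl
    rw [h1, map_sum, Finset.sum_mul]
    refine Finset.sum_congr rfl fun y _ => ?_
    rw [map_mul, loc_C]
    ring
  set fl : K → ℕ → Prop := fun x' β => ∃ r : ℚ, (r : K) = x' ∧
    odp (β % B) (2 * r + (2 * (p : ℚ) - 1)) with hfl
  set fc : K → Prop := fun x' => ∃ r : ℚ, (r : K) = x' ∧ isPole p (2 * r + (2 * (p : ℚ) - 1))
    with hfc
  have hfl1 : ∀ r : ℚ, fl (r : K) = fun β => odp (β % B) (2 * r + (2 * (p : ℚ) - 1)) := by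
    intro r
    funext β
    refine propext ⟨?_, fun h => ⟨r, rfl, h⟩⟩
    rintro ⟨r', hr', h⟩
    rw [← hcinj hr']
    exact h
  have hfc1 : ∀ r : ℚ, fc (r : K) = isPole p (2 * r + (2 * (p : ℚ) - 1)) := by
    intro r
    refine propext ⟨?_, fun h => ⟨r, rfl, h⟩⟩
    rintro ⟨r', hr', h⟩
    rw [← hcinj hr']
    exact h
  set θ : Fin (Module.finrank K (W ⧸ PEW B x eI w')) → ℕ → PowerSeries K :=
    fun j => thP B (a + S) eZ (phi (PEW B x eI w') j) with hθ
  set T : K → (Fin ζ → K[X]) →ₗ[K] (Fin (B * x) → Fin (S + 1) → K) ×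
      (Fin (Module.finrank K (W ⧸ PEW B x eI w')) → Fin a → K) := fun x' =>
    cnd (B * x) S a θ (fl x') (fc x') x' ∘ₗ comb w' with hT
  have hTk : ∀ r : ℚ, Module.finrank K (LinearMap.range (T (r : K))) = kapP B S a x eI eZ
      (fun β => odp β (2 * r + (2 * (p : ℚ) - 1))) (isPole p (2 * r + (2 * (p : ℚ) - 1))) w' := by
    intro r
    have h1 := kap_eq (B * x) S a θ (fun β => odp (β % B) (2 * r + (2 * (p : ℚ) - 1)))
      (isPole p (2 * r + (2 * (p : ℚ) - 1))) w' (r : K)
    unfold kapP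
    rw [← h1]
    have h2 : T (r : K) = cnd (B * x) S a θ (fun β => odp (β % B) (2 * r + (2 * (p : ℚ) - 1)))
        (isPole p (2 * r + (2 * (p : ℚ) - 1))) (r : K) ∘ₗ comb w' := by
      rw [hT]
      simp only
      rw [hfl1, hfc1]
    rw [h2]
  -- shifts of the independent polynomials
  have hTs : ∀ (r : ℚ) (s : ℕ),
      |2 * (r + s) + (2 * (p : ℚ) - 1)| < 4 * (p : ℚ) →
      (isPole p (2 * r + (2 * (p : ℚ) - 1)) → ∃ l' ≤ L, (r : ℚ) + s = -(l' : ℚ)) →
      T (r : K) (fun y => (u y).comp (X + C (s : K))) = 0 := by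
    intro r s h1 h3
    rw [hT]
    simp only [LinearMap.comp_apply]
    rw [comb_comp, cnd_shift, hcomb, hfl1, hfc1, cnd_eq_zero_iff]
    have hodp : ∀ β, odp β (2 * (r + s) + (2 * (p : ℚ) - 1)) ↔
        odp β (2 * r + (2 * (p : ℚ) - 1)) := by
      intro β
      have := odp_add β (2 * r + (2 * (p : ℚ) - 1)) (s : ℤ)
      rw [← this]
      push_cast
      rw [show 2 * r + (2 * (p : ℚ) - 1) + 2 * (s : ℚ) = 2 * (r + s) + (2 * (p : ℚ) - 1) by ring]
    refine ⟨?_, ?_⟩
    · intro β' hβ' hodd r' hr'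
      have h4 := hA (2 * (r + s) + (2 * (p : ℚ) - 1)) h1 β' hβ' ((hodp _).2 hodd) r' hr'
      rw [show (2 * (r + (s : ℚ)) + (2 * (p : ℚ) - 1) - (2 * (p : ℚ) - 1)) / 2 = r + s by ring]
        at h4
      rw [Rat.cast_add, Rat.cast_natCast] at h4
      exact h4
    · intro hc j m' hm'
      obtain ⟨l', hl', h5⟩ := h3 hc
      have h6 : (r : K) + (s : K) = -(l' : K) := by
        have := congrArg (fun q : ℚ => (q : K)) h5
        simpa using this
      have h7 := hrel (phi (PEW B x eI w') j) l' hl'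
      rw [← hcomb] at h7
      rw [GP_kill B S p (a + S) x eI eZ w' u _ (fun v hv => phi_of_mem _ _ hv) l'] at h7
      rw [PowerSeries.X_pow_dvd_iff] at h7
      have h8 := h7 m' hm'
      rw [h6]
      unfold opj
      rw [jet_neg, ← hcomb]
      exact h8
  have hpoleL : ∀ l ≤ L, isPole p (2 * (-(l : ℚ)) + (2 * (p : ℚ) - 1)) := by
    intro l hl
    rw [isPole_iff]
    exact ⟨l, hl, hp1, by ring⟩
  have hcast : ∀ l : ℕ, -(l : K) = ((-(l : ℚ) : ℚ) : K) := by
    intro l
    rw [Rat.cast_neg, Rat.cast_natCast]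
  have hcz := czp u hu (2 * (4 * H * p)) huD η a L (fun e l hl => by
      rw [hη]
      simp only
      rw [hη1]
      exact hrel _ l hl)
    (dend K B p S) (dend_ne_zero B p S) num (by
      intro e y
      rw [hnum]
      refine Polynomial.natDegree_sum_le_of_forall_le _ _ fun β' _ => ?_
      refine Polynomial.natDegree_sum_le_of_forall_le _ _ fun k hk => ?_
      rw [Finset.mem_range] at hk
      exact (Polynomial.natDegree_C_mul_le _ _).trans
        (natDegree_numd_le B p S (β' % B) k (by omega)))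
    (by
      intro e l hl y
      simp only [hη, hnum]
      rw [← Finset.sum_sub_distrib, Finset.mul_sum, map_sum]
      refine Finset.sum_congr rfl fun β' hβ' => ?_
      rw [← Finset.sum_sub_distrib, Finset.mul_sum, map_sum]
      refine Finset.sum_congr rfl fun k hk => ?_
      rw [Finset.mem_range] at hβ' hk
      have h1 := hs_Gs_shift B p (β' % B) l S k (Nat.mod_lt _ (by omega)) (by omega) (by omega)
        (oddS (a + S)) (0 : ℕ → K)
      rw [map_mul, loc_C, ← h1]
      unfold GP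
      rw [hs_add, hs_add, hs_C_mul, hs_C_mul, map_mul]
      ring)
    (by
      intro c hc α hα
      apply hc
      set ψ : W →ₗ[K] K := ∑ e, c e • φ e with hψ
      have hψ0 : ∀ v ∈ PEW B x eI w', ψ v = 0 := by
        intro v hv
        unfold PEW at hv
        refine Submodule.span_induction ?_ (map_zero ψ) ?_ ?_ hv
        · rintro _ ⟨y, β, k, hβ, rfl⟩
          by_cases hk : k ≤ S
          · have h1 := nonsum_dm B p S (fun (β : Fin B) (k : Fin (S + 1)) =>
              ψ (wvW B x eI (w' y) (β : ℕ) (k : ℕ))) (α y) (by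
                rw [← hα y, ← Finset.sum_congr rfl fun e _ => mul_div_assoc _ _ _,
                  ← Finset.sum_div]
                congr 1
                rw [← Finset.sum_congr rfl fun e _ => map_mul (emb K) _ _, ← map_sum]
                congr 1
                simp only [hnum]
                rw [num_psi B x S eI (w' y) c φ (numd K B p S), ← hψ,
                  ← Fin.sum_univ_eq_sum_range (fun β => ∑ k ∈ range (S + 1),
                    C (ψ (wvW B x eI (w' y) β k)) * numd K B p S β k) B]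
                refine Finset.sum_congr rfl fun β _ => ?_
                rw [← Fin.sum_univ_eq_sum_range (fun k =>
                    C (ψ (wvW B x eI (w' y) (β : ℕ) k)) * numd K B p S (β : ℕ) k) (S + 1)])
            exact h1 ⟨β, hβ⟩ ⟨k, by omega⟩
          · have h2 : wvW B x eI (w' y) β k = 0 := by
              unfold wvW
              refine Finset.sum_eq_zero fun i _ => ?_
              have h3 : w' y (β + B * i) k = 0 := by
                by_contra hcon
                have := hw'.2 y _ _ hcon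
                omega
              rw [h3, zero_smul]
            rw [h2, map_zero]
        · intro v v' _ _ h1 h2
          rw [map_add, h1, h2, add_zero]
        · intro s v _ h1
          rw [map_smul, h1, smul_zero]
      funext e
      have h1 := hψ0 _ (bs e).2
      rw [hψ, LinearMap.sum_apply] at h1
      simp only [LinearMap.smul_apply, hφb, smul_eq_mul] at h1
      rw [Finset.sum_eq_single e] at h1
      · simpa using h1
      · intro e' _ he'
        rw [if_neg (Ne.symm he'), mul_zero]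
      · intro h
        exact absurd (Finset.mem_univ _) h)
    T
    (by
      intro x' r hr
      rw [hT] at hr ⊢
      simp only [LinearMap.comp_apply] at hr ⊢
      rw [comb_smul]
      exact cnd_X_sub _ _ _ _ _ _ _ _ hr)
    (by
      intro x'
      refine ⟨a + S + 1, fun r => ?_⟩
      rw [hT]
      simp only [LinearMap.comp_apply]
      rw [comb_smul]
      exact cnd_X_sub_pow _ _ _ _ _ _ _ _)
    (Icc (g + ζ) L) (fun l hl => Finset.mem_Icc.1 hl)
    ((posS B p (g + ζ)).image fun r : ℚ => (r : K))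
    (by
      intro l hl h1
      rw [hcast, Finset.mem_image] at h1
      obtain ⟨r, hr, hr'⟩ := h1
      rw [hcinj hr', mem_posS] at hr
      exact hr.2.2.2.1 (hpoleL l (Finset.mem_Icc.1 hl).2))
    (by
      intro l hl s hs
      rw [Finset.mem_Icc] at hl
      have h1 : -(l : ℚ) + (s : ℚ) = -((l - s : ℕ) : ℚ) := by
        rw [Nat.cast_sub (by omega)]; ring
      have h2 := hpoleL (l - s) (by omega)
      rw [hcast]
      refine hTs _ _ ?_ (fun _ => ⟨l - s, by omega, h1⟩)
      rw [h1]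
      refine h2.2.trans_le ?_
      have : (0 : ℚ) ≤ p := Nat.cast_nonneg p
      linarith)
    (by
      intro x' hx' s hs
      rw [Finset.mem_image] at hx'
      obtain ⟨r, hr, rfl⟩ := hx'
      rw [mem_posS] at hr
      have hs' : (s : ℚ) ≤ ((g + ζ : ℕ) : ℚ) := by exact_mod_cast hs.le
      have hs0 : (0 : ℚ) ≤ s := Nat.cast_nonneg s
      refine hTs _ _ ?_ (fun h => absurd h hr.2.2.2.1)
      have h1 := abs_lt.1 hr.1
      rw [abs_lt]
      constructor
      · linarith [h1.1]
      · linarith [hr.2.2.2.2])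
  -- the sums
  have hg1 : ∀ w0 : ℚ, kapP B S a x eI eZ (fun β => odp β (-w0)) (isPole p (-w0)) w' =
      kapP B S a x eI eZ (fun β => odp β w0) (isPole p w0) w' := by
    intro w0
    have e1 : (fun β => odp β (-w0)) = fun β => odp β w0 := funext fun β => propext (odp_neg β w0)
    have e2 : isPole p (-w0) = isPole p w0 := propext (isPole_neg p w0)
    rw [e1, e2]
  have hζB : ζ ≤ B * x * (S + 1) := hζm.trans hmB
  have hqW : Module.finrank K (W ⧸ PEW B x eI w') ≤ Module.finrank K W :=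
    Submodule.finrank_quotient_le _
  have hps := pos_sum B p (g + ζ) hB (by omega)
    (fun w0 => kapP B S a x eI eZ (fun β => odp β w0) (isPole p w0) w')
    (B * x * (S + 1) + Module.finrank K W * a) hg1 (fun w0 => by
      refine (kap_le' _ _ _ _ _ _ _).trans ?_
      rw [Fintype.card_fin]
      exact Nat.add_le_add_left (Nat.mul_le_mul_right _ hqW) _)
  beta_reduce at hps
  rw [natDegree_dend, Finset.sum_image (fun x _ y _ h => hcinj h)] at hcz
  have hT5 : ∀ l : ℕ, Module.finrank K (LinearMap.range (T (-(l : K)))) =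
      kapP B S a x eI eZ (fun β => odp β (2 * (-(l : ℚ)) + (2 * (p : ℚ) - 1)))
        (isPole p (2 * (-(l : ℚ)) + (2 * (p : ℚ) - 1))) w' := by
    intro l
    rw [hcast l]
    exact hTk _
  rw [Finset.sum_add_distrib, Finset.sum_const, Nat.card_Icc, smul_eq_mul,
    Finset.sum_congr rfl fun (l : ℕ) _ => hT5 l,
    Finset.sum_congr rfl fun (r : ℚ) _ => hTk r] at hcz
  have hks : ksP B S a x p eI eZ w' =
    ∑ w0 ∈ posP B p, kapP B S a x eI eZ (fun β => odp β w0) (isPole p w0) w' := rfl
  rw [← hks, ← hL] at hps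
  have hsum : ∑ l ∈ Icc (g + ζ) L, kapP B S a x eI eZ
      (fun β => odp β (2 * (-(l : ℚ)) + (2 * (p : ℚ) - 1)))
      (isPole p (2 * (-(l : ℚ)) + (2 * (p : ℚ) - 1))) w' =
      ∑ l ∈ Icc (g + ζ) L, kapP B S a x eI eZ (fun β => odp β (2 * (p : ℚ) - 1 - 2 * (l : ℚ)))
      (isPole p (2 * (p : ℚ) - 1 - 2 * (l : ℚ))) w' := by
    refine Finset.sum_congr rfl fun l _ => ?_
    rw [show 2 * (-(l : ℚ)) + (2 * (p : ℚ) - 1) = 2 * (p : ℚ) - 1 - 2 * (l : ℚ) by ring]
  rw [hsum] at hcz
  rw [← hg]
  have hC : (g + ζ) * (g * a) + g * ((g + ζ) * (2 * B ^ 2 * (S + 1))) +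
      (g + ζ) * (1 + B ^ 2) * (B * x * (S + 1) + Module.finrank K W * a) ≤
      cRelP B S a x (Module.finrank K W) := by
    unfold cRelP
    have h1 : (g + ζ) * (g * a) + g * ((g + ζ) * (2 * B ^ 2 * (S + 1))) +
        (g + ζ) * (1 + B ^ 2) * (B * x * (S + 1) + Module.finrank K W * a) =
        (g + ζ) * (g * (2 * B ^ 2 * (S + 1)) + (1 + B ^ 2) * (B * x * (S + 1) +
          Module.finrank K W * a) + g * a) := by ring
    rw [h1]
    refine Nat.mul_le_mul (by omega) ?_
    refine Nat.add_le_add (Nat.add_le_add (Nat.mul_le_mul_right _ hgx) le_rfl)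
      (Nat.mul_le_mul_right _ hgx)
  have ha2 : (L + 1 - (g + ζ)) * (g * a) + (g + ζ) * (g * a) = 2 * p * (g * a) := by
    rw [← Nat.add_mul, Nat.sub_add_cancel (by omega)]
    congr 1
    omega
  have e1 : g * ((g + ζ) * (2 * B ^ 2 * (S + 1)) + 2 * (4 * H * p)) + ζ * (2 * (4 * H * p)) =
      g * ((g + ζ) * (2 * B ^ 2 * (S + 1))) + 2 * (4 * H * p) * (ζ + g) := by ring
  rw [e1] at hcz
  omega

end Pool.Agent.DP
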