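import Pool.Agent.DM.POS

/-!
# DP, zero estimate: the positions are uniform in `p`

Translation by 4 keeps the activity of all functionals; the odd integers below `2p` are the poles.
-/

namespace Pool.Agent.DP

open Finset Pool.Agent.ZC Pool.Agent.SI Pool.Agent.DM

private theorem odp_four (β p : ℕ) : ¬ odp β (4 * (p : ℚ)) := by
  rintro ⟨k, hk⟩
  have h : (2 * (β : ℤ) + 1) * (4 * (p : ℤ)) = 2 * k + 1 := by exact_mod_cast hk
  have h2 : (2 * (β : ℤ) + 1) * (4 * (p : ℤ)) = 2 * ((2 * (β : ℤ) + 1) * (2 * (p : ℤ))) := by ring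
  omega

private theorem odp_shift (β p : ℕ) (w : ℚ) : odp β (w + 4 * (p : ℚ)) ↔ odp β w := by
  have h := odp_add β w (2 * (p : ℤ))
  have e : w + 2 * (((2 * (p : ℤ) : ℤ)) : ℚ) = w + 4 * (p : ℚ) := by push_cast; ring
  rw [e] at h
  exact h

private theorem per (B : ℕ) (g : ℚ → ℕ) (hg : ∀ (w : ℚ) (p : ℕ), g (w + 4 * (p : ℚ)) = g w)
    (p : ℕ) : ∑ w ∈ posP B p, g w = p * ∑ w ∈ posP B 1, g w := by
  classical
  induction p with
  | zero =>
    have h : posP B 0 = ∅ := by
      rw [eq_empty_iff_forall_notMem]
      intro w hw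
      obtain ⟨h0, h1, -⟩ := (mem_posP B 0 w).1 hw
      rw [Nat.cast_zero, mul_zero] at h1
      linarith
    rw [h, sum_empty, zero_mul]
  | succ p ih =>
    have h : posP B (p + 1) = posP B p ∪ (posP B 1).image (fun w => w + 4 * (p : ℚ)) := by
      ext w
      rw [mem_union, mem_image, mem_posP, mem_posP]
      constructor
      · rintro ⟨h0, h1, β, hβ, h2⟩
        by_cases h3 : w < 4 * (p : ℚ)
        · exact Or.inl ⟨h0, h3, β, hβ, h2⟩
        · right
          have h4 : w ≠ 4 * (p : ℚ) := by
            intro h5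
            rw [h5] at h2
            exact odp_four β p h2
          have h5 : 4 * (p : ℚ) < w := lt_of_le_of_ne (not_lt.1 h3) h4.symm
          refine ⟨w - 4 * (p : ℚ), (mem_posP B 1 _).2 ⟨by linarith, ?_, β, hβ, ?_⟩, by ring⟩
          · push_cast at h1 ⊢
            linarith
          · rw [← odp_shift β p, sub_add_cancel]
            exact h2
      · rintro (⟨h0, h1, β, hβ, h2⟩ | ⟨v, hv, rfl⟩)
        · refine ⟨h0, ?_, β, hβ, h2⟩
          push_cast
          linarith
        · obtain ⟨h0, h1, β, hβ, h2⟩ := (mem_posP B 1 v).1 hv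
          have hp : (0 : ℚ) ≤ p := Nat.cast_nonneg p
          refine ⟨by linarith, ?_, β, hβ, (odp_shift β p v).2 h2⟩
          push_cast at h1 ⊢
          linarith
    have hd : Disjoint (posP B p) ((posP B 1).image (fun w => w + 4 * (p : ℚ))) := by
      rw [disjoint_left]
      intro w h1 h2
      obtain ⟨v, hv, rfl⟩ := mem_image.1 h2
      have h3 := ((mem_posP B p _).1 h1).2.1
      have h4 := ((mem_posP B 1 v).1 hv).1
      linarith
    rw [h, sum_union hd, ih, sum_image (fun x _ y _ hxy => by
      have h' : x + 4 * (p : ℚ) = y + 4 * (p : ℚ) := hxy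
      linarith), sum_congr rfl (fun w _ => hg w p)]
    ring

/-- the odd integers -/
private theorem odd_sum (B p : ℕ) (hB : 1 ≤ B) (F : (ℕ → Prop) → Prop → ℕ) :
    letI := Classical.propDecidable
    ∑ w0 ∈ (posP B p).filter (odp 0), F (fun β => odp β w0) (isPole p w0) =
      p * (F (fun _ => True) True + F (fun _ => True) False) := by
  classical
  have h1 : (posP B p).filter (odp 0) =
      (range (2 * p)).image fun k : ℕ => 2 * (k : ℚ) + 1 := by
    ext w
    rw [mem_filter, mem_image, mem_posP]
    constructor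
    · rintro ⟨⟨h0, h1, -⟩, k, hk⟩
      have hw : w = 2 * (k : ℚ) + 1 := by
        rw [← hk]; push_cast; ring
      rw [hw] at h0 h1
      have h2 : (0 : ℤ) < 2 * k + 1 := by exact_mod_cast h0
      have h3 : 2 * k + 1 < 4 * (p : ℤ) := by exact_mod_cast h1
      obtain ⟨n, rfl⟩ := Int.eq_ofNat_of_zero_le (show (0 : ℤ) ≤ k by omega)
      refine ⟨n, mem_range.2 (by omega), ?_⟩
      rw [hw, Int.cast_natCast]
    · rintro ⟨k, hk, rfl⟩
      have hk' := mem_range.1 hk
      have h2 : 2 * k + 1 < 4 * p := by omega
      have h3 : odp 0 (2 * (k : ℚ) + 1) := ⟨(k : ℤ), by push_cast; ring⟩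
      refine ⟨⟨by positivity, by exact_mod_cast h2, 0, by omega, h3⟩, h3⟩
  have e : ∀ k : ℕ, F (fun β => odp β (2 * (k : ℚ) + 1)) (isPole p (2 * (k : ℚ) + 1)) =
      if k < p then F (fun _ => True) True else F (fun _ => True) False := by
    intro k
    have h2 : (fun β => odp β (2 * (k : ℚ) + 1)) = fun _ => True := by
      funext β
      refine propext ⟨fun _ => trivial, fun _ => ?_⟩
      refine ⟨(2 * (β : ℤ) + 1) * k + β, ?_⟩
      push_cast
      ring
    have h3 : odp 0 (2 * (k : ℚ) + 1) := ⟨(k : ℤ), by push_cast; ring⟩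
    have h4 : |2 * (k : ℚ) + 1| = 2 * (k : ℚ) + 1 := abs_of_pos (by positivity)
    rw [h2]
    split_ifs with h
    · have h5 : isPole p (2 * (k : ℚ) + 1) = True := by
        refine propext ⟨fun _ => trivial, fun _ => ⟨h3, ?_⟩⟩
        rw [h4]
        have : 2 * k + 1 < 2 * p := by omega
        exact_mod_cast this
      rw [h5]
    · have h5 : isPole p (2 * (k : ℚ) + 1) = False := by
        refine propext ⟨fun h6 => ?_, fun h6 => h6.elim⟩
        have h7 := h6.2
        rw [h4] at h7
        have : 2 * k + 1 < 2 * p := by exact_mod_cast h7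
        omega
      rw [h5]
  have h2 : ∑ w0 ∈ (posP B p).filter (odp 0), F (fun β => odp β w0) (isPole p w0) =
      ∑ k ∈ range (2 * p), if k < p then F (fun _ => True) True else F (fun _ => True) False := by
    rw [h1, sum_image (fun x _ y _ hxy => by
      have h' : 2 * (x : ℚ) + 1 = 2 * (y : ℚ) + 1 := hxy
      have : (x : ℚ) = y := by linarith
      exact_mod_cast this)]
    exact sum_congr rfl fun k _ => e k
  have h3 : ∑ k ∈ range (2 * p),
      (if k < p then F (fun _ => True) True else F (fun _ => True) False) =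
      p * (F (fun _ => True) True + F (fun _ => True) False) := by
    rw [two_mul, sum_range_add]
    have a1 : ∑ k ∈ range p, (if k < p then F (fun _ => True) True
        else F (fun _ => True) False) = p * F (fun _ => True) True := by
      rw [sum_congr rfl (fun k hk => if_pos (mem_range.1 hk)), sum_const, card_range, smul_eq_mul]
    have a2 : ∑ k ∈ range p, (if p + k < p then F (fun _ => True) True
        else F (fun _ => True) False) = p * F (fun _ => True) False := by
      rw [sum_congr rfl (fun k _ => if_neg (show ¬ p + k < p by omega)), sum_const, card_range,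
        smul_eq_mul]
    rw [a1, a2]
    ring
  rw [← h3]
  convert h2

theorem uni (B p : ℕ) (F : (ℕ → Prop) → Prop → ℕ) :
    ∑ w0 ∈ posP B p, F (fun β => odp β w0) (isPole p w0) =
      p * ∑ w0 ∈ posP B 1, F (fun β => odp β w0) (isPole 1 w0) := by
  classical
  rcases Nat.eq_zero_or_pos B with hB | hB
  · subst hB
    have h : ∀ q : ℕ, posP 0 q = ∅ := by
      intro q
      rw [eq_empty_iff_forall_notMem]
      intro w hw
      obtain ⟨-, -, β, hβ, -⟩ := (mem_posP 0 q w).1 hw
      omega
    rw [h, h, sum_empty, sum_empty, mul_zero]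
  · -- the positions which are not odd integers
    set g : ℚ → ℕ := fun w => if odp 0 w then 0 else F (fun β => odp β w) False with hg
    have hper := per B g (fun w q => by
      have h1 : (fun β => odp β (w + 4 * (q : ℚ))) = fun β => odp β w := by
        funext β
        exact propext (odp_shift β q w)
      have h2 : odp 0 (w + 4 * (q : ℚ)) = odp 0 w := propext (odp_shift 0 q w)
      simp only [hg]
      rw [h1, h2])
    have hsplit : ∀ q : ℕ, ∑ w0 ∈ posP B q, F (fun β => odp β w0) (isPole q w0) =
        q * (F (fun _ => True) True + F (fun _ => True) False) + ∑ w0 ∈ posP B q, g w0 := by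
      intro q
      have h1 := odd_sum B q hB F
      have h2 : ∑ w0 ∈ posP B q, F (fun β => odp β w0) (isPole q w0) =
          ∑ w0 ∈ (posP B q).filter (odp 0), F (fun β => odp β w0) (isPole q w0) +
          ∑ w0 ∈ (posP B q).filter (fun w => ¬ odp 0 w), F (fun β => odp β w0) (isPole q w0) :=
        (sum_filter_add_sum_filter_not _ _ _).symm
      have h3 : ∑ w0 ∈ (posP B q).filter (fun w => ¬ odp 0 w),
          F (fun β => odp β w0) (isPole q w0) = ∑ w0 ∈ posP B q, g w0 := by
        rw [sum_filter]
        refine sum_congr rfl fun w _ => ?_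
        simp only [hg]
        by_cases h4 : odp 0 w
        · rw [if_neg (not_not.2 h4), if_pos h4]
        · rw [if_pos h4, if_neg h4]
          have h5 : isPole q w = False := propext ⟨fun h6 => h4 h6.1, fun h6 => h6.elim⟩
          rw [h5]
      rw [h2, h3]
      congr 1
    rw [hsplit p, hsplit 1, hper p, hper 1]
    ring

end Pool.Agent.DP
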