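import Pool.Agent.DM.ZEG
import Pool.Agent.DP.CZP

/-!
# DP, zero estimate: definitions

`P` has the basis `eI i ∈ W`, `i < x`; the scalar functional number `β + B i` is the coordinate `i`
of the functional `β`; `eZ n i = ζ(n) e_i ∈ W`.
-/

namespace Pool.Agent.DP

open Finset Polynomial Pool.Agent.ZC Pool.Agent.SI Pool.Agent.DM

section

variable {K : Type*} [Field K] {W : Type*} [AddCommGroup W] [Module K W]

/-- companion of the functional `φ` -/
noncomputable def thP (B T : ℕ) (eZ : ℕ → ℕ → W) (φ : W →ₗ[K] K) (β' : ℕ) : PowerSeries K :=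
  zs K (2 * (β' % B) + 1) (oddS T) (fun n => φ (eZ n (β' / B)))

/-- value of the functional `φ` on `G` -/
noncomputable def GP (B p T : ℕ) (eI : ℕ → W) (eZ : ℕ → ℕ → W) (φ : W →ₗ[K] K) (β' l : ℕ) :
    PowerSeries K :=
  PowerSeries.C (φ (eI (β' / B))) * Gs K p (2 * (β' % B) + 1) l (oddS T) 0 + thP B T eZ φ β'

/-- the vector `w(β,k)` of `P` -/
noncomputable def wvW (B x : ℕ) (eI : ℕ → W) (w : ℕ → ℕ → K) (β k : ℕ) : W :=
  ∑ i ∈ range x, w (β + B * i) k • eI i

/-- the support `P_E(w)` of a family -/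
noncomputable def PEW (B x : ℕ) (eI : ℕ → W) {m : ℕ} (w : Fin m → ℕ → ℕ → K) : Submodule K W :=
  Submodule.span K {v | ∃ (j : Fin m) (β k : ℕ), β < B ∧ v = wvW B x eI (w j) β k}

variable [FiniteDimensional K W]

/-- a basis of the functionals vanishing on `U` -/
noncomputable def phi (U : Submodule K W) (j : Fin (Module.finrank K (W ⧸ U))) : W →ₗ[K] K :=
  (Module.finBasis K (W ⧸ U)).coord j ∘ₗ U.mkQ

/-- number of conditions of the family at a position with active functionals `A`,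
pole iff `c` -/
noncomputable def kapP (B S a x : ℕ) (eI : ℕ → W) (eZ : ℕ → ℕ → W) (A : ℕ → Prop) (c : Prop)
    {m : ℕ} (w : Fin m → ℕ → ℕ → K) : ℕ :=
  kap (B * x) S a (fun j => thP B (a + S) eZ (phi (PEW B x eI w) j)) (fun β' => A (β' % B)) c w

/-- sum over the positive positions -/
noncomputable def ksP (B S a x p : ℕ) (eI : ℕ → W) (eZ : ℕ → ℕ → W) {m : ℕ}
    (w : Fin m → ℕ → ℕ → K) : ℕ :=
  ∑ w0 ∈ posP B p, kapP B S a x eI eZ (fun β => odp β w0) (isPole p w0) w

end

end Pool.Agent.DP
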