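import Pool.Agent.DP.RELP
import Pool.Agent.DP.UNI

/-!
# DP, zero estimate: no relations in the minimal family
-/

namespace Pool.Agent.DP

open Finset Polynomial Pool.Agent.ZC Pool.Agent.SI Pool.Agent.DM

variable {K : Type*} [Field K] {W : Type*} [AddCommGroup W] [Module K W]

theorem sg_GP [CharZero K] {p l : ℕ} (hl : l ≤ 2 * p - 1) (B T : ℕ) (eI : ℕ → W)
    (eZ : ℕ → ℕ → W) (φ : W →ₗ[K] K) (β' : ℕ) :
    PowerSeries.evalNegHom (GP B p T eI eZ φ β' l) = GP B p T eI eZ φ β' (2 * p - 1 - l) := by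
  unfold GP thP
  rw [map_add, map_mul, sg_C, sg_Gs hl (2 * (β' % B) + 1) (by omega) (oddS T)
    (fun i hi => (Finset.mem_filter.1 hi).2) 0, zeg_sg_zs]

/-- relations at the poles `l < p` hold at all poles -/
theorem relP_all [CharZero K] (B S a p x T : ℕ) (hp : 1 ≤ p) (eI : ℕ → W) (eZ : ℕ → ℕ → W)
    (P : ℕ → ℕ → K[X])
    (hpar : ∀ β k, C ((-1) ^ k) * (P β k).comp (C (-(2 * (p : K) - 1)) - X) = P β k)
    (φ : W →ₗ[K] K)
    (hrel : ∀ l < p, (PowerSeries.X : PowerSeries K) ^ a ∣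
      ∑ β' ∈ range (B * x), ∑ k ∈ range (S + 1),
        loc K l (P β' k) * hs K k (GP B p T eI eZ φ β' l)) :
    ∀ l ≤ 2 * p - 1, (PowerSeries.X : PowerSeries K) ^ a ∣
      ∑ β' ∈ range (B * x), ∑ k ∈ range (S + 1),
        loc K l (P β' k) * hs K k (GP B p T eI eZ φ β' l) := by
  intro l hl
  by_cases hlp : l < p
  · exact hrel l hlp
  · have h1 := X_pow_dvd_sg (hrel (2 * p - 1 - l) (by omega))
    have hl' : 2 * p - 1 - l ≤ 2 * p - 1 := by omega
    have h2 : 2 * p - 1 - (2 * p - 1 - l) = l := by omega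
    rw [map_sum] at h1
    refine h1.trans (dvd_of_eq ?_)
    refine Finset.sum_congr rfl fun β _ => ?_
    rw [map_sum]
    refine Finset.sum_congr rfl fun k _ => ?_
    rw [map_mul, sg_hs, sg_GP hl', h2]
    have h3 : loc K l (P β k) = PowerSeries.C ((-1) ^ k) *
        PowerSeries.evalNegHom (loc K (2 * p - 1 - l) (P β k)) := by
      conv_lhs => rw [← hpar β k]
      rw [map_mul, loc_C]
      congr 1
      rw [← jet_neg, ← jet_neg]
      have h4 := jet_refl (-(l : K)) (-(2 * (p : K) - 1)) (P β k)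
      rw [h4]
      congr 2
      rw [cast_sub_sym hp hl]
      ring_nf
    rw [h3]
    ring

variable [FiniteDimensional K W]

/-- **no relations** -/
theorem no_rel [CharZero K] (B H a S s0 x p : ℕ) (hB : 1 ≤ B)
    (hI2 : 8 * H * x + 16 * H + 1 ≤ a)
    (hp : x + B * x * (S + 1) + cRelP B S a x (Module.finrank K W) + 1 ≤ p)
    (eI : ℕ → W) (eZ : ℕ → ℕ → W) {m : ℕ} (ε : Fin m → ℕ) (w : Fin m → ℕ → ℕ → K)
    (hw : Fam (B * x) S s0 ε w)
    (hmin : ∀ (ζ : ℕ) (ε' : Fin ζ → ℕ) (w' : Fin ζ → ℕ → ℕ → K), 1 ≤ ζ → ζ ≤ m →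
        Fam (B * x) S s0 ε' w' →
        8 * H * ζ + a < 2 * ksP B S a x 1 eI eZ w' +
          2 * (Module.finrank K (PEW B x eI w') * a) + 16 * H)
    (f : Fin m → K[X]) (hf : ∀ i, f i ∈ degreeLT K (4 * H * p))
    (hA : ∀ w0 : ℚ, |w0| < 4 * (p : ℚ) → ∀ β' < B * x, odp (β' % B) w0 → ∀ r ≤ S,
      (rf S (comb w (fun i => pw p (ε i) (f i)) β') r).eval
        (((w0 - (2 * (p : ℚ) - 1)) / 2 : ℚ) : K) = 0)
    (hrel : ∀ φ : W →ₗ[K] K, ∀ l < p, (PowerSeries.X : PowerSeries K) ^ a ∣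
      ∑ β' ∈ range (B * x), ∑ k ∈ range (S + 1),
        loc K l (comb w (fun i => pw p (ε i) (f i)) β' k) *
          hs K k (GP B p (a + S) eI eZ φ β' l)) : f = 0 := by
  by_contra hne
  obtain ⟨ζ, ε', w', hζ1, hζm, hw', hest⟩ := relP B H a S s0 p x hB (by omega) eI eZ ε w hw f hf
    hne hA (fun φ => relP_all B S a p x (a + S) (by omega) eI eZ _
      (fun β k => comb_pw_parity (B * x) S s0 ε w hw p f β k) φ (hrel φ))
  have h1 := hmin ζ ε' w' hζ1 hζm hw'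
  have h2 : ksP B S a x p eI eZ w' = p * ksP B S a x 1 eI eZ w' :=
    uni B p (fun A c => kapP B S a x eI eZ A c w')
  rw [h2] at hest
  have h3 := PEW_le B x eI w'
  obtain ⟨g, hg⟩ : ∃ g, g = Module.finrank K (PEW B x eI w') := ⟨_, rfl⟩
  rw [← hg] at h1 h3 hest
  obtain ⟨ks1, hks1⟩ : ∃ k, k = ksP B S a x 1 eI eZ w' := ⟨_, rfl⟩
  rw [← hks1] at h1 hest
  have h4 : p * (8 * H * ζ + a + 1) ≤ p * (2 * ks1 + 2 * (g * a) + 16 * H) :=
    Nat.mul_le_mul_left _ h1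
  have h5 : p * (8 * H * ζ + a + 1) = 2 * (4 * H * p) * ζ + p * a + p := by ring
  have h6 : p * (2 * ks1 + 2 * (g * a) + 16 * H) =
      2 * (p * ks1) + 2 * p * (g * a) + 16 * (p * H) := by ring
  have h7 : 2 * (4 * H * p) * (ζ + g) = 2 * (4 * H * p) * ζ + 8 * (p * H) * g := by ring
  have h8 : 8 * (p * H) * g ≤ 8 * (p * H) * x := Nat.mul_le_mul_left _ h3
  have h9 : p * (8 * H * x + 16 * H + 1) ≤ p * a := Nat.mul_le_mul_left _ hI2
  have h10 : p * (8 * H * x + 16 * H + 1) = 8 * (p * H) * x + 16 * (p * H) + p := by ring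
  omega

end Pool.Agent.DP
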